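import Pool.Agent.Helper15.VW.Tele

/-!
# Exchange of vectors: the increment of a vector in the box of other vectors (ns_notes_6d, section 4)
-/

set_option autoImplicit false

namespace Pool.Agent.Helper15.VW

open Finset Matrix Pool.Agent.Helper69.RK Pool.Agent.Helper26.VW Pool.Agent.Helper78.FW
open Pool.Agent.Helper61.GL hiding fl
open Pool.Agent.Helper92.W (fl)

variable {r : ℕ} {Ω Ω' α δ κ : Type} [Fintype Ω] [Fintype Ω']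

/-- the constant of the converse -/
noncomputable def cN (r : ℕ) (C : ℝ) : ℝ := r * Real.logb 2 (2 * (1 + C + 3 * (r * C) + r * C)) + cF r 1

/-- the position of the smoothed and shifted point in the coarse frame -/
theorem shift_coarse (M1 M2 : Mt r) (h1 : M1.det ≠ 0) (C : ℝ) (hC : 0 ≤ C)
    (h21 : Bdd C (M2⁻¹ * M1)) (g R : ℕ) (hg : R ≤ g) (u : Fin r → ℝ) (hu : ∀ i, |(M2⁻¹ *ᵥ u) i| ≤ C)
    (z : Fin r → ℝ) (x : Fin r → Fin (2 ^ g)) (k : Fin (2 ^ R)) (i : Fin r) :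
    |((((2 : ℝ) ^ g)⁻¹ • (M2⁻¹ * M1)) *ᵥ (fun j => ((Xu M1 g z x + ((k : ℕ) : ℤ) • wv M1 g R u) j : ℝ))) i -
      pf M2 0 z i| ≤ 1 + C + 3 * (r * C) := by
  have hg0 : (0 : ℝ) < 2 ^ g := by positivity
  have hR0 : (0 : ℝ) < 2 ^ R := by positivity
  have hgR : (2 : ℝ) ^ R ≤ 2 ^ g := pow_le_pow_right₀ (by norm_num) hg
  have hk1 : ((k : ℕ) : ℝ) / 2 ^ R ≤ 1 := by
    rw [div_le_one hR0]
    exact_mod_cast k.2.le
  have hk0 : (0 : ℝ) ≤ ((k : ℕ) : ℝ) := Nat.cast_nonneg _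
  -- the error vector
  set e : Fin r → ℝ := fun j => ((Xu M1 g z x + ((k : ℕ) : ℤ) • wv M1 g R u) j : ℝ) / 2 ^ g -
    (M1⁻¹ *ᵥ z) j - ((k : ℕ) : ℝ) / 2 ^ R * (M1⁻¹ *ᵥ u) j with he
  have he1 : ∀ j, |e j| ≤ 3 := by
    intro j
    have a1 : |(pf M1 g z j : ℝ) / 2 ^ g - (M1⁻¹ *ᵥ z) j| ≤ 1 := by
      have b1 := Int.floor_le ((2 : ℝ) ^ g * (M1⁻¹ *ᵥ z) j)
      have b2 := Int.lt_floor_add_one ((2 : ℝ) ^ g * (M1⁻¹ *ᵥ z) j)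
      have b3 : (1 : ℝ) ≤ 2 ^ g := one_le_pow₀ (by norm_num)
      unfold pf
      rw [div_sub' hg0.ne', abs_div, abs_of_pos hg0, div_le_one hg0, abs_le]
      constructor <;> linarith
    have a2 : |((x j : ℕ) : ℝ) / 2 ^ g| ≤ 1 := by
      rw [abs_of_nonneg (by positivity), div_le_one hg0]
      exact_mod_cast (x j).2.le
    have a3 : |((k : ℕ) : ℝ) * (wv M1 g R u j : ℝ) / 2 ^ g - ((k : ℕ) : ℝ) / 2 ^ R * (M1⁻¹ *ᵥ u) j| ≤ 1 := by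
      have b1 := Int.floor_le ((2 : ℝ) ^ g * (M1⁻¹ *ᵥ u) j / 2 ^ R)
      have b2 := Int.lt_floor_add_one ((2 : ℝ) ^ g * (M1⁻¹ *ᵥ u) j / 2 ^ R)
      have f1 : ((k : ℕ) : ℝ) * (wv M1 g R u j : ℝ) / 2 ^ g - ((k : ℕ) : ℝ) / 2 ^ R * (M1⁻¹ *ᵥ u) j =
          ((k : ℕ) : ℝ) / 2 ^ g * ((wv M1 g R u j : ℝ) - (2 : ℝ) ^ g * (M1⁻¹ *ᵥ u) j / 2 ^ R) := by
        field_simp
      rw [f1, abs_mul, abs_of_nonneg (div_nonneg hk0 hg0.le)]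
      have f2 : ((k : ℕ) : ℝ) / 2 ^ g ≤ 1 := by
        rw [div_le_one hg0]
        have : ((k : ℕ) : ℝ) ≤ 2 ^ R := by exact_mod_cast k.2.le
        linarith
      have f3 : |((wv M1 g R u j : ℝ) - (2 : ℝ) ^ g * (M1⁻¹ *ᵥ u) j / 2 ^ R)| ≤ 1 := by
        unfold wv
        rw [abs_le]
        constructor <;> linarith
      calc ((k : ℕ) : ℝ) / 2 ^ g * |((wv M1 g R u j : ℝ) - (2 : ℝ) ^ g * (M1⁻¹ *ᵥ u) j / 2 ^ R)|
          ≤ 1 * 1 := mul_le_mul f2 f3 (abs_nonneg _) (by norm_num)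
        _ = 1 := one_mul 1
    have a4 : e j = ((pf M1 g z j : ℝ) / 2 ^ g - (M1⁻¹ *ᵥ z) j) + ((x j : ℕ) : ℝ) / 2 ^ g +
        (((k : ℕ) : ℝ) * (wv M1 g R u j : ℝ) / 2 ^ g - ((k : ℕ) : ℝ) / 2 ^ R * (M1⁻¹ *ᵥ u) j) := by
      simp only [he, Xu, Pi.add_apply, Pi.smul_apply, smul_eq_mul]
      push_cast
      ring
    rw [a4]
    rw [abs_le] at a1 a2 a3 ⊢
    constructor <;> linarith
  have e1 : ((((2 : ℝ) ^ g)⁻¹ • (M2⁻¹ * M1)) *ᵥ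
      (fun j => ((Xu M1 g z x + ((k : ℕ) : ℤ) • wv M1 g R u) j : ℝ))) i =
      (M2⁻¹ *ᵥ z) i + ((k : ℕ) : ℝ) / 2 ^ R * (M2⁻¹ *ᵥ u) i + ((M2⁻¹ * M1) *ᵥ e) i := by
    have c1 : ∀ y : Fin r → ℝ, (M2⁻¹ * M1) *ᵥ (M1⁻¹ *ᵥ y) = M2⁻¹ *ᵥ y := by
      intro y
      rw [Matrix.mulVec_mulVec, Matrix.mul_assoc, Matrix.mul_nonsing_inv _ (isUnit_iff_ne_zero.2 h1),
        Matrix.mul_one]
    have c2 : (fun j => ((Xu M1 g z x + ((k : ℕ) : ℤ) • wv M1 g R u) j : ℝ)) =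
        (2 : ℝ) ^ g • (M1⁻¹ *ᵥ z + (((k : ℕ) : ℝ) / 2 ^ R) • (M1⁻¹ *ᵥ u) + e) := by
      funext j
      simp only [he, Pi.add_apply, Pi.smul_apply, smul_eq_mul]
      field_simp
      ring
    rw [c2, Matrix.mulVec_smul, Matrix.smul_mulVec, smul_smul, mul_inv_cancel₀ hg0.ne', one_smul,
      Matrix.mulVec_add, Matrix.mulVec_add, Matrix.mulVec_smul, c1, c1]
    rfl
  have e2 := mulVec_abs hC h21 he1 i
  have e3 := pf_zero M2 z i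
  have e4 : |((k : ℕ) : ℝ) / 2 ^ R * (M2⁻¹ *ᵥ u) i| ≤ C := by
    rw [abs_mul, abs_of_nonneg (div_nonneg hk0 hR0.le)]
    calc ((k : ℕ) : ℝ) / 2 ^ R * |(M2⁻¹ *ᵥ u) i| ≤ 1 * C :=
          mul_le_mul hk1 (hu i) (abs_nonneg _) (by norm_num)
      _ = C := one_mul C
  have e5 : (r : ℝ) * (C * 3) = 3 * (r * C) := by ring
  rw [e5] at e2
  rw [e1]
  rw [abs_le] at e2 e4 ⊢
  constructor <;> linarith

/-- **the increment of a noise is at most the increment of the functional** -/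
theorem Ns_le_SF (μ : Ω → ℝ) (hμ : ∀ ω, 0 ≤ μ ω) (hm : mass μ = 1) (z : Ω → Fin r → ℝ) (Y : Ω → δ)
    (M1 M2 : Mt r) (h1 : M1.det ≠ 0) (h2 : M2.det ≠ 0) (C : ℝ) (hC : 0 ≤ C) (h21 : Bdd C (M2⁻¹ * M1))
    (g R : ℕ) (hg : R ≤ g) (u : Fin r → ℝ) (hu : ∀ i, |(M2⁻¹ *ᵥ u) i| ≤ C) :
    Ns μ z Y M1 g R u ≤ SF μ z Y M2 - SF μ z Y M1 + cN r C := by
  classical
  have : Nonempty (Fin (2 ^ g)) := ⟨⟨0, by positivity⟩⟩
  have : Nonempty (Fin (2 ^ R)) := ⟨⟨0, by positivity⟩⟩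
  have hg0 : (0 : ℝ) < 2 ^ g := by positivity
  have hg1 : (1 : ℝ) ≤ 2 ^ g := one_le_pow₀ (by norm_num)
  have hr0 : (0 : ℝ) ≤ r := Nat.cast_nonneg r
  have hd2 : 0 < |M2.det| := abs_pos.mpr h2
  have hd1 : 0 < |M1.det| := abs_pos.mpr h1
  have low := low_X μ hμ hm z Y M1 h1 g R
  unfold Ns
  set μ2 := un (Fin r → Fin (2 ^ g)) μ with hμ2
  set μ3 := un (Fin (2 ^ R)) μ2 with hμ3
  have n2 : ∀ p, 0 ≤ μ2 p := un_nonneg μ hμ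
  have n3 : ∀ p, 0 ≤ μ3 p := un_nonneg μ2 n2
  have m2 : mass μ2 = 1 := by rw [hμ2, un_mass, hm]
  have m3 : mass μ3 = 1 := by rw [hμ3, un_mass, m2]
  set X : (Ω × (Fin r → Fin (2 ^ g))) × Fin (2 ^ R) → (Fin r → ℤ) :=
    fun p => Xu M1 g (z p.1.1) p.1.2 + ((p.2 : ℕ) : ℤ) • wv M1 g R u with hX
  have b1 := ch_tri μ3 n3 X (fun p => pf M2 0 (z p.1.1)) (fun p => Y p.1.1)
  have b2 : CH μ3 (fun p => pf M2 0 (z p.1.1)) (fun p => Y p.1.1) = CH μ (fun ω => pf M2 0 (z ω)) Y := by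
    rw [hμ3, un_fst μ2 n2 (fun p => pf M2 0 (z p.1)) (fun p => Y p.1)]
    exact un_fst μ hμ (fun ω => pf M2 0 (z ω)) Y
  set W : Mt r := ((2 : ℝ) ^ g)⁻¹ • (M2⁻¹ * M1) with hW
  have hWe : ∀ i k, |W i k| ≤ C := by
    intro i k
    rw [hW, Matrix.smul_apply, smul_eq_mul, abs_mul, abs_of_pos (inv_pos.mpr hg0), inv_mul_le_iff₀ hg0]
    have := h21 i k
    nlinarith
  have hdet : |W.det| = |M1.det| / |M2.det| / (2 ^ g) ^ r := by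
    rw [hW, Matrix.det_smul, Fintype.card_fin, abs_mul, abs_of_pos (by positivity), det_mul, abs_mul,
      det_nonsing_inv, Ring.inverse_eq_inv', abs_inv, inv_pow]
    field_simp
  have b3 : CH μ3 X (fun p => (pf M2 0 (z p.1.1), Y p.1.1)) ≤
      ∑ p, μ3 p * Real.logb 2 ((2 * (1 + C + 3 * (r * C) + r * C)) ^ r * (2 ^ g) ^ r * |M2.det| / |M1.det|) := by
    apply e3_card μ3 _ _ (fun _ => (2 * (1 + C + 3 * (r * C) + r * C)) ^ r * (2 ^ g) ^ r * |M2.det| / |M1.det|) n3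
    intro p _
    have c0 : ∀ T : Finset (Fin r → ℤ), (∀ k ∈ T, ∃ p', pf M2 0 (z p'.1.1) = pf M2 0 (z p.1.1) ∧ X p' = k) →
        (T.card : ℝ) * |W.det| ≤ (2 * (1 + C + 3 * (r * C) + r * C)) ^ r := by
      intro T hT
      apply cnt W C (1 + C + 3 * (r * C)) hC (by positivity) hWe T (fun i => pf M2 0 (z p.1.1) i)
      intro k hk i
      obtain ⟨p', e, rfl⟩ := hT k hk
      rw [← e]
      exact shift_coarse M1 M2 h1 C hC h21 g R hg u hu (z p'.1.1) p'.1.2 p'.2 i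
    rw [hdet] at c0
    have c2 : ∀ T : ℝ, T * (|M1.det| / |M2.det| / (2 ^ g) ^ r) ≤ (2 * (1 + C + 3 * (r * C) + r * C)) ^ r →
        T ≤ (2 * (1 + C + 3 * (r * C) + r * C)) ^ r * (2 ^ g) ^ r * |M2.det| / |M1.det| := by
      intro T hT
      rw [le_div_iff₀ hd1]
      have h4 : T * |M1.det| = T * (|M1.det| / |M2.det| / (2 ^ g) ^ r) * ((2 ^ g) ^ r * |M2.det|) := by
        field_simp
      rw [h4]
      calc _ ≤ (2 * (1 + C + 3 * (r * C) + r * C)) ^ r * ((2 ^ g) ^ r * |M2.det|) :=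
            mul_le_mul_of_nonneg_right hT (by positivity)
        _ = _ := by ring
    refine c2 _ (c0 _ ?_)
    intro k hk
    obtain ⟨p', hp', rfl⟩ := e3_mem_image hk
    have hp2 := (@Finset.mem_filter _ _ (_) _ _).mp hp'
    exact ⟨p', (Prod.mk.inj hp2.2.2).1, rfl⟩
  rw [← Finset.sum_mul] at b3
  have b4 : ∑ p, μ3 p = 1 := m3
  have b5 : Real.logb 2 ((2 * (1 + C + 3 * ((r : ℝ) * C) + r * C)) ^ r * (2 ^ g) ^ r * |M2.det| / |M1.det|) =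
      r * Real.logb 2 (2 * (1 + C + 3 * (r * C) + r * C)) + r * g + Real.logb 2 |M2.det| -
        Real.logb 2 |M1.det| := by
    rw [Real.logb_div (by positivity) hd1.ne', Real.logb_mul (by positivity) hd2.ne',
      Real.logb_mul (by positivity) (by positivity), Real.logb_pow, Real.logb_pow, Real.logb_pow,
      Real.logb_self_eq_one (by norm_num)]
    ring
  rw [b4, one_mul, b5] at b3
  unfold SF cN
  linarith

/-- **EXCHANGE**: a vector in the box of `Z` and the vectors `w` -/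
theorem IZ_exch {ι : Type} [Fintype ι] (μ : Ω → ℝ) (hμ : ∀ ω, 0 ≤ μ ω) (hm : mass μ = 1)
    (z : Ω → Fin r → ℝ) (Y : Ω → δ) {φ B : ℝ} (hφ : 0 < φ) (g R0 : ℕ) (hg : R0 ≤ g) (hB : B ≤ φ * 2 ^ R0)
    (Z : Multiset (Fin r → ℝ)) (w : ι → Fin r → ℝ) (hZ : fam (flr (N := r) φ) ≤ Z)
    (hZB : ∀ v ∈ Z, ∀ i, |v i| ≤ B) (hwB : ∀ k i, |w k i| ≤ B) (C : ℝ) (hC : 1 ≤ C) (v : Fin r → ℝ)
    (hv : ∀ i, |((frm (Z + fm w))⁻¹ *ᵥ v) i| ≤ C) :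
    IZ μ z Y g R0 Z v ≤ ∑ i, IZ μ z Y g R0 Z (w i) + (cP r + cN r C) := by
  have hZ' : fam (flr (N := r) φ) ≤ Z + fm w := hZ.trans (Multiset.le_add_right _ _)
  have h1 := SZ_kv μ hμ hm z Y hφ g R0 hg hB Z w hZ hZB hwB
  have h2 := Ns_le_SF μ hμ hm z Y (frm Z) (frm (Z + fm w)) (frm_det hφ hZ) (frm_det hφ hZ') C (by linarith)
    (by
      intro i k
      rw [frm_col]
      exact (frm_mem hφ hZ' (Multiset.mem_add.mpr (Or.inl (fw_mem hZ k))) i).trans hC) g R0 hg v hv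
  unfold SZ at h1
  unfold IZ at h1 ⊢
  linarith

/-- vectors written with bounded coefficients -/
theorem frm_lin {ι : Type} [Fintype ι] {φ : ℝ} (hφ : 0 < φ) (Z : Multiset (Fin r → ℝ)) (w : ι → Fin r → ℝ)
    (hZ : fam (flr (N := r) φ) ≤ Z) (C : ℝ) (hC : 0 ≤ C) (c : ι → ℝ) (hc : ∀ k, |c k| ≤ C) (x : Fin r → ℝ)
    (hx : ∀ i, |((frm Z)⁻¹ *ᵥ x) i| ≤ C) (i : Fin r) :
    |((frm (Z + fm w))⁻¹ *ᵥ (∑ k, c k • w k + x)) i| ≤ (Fintype.card ι + r) * C := by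
  have hZ' : fam (flr (N := r) φ) ≤ Z + fm w := hZ.trans (Multiset.le_add_right _ _)
  have h1 : ∀ k, |((frm (Z + fm w))⁻¹ *ᵥ w k) i| ≤ 1 := fun k =>
    frm_mem hφ hZ' (Multiset.mem_add.mpr (Or.inr ((mem_fm _ _).mpr ⟨k, rfl⟩))) i
  have h2 : (frm (Z + fm w))⁻¹ *ᵥ x = ((frm (Z + fm w))⁻¹ * frm Z) *ᵥ ((frm Z)⁻¹ *ᵥ x) := by
    rw [Matrix.mulVec_mulVec, Matrix.mul_assoc, Matrix.mul_nonsing_inv _ (isUnit_iff_ne_zero.2 (frm_det hφ hZ)),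
      Matrix.mul_one]
  have h3 : |((frm (Z + fm w))⁻¹ *ᵥ x) i| ≤ r * (1 * C) := by
    rw [h2]
    exact mulVec_abs zero_le_one (fun i k => by
      rw [frm_col]
      exact frm_mem hφ hZ' (Multiset.mem_add.mpr (Or.inl (fw_mem hZ k))) i) hx i
  have h4 : |∑ k, ((frm (Z + fm w))⁻¹ *ᵥ (c k • w k)) i| ≤ Fintype.card ι * C := by
    refine (Finset.abs_sum_le_sum_abs _ _).trans ?_
    have : ∑ k : ι, |((frm (Z + fm w))⁻¹ *ᵥ (c k • w k)) i| ≤ ∑ k : ι, C := by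
      apply Finset.sum_le_sum
      intro k _
      rw [Matrix.mulVec_smul, Pi.smul_apply, smul_eq_mul, abs_mul]
      calc |c k| * |((frm (Z + fm w))⁻¹ *ᵥ w k) i| ≤ C * 1 :=
            mul_le_mul (hc k) (h1 k) (abs_nonneg _) hC
        _ = C := mul_one C
    rw [Finset.sum_const, Finset.card_univ, nsmul_eq_mul] at this
    exact this
  rw [Matrix.mulVec_add, Pi.add_apply, Matrix.mulVec_sum, Finset.sum_apply]
  refine (abs_add_le _ _).trans ?_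
  calc _ ≤ Fintype.card ι * C + r * (1 * C) := add_le_add h4 h3
    _ = _ := by ring

open Classical in
/-- averages of inequalities which hold with a small constant on an event -/
theorem avg_le2 (μ : Ω → ℝ) (hμ : ∀ ω, 0 ≤ μ ω) (f f' : Ω → ℝ) (c c' : ℝ) (hc : 0 ≤ c) (E : Ω → Prop)
    (h : ∀ ω, μ ω ≠ 0 → E ω → f ω ≤ f' ω + c) (h' : ∀ ω, μ ω ≠ 0 → f ω ≤ f' ω + c') :
    ∑ ω, μ ω * f ω ≤ ∑ ω, μ ω * f' ω + c * mass μ + c' * mass (res μ (fun ω => ¬ E ω)) := by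
  unfold mass
  rw [Finset.mul_sum, Finset.mul_sum, ← Finset.sum_add_distrib, ← Finset.sum_add_distrib]
  apply Finset.sum_le_sum
  intro ω _
  have hr : res μ (fun ω => ¬ E ω) ω = if E ω then 0 else μ ω := by
    unfold res
    by_cases hE : E ω <;> simp [hE]
  by_cases h0 : μ ω = 0
  · rw [hr, h0]
    simp
  · by_cases hE : E ω
    · have := mul_le_mul_of_nonneg_left (h ω h0 hE) (hμ ω)
      rw [hr, if_pos hE]
      linarith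
    · have := mul_le_mul_of_nonneg_left (h' ω h0) (hμ ω)
      rw [hr, if_neg hE]
      have h2 := mul_nonneg hc (hμ ω)
      linarith

theorem cP_nonneg (r : ℕ) : 0 ≤ cP r := by
  have hN : (0 : ℝ) ≤ r := Nat.cast_nonneg r
  have c1 : 0 ≤ r * Real.logb 2 (2 * (1 + 2 * ((r : ℝ) * 1))) := by
    apply mul_nonneg hN
    apply Real.logb_nonneg (by norm_num)
    linarith
  have c2 : 0 ≤ r * Real.logb 2 (2 * (1 + 2 * ((r : ℝ) * (r + 1)))) := by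
    apply mul_nonneg hN
    apply Real.logb_nonneg (by norm_num)
    have : (0 : ℝ) ≤ (r : ℝ) * (r + 1) := by positivity
    linarith
  have c3 := cF_nonneg r (C := (r : ℝ) + 1) (by linarith)
  unfold cP
  linarith

theorem cN_nonneg (r : ℕ) {C : ℝ} (hC : 0 ≤ C) : 0 ≤ cN r C := by
  have hN : (0 : ℝ) ≤ r := Nat.cast_nonneg r
  have c1 : 0 ≤ r * Real.logb 2 (2 * (1 + C + 3 * ((r : ℝ) * C) + r * C)) := by
    apply mul_nonneg hN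
    apply Real.logb_nonneg (by norm_num)
    have : (0 : ℝ) ≤ (r : ℝ) * C := by positivity
    linarith
  have c3 := cF_nonneg r (C := 1) zero_le_one
  unfold cN
  linarith

/-- **EXCHANGE ON AN EVENT**: families and vectors depend on the base -/
theorem IV_exch {ι : Type} [Fintype ι] (μ : Ω → ℝ) (hμ : ∀ ω, 0 ≤ μ ω) (z : Ω → Fin r → ℝ) (Y : Ω → δ)
    (Z : Ω → Multiset (Fin r → ℝ)) (w : ι → Ω → Fin r → ℝ) (v : Ω → Fin r → ℝ) (φ : Ω → ℝ) (B C : ℝ)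
    (g R0 D : ℕ) (E : Ω → Prop) (hg : R0 ≤ g) (hD : D ≤ R0) (hC : 1 ≤ C)
    (hYZ : ∀ ω ω', μ ω ≠ 0 → μ ω' ≠ 0 → Y ω = Y ω' → Z ω = Z ω')
    (hYw : ∀ ω ω', μ ω ≠ 0 → μ ω' ≠ 0 → Y ω = Y ω' → ∀ k, w k ω = w k ω')
    (hYv : ∀ ω ω', μ ω ≠ 0 → μ ω' ≠ 0 → Y ω = Y ω' → v ω = v ω')
    (hφ : ∀ ω, μ ω ≠ 0 → 0 < φ ω) (hB : ∀ ω, μ ω ≠ 0 → B ≤ φ ω * 2 ^ R0)
    (hZ : ∀ ω, μ ω ≠ 0 → fam (flr (φ ω)) ≤ Z ω) (hZB : ∀ ω, μ ω ≠ 0 → ∀ x ∈ Z ω, ∀ i, |x i| ≤ B)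
    (hwB : ∀ ω, μ ω ≠ 0 → ∀ k i, |w k ω i| ≤ B)
    (hE : ∀ ω, μ ω ≠ 0 → E ω → ∀ i, |((frm (Z ω + fm (fun k => w k ω)))⁻¹ *ᵥ v ω) i| ≤ C)
    (ht : ∀ ω, μ ω ≠ 0 → ∀ i, |((frm (Z ω))⁻¹ *ᵥ v ω) i| ≤ C * 2 ^ D) :
    IV μ z Y g R0 Z v ≤ ∑ k, IV μ z Y g R0 Z (w k) + (cP r + cN r C) * mass μ +
      (D + cT r C) * mass (res μ (fun ω => ¬ E ω)) := by
  have e1 : ∀ k, IV μ z Y g R0 Z (w k) = ∑ ω, μ ω * IZ (cw μ Y ω) z Y g R0 (Z ω) (w k ω) := fun k =>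
    IV_avg μ hμ z Y g R0 Z (w k) hYZ (fun ω ω' a a' e => hYw ω ω' a a' e k)
  rw [IV_avg μ hμ z Y g R0 Z v hYZ hYv, Finset.sum_congr rfl fun k _ => e1 k, Finset.sum_comm]
  have h1 := avg_le2 μ hμ (fun ω => IZ (cw μ Y ω) z Y g R0 (Z ω) (v ω))
    (fun ω => ∑ k, IZ (cw μ Y ω) z Y g R0 (Z ω) (w k ω)) (cP r + cN r C) (D + cT r C)
    (add_nonneg (cP_nonneg r) (cN_nonneg r (by linarith))) E
    (fun ω x hx => IZ_exch (cw μ Y ω) (cw_nonneg μ Y hμ ω) (cw_mass μ hμ Y ω x) z Y (hφ ω x) g R0 hg (hB ω x)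
      (Z ω) (fun k => w k ω) (hZ ω x) (hZB ω x) (hwB ω x) C hC (v ω) (hE ω x hx))
    (fun ω x => by
      have n1 := cw_nonneg μ Y hμ ω
      have n2 := cw_mass μ hμ Y ω x
      have h2 := Ns_triv (cw μ Y ω) n1 z Y (frm (Z ω)) (frm_det (hφ ω x) (hZ ω x)) g R0 D hg hD C (by linarith)
        (v ω) (ht ω x)
      rw [n2, mul_one] at h2
      have h3 : 0 ≤ ∑ k, IZ (cw μ Y ω) z Y g R0 (Z ω) (w k ω) :=
        Finset.sum_nonneg fun k _ => Ns_nonneg (cw μ Y ω) n1 z Y _ g R0 _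
      have h4 : IZ (cw μ Y ω) z Y g R0 (Z ω) (v ω) ≤ D + cT r C := h2
      linarith)
  refine h1.trans (le_of_eq ?_)
  congr 2
  apply Finset.sum_congr rfl
  intro ω _
  rw [Finset.mul_sum]

/-- down to a finer base on an extended space -/
theorem IV_down (μ : Ω → ℝ) (μ' : Ω' → ℝ) (π : Ω' → Ω) (hμ' : ∀ ω, 0 ≤ μ' ω) (hπ : push π μ' = μ)
    (z : Ω → Fin r → ℝ) (Y : Ω → δ) (K : Ω' → κ) (g R : ℕ) (Z : Ω → Multiset (Fin r → ℝ)) (v : Ω → Fin r → ℝ)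
    (hK : ∀ ω ω', μ' ω ≠ 0 → μ' ω' ≠ 0 → K ω = K ω' → Y (π ω) = Y (π ω'))
    (hZ : ∀ ω ω', μ' ω ≠ 0 → μ' ω' ≠ 0 → Y (π ω) = Y (π ω') → Z (π ω) = Z (π ω'))
    (hv : ∀ ω ω', μ' ω ≠ 0 → μ' ω' ≠ 0 → Y (π ω) = Y (π ω') → v (π ω) = v (π ω')) :
    IV μ z Y g R Z v ≤ IV μ' (fun ω => z (π ω)) K g R (fun ω => Z (π ω)) (fun ω => v (π ω)) := by
  unfold IV
  rw [← hπ, NsV_push μ' hμ' π z Y (fun ω => frm (Z ω)) g R v]
  exact NsV_cond μ' hμ' (fun ω => z (π ω)) (fun ω => Y (π ω)) K (fun ω => frm (Z (π ω))) g R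
    (fun ω => v (π ω)) hK (fun ω ω' a a' e => by rw [hZ ω ω' a a' e]) hv

end Pool.Agent.Helper15.VW
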