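import Pool.Agent.Helper15.VW.Nse

/-!
# Frames and noises which depend on the condition: sum over the fibres
-/

set_option autoImplicit false

namespace Pool.Agent.Helper15.VW

open Finset Matrix Pool.Agent.Helper69.RK Pool.Agent.Helper61.GL Pool.Agent.Helper26.VW

variable {r : ℕ} {Ω Ω' α δ κ : Type} [Fintype Ω] [Fintype Ω']

open Classical in
/-- the entropy is the sum over the fibres of the condition -/
theorem ch_fib (μ : Ω → ℝ) (f : Ω → α) (Y : Ω → δ) :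
    CH μ f Y = ∑ y ∈ univ.image Y, CH (res μ (fun ω => Y ω = y)) f Y := by
  have h1 : ∀ y ∈ univ.image Y, CH (res μ (fun ω => Y ω = y)) f Y =
      ∑ ω, res μ (fun ω => Y ω = y) ω *
        (Real.logb 2 (pr μ Y ω) - Real.logb 2 (pr μ (fun ω' => (f ω', Y ω')) ω)) := by
    intro y _
    exact e4_part μ f Y (fun ω => Y ω = y) (fun ω ω' _ _ e h => e.symm.trans h)
  rw [Finset.sum_congr rfl h1, Finset.sum_comm]
  unfold CH
  apply Finset.sum_congr rfl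
  intro ω _
  rw [← Finset.sum_mul]
  congr 1
  rw [Finset.sum_eq_single (Y ω)]
  · exact (e4_res_pos μ (fun ω' => Y ω' = Y ω) ω rfl).symm
  · intro y _ hy
    exact e4_res_neg μ _ ω (fun h => hy h.symm)
  · intro h
    exact absurd (Finset.mem_image_of_mem Y (mem_univ ω)) h

open Classical in
theorem mass_fib (μ : Ω → ℝ) (Y : Ω → δ) :
    mass μ = ∑ y ∈ univ.image Y, mass (res μ (fun ω => Y ω = y)) := by
  unfold mass
  rw [Finset.sum_comm]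
  apply Finset.sum_congr rfl
  intro ω _
  rw [Finset.sum_eq_single (Y ω)]
  · exact (e4_res_pos μ (fun ω' => Y ω' = Y ω) ω rfl).symm
  · intro y _ hy
    exact e4_res_neg μ _ ω (fun h => hy h.symm)
  · intro h
    exact absurd (Finset.mem_image_of_mem Y (mem_univ ω)) h

omit [Fintype Ω] in
theorem un_res {N : Type} [Fintype N] (μ : Ω → ℝ) (E : Ω → Prop) :
    un N (res μ E) = res (un N μ) (fun p => E p.1) := by
  classical
  funext p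
  unfold un res
  split_ifs <;> simp

/-- the noise increment with a frame and a noise that depend on the point -/
noncomputable def NsV (μ : Ω → ℝ) (z : Ω → Fin r → ℝ) (Y : Ω → δ) (M : Ω → Mt r) (g R : ℕ)
    (u : Ω → Fin r → ℝ) : ℝ :=
  CH (un (Fin (2 ^ R)) (un (Fin r → Fin (2 ^ g)) μ))
    (fun p => Xu (M p.1.1) g (z p.1.1) p.1.2 + ((p.2 : ℕ) : ℤ) • wv (M p.1.1) g R (u p.1.1))
    (fun p => Y p.1.1) -
  CH (un (Fin (2 ^ R)) (un (Fin r → Fin (2 ^ g)) μ))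
    (fun p => Xu (M p.1.1) g (z p.1.1) p.1.2) (fun p => Y p.1.1)

theorem NsV_const (μ : Ω → ℝ) (z : Ω → Fin r → ℝ) (Y : Ω → δ) (M : Mt r) (g R : ℕ) (u : Fin r → ℝ) :
    NsV μ z Y (fun _ => M) g R (fun _ => u) = Ns μ z Y M g R u := rfl

/-- only the values on the support matter -/
theorem NsV_congr (μ : Ω → ℝ) (z : Ω → Fin r → ℝ) (Y : Ω → δ) (M M' : Ω → Mt r) (g R : ℕ)
    (u u' : Ω → Fin r → ℝ) (hM : ∀ ω, μ ω ≠ 0 → M ω = M' ω) (hu : ∀ ω, μ ω ≠ 0 → u ω = u' ω) :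
    NsV μ z Y M g R u = NsV μ z Y M' g R u' := by
  unfold NsV
  congr 1
  · apply ch_congr_left
    intro p p' hp hp' _
    have a := un_ne μ p.1 (un_ne _ p hp)
    have a' := un_ne μ p'.1 (un_ne _ p' hp')
    rw [hM _ a, hM _ a', hu _ a, hu _ a']
  · apply ch_congr_left
    intro p p' hp hp' _
    have a := un_ne μ p.1 (un_ne _ p hp)
    have a' := un_ne μ p'.1 (un_ne _ p' hp')
    rw [hM _ a, hM _ a']

open Classical in
/-- the increment is the sum of the increments of the fibres -/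
theorem NsV_fib (μ : Ω → ℝ) (z : Ω → Fin r → ℝ) (Y : Ω → δ) (M : Ω → Mt r) (g R : ℕ)
    (u : Ω → Fin r → ℝ) :
    NsV μ z Y M g R u = ∑ y ∈ univ.image Y, NsV (res μ (fun ω => Y ω = y)) z Y M g R u := by
  have h1 := ch_fib (un (Fin (2 ^ R)) (un (Fin r → Fin (2 ^ g)) μ))
    (fun p => Xu (M p.1.1) g (z p.1.1) p.1.2 + ((p.2 : ℕ) : ℤ) • wv (M p.1.1) g R (u p.1.1))
    (fun p => Y p.1.1)
  have h2 := ch_fib (un (Fin (2 ^ R)) (un (Fin r → Fin (2 ^ g)) μ))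
    (fun p => Xu (M p.1.1) g (z p.1.1) p.1.2) (fun p => Y p.1.1)
  have : Nonempty (Fin (2 ^ g)) := ⟨⟨0, by positivity⟩⟩
  have : Nonempty (Fin (2 ^ R)) := ⟨⟨0, by positivity⟩⟩
  have h3 : (univ : Finset ((Ω × (Fin r → Fin (2 ^ g))) × Fin (2 ^ R))).image (fun p => Y p.1.1) =
      univ.image Y := by
    ext y
    simp only [mem_image, mem_univ, true_and]
    constructor
    · rintro ⟨p, hp⟩
      exact ⟨p.1.1, hp⟩
    · rintro ⟨ω, hω⟩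
      exact ⟨((ω, Classical.arbitrary _), Classical.arbitrary _), hω⟩
  rw [h3] at h1 h2
  unfold NsV
  rw [h1, h2, ← Finset.sum_sub_distrib]
  apply Finset.sum_congr rfl
  intro y _
  rw [un_res, un_res]

open Classical in
/-- a bound which holds for constant frames and noises on all fibres -/
theorem NsV_le (μ : Ω → ℝ) (z : Ω → Fin r → ℝ) (Y : Ω → δ) (M : Ω → Mt r) (g R : ℕ)
    (u : Ω → Fin r → ℝ) (c : ℝ)
    (hM : ∀ ω ω', μ ω ≠ 0 → μ ω' ≠ 0 → Y ω = Y ω' → M ω = M ω')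
    (hu : ∀ ω ω', μ ω ≠ 0 → μ ω' ≠ 0 → Y ω = Y ω' → u ω = u ω')
    (h : ∀ ω, μ ω ≠ 0 → Ns (res μ (fun ω' => Y ω' = Y ω)) z Y (M ω) g R (u ω) ≤
      c * mass (res μ (fun ω' => Y ω' = Y ω))) :
    NsV μ z Y M g R u ≤ c * mass μ := by
  rw [NsV_fib, mass_fib μ Y, Finset.mul_sum]
  apply Finset.sum_le_sum
  intro y _
  by_cases hy : ∃ ω, μ ω ≠ 0 ∧ Y ω = y
  · obtain ⟨ω, h0, rfl⟩ := hy
    rw [NsV_congr (res μ (fun ω' => Y ω' = Y ω)) z Y M (fun _ => M ω) g R u (fun _ => u ω), NsV_const]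
    · exact h ω h0
    · intro ω' h1
      have h2 : Y ω' = Y ω ∧ μ ω' ≠ 0 := by
        unfold res at h1
        split_ifs at h1 with h3
        · exact ⟨h3, h1⟩
        · exact absurd rfl h1
      exact hM ω' ω h2.2 h0 h2.1
    · intro ω' h1
      have h2 : Y ω' = Y ω ∧ μ ω' ≠ 0 := by
        unfold res at h1
        split_ifs at h1 with h3
        · exact ⟨h3, h1⟩
        · exact absurd rfl h1
      exact hu ω' ω h2.2 h0 h2.1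
  · have h2 : ∀ ω, res μ (fun ω' => Y ω' = y) ω = 0 := by
      intro ω
      unfold res
      split_ifs with h3
      · by_contra h4
        exact hy ⟨ω, h4, h3⟩
      · rfl
    have h3 : mass (res μ (fun ω' => Y ω' = y)) = 0 := by
      unfold mass
      exact Finset.sum_eq_zero fun ω _ => h2 ω
    have h4 : NsV (res μ (fun ω' => Y ω' = y)) z Y M g R u = 0 := by
      have h5 : ∀ p, un (Fin (2 ^ R)) (un (Fin r → Fin (2 ^ g)) (res μ (fun ω' => Y ω' = y))) p = 0 := by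
        intro p
        unfold un
        rw [h2, zero_div, zero_div]
      unfold NsV CH
      rw [Finset.sum_eq_zero, Finset.sum_eq_zero, sub_self]
      · intro p _
        rw [h5, zero_mul]
      · intro p _
        rw [h5, zero_mul]
    rw [h3, h4, mul_zero]

/-- the increment is a mutual information -/
theorem NsV_eq (μ : Ω → ℝ) (hμ : ∀ ω, 0 ≤ μ ω) (z : Ω → Fin r → ℝ) (Y : Ω → δ) (M : Ω → Mt r) (g R : ℕ)
    (u : Ω → Fin r → ℝ)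
    (hM : ∀ ω ω', μ ω ≠ 0 → μ ω' ≠ 0 → Y ω = Y ω' → M ω = M ω')
    (hu : ∀ ω ω', μ ω ≠ 0 → μ ω' ≠ 0 → Y ω = Y ω' → u ω = u ω') :
    NsV μ z Y M g R u =
      CH (un (Fin (2 ^ R)) (un (Fin r → Fin (2 ^ g)) μ)) (fun p => p.2) (fun p => Y p.1.1) -
      CH (un (Fin (2 ^ R)) (un (Fin r → Fin (2 ^ g)) μ)) (fun p => p.2)
        (fun p => (Xu (M p.1.1) g (z p.1.1) p.1.2 + ((p.2 : ℕ) : ℤ) • wv (M p.1.1) g R (u p.1.1), Y p.1.1)) := by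
  have : Nonempty (Fin (2 ^ g)) := ⟨⟨0, by positivity⟩⟩
  have : Nonempty (Fin (2 ^ R)) := ⟨⟨0, by positivity⟩⟩
  set μ2 := un (Fin r → Fin (2 ^ g)) μ with hμ2
  set μ3 := un (Fin (2 ^ R)) μ2 with hμ3
  have n2 : ∀ p, 0 ≤ μ2 p := un_nonneg μ hμ
  have n3 : ∀ p, 0 ≤ μ3 p := un_nonneg μ2 n2
  have hne : ∀ p, μ3 p ≠ 0 → μ p.1.1 ≠ 0 := fun p hp => un_ne μ p.1 (un_ne _ p hp)
  have a1 := ch_symm μ3 (fun p => p.2)
    (fun p => Xu (M p.1.1) g (z p.1.1) p.1.2 + ((p.2 : ℕ) : ℤ) • wv (M p.1.1) g R (u p.1.1)) (fun p => Y p.1.1)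
  have a2 : CH μ3 (fun p => Xu (M p.1.1) g (z p.1.1) p.1.2 + ((p.2 : ℕ) : ℤ) • wv (M p.1.1) g R (u p.1.1))
      (fun p => (p.2, Y p.1.1)) =
      CH μ3 (fun p => Xu (M p.1.1) g (z p.1.1) p.1.2) (fun p => (p.2, Y p.1.1)) := by
    apply ch_congr_left
    intro p p' hp hp' e
    rw [Prod.mk.injEq] at e
    rw [e.1, hM _ _ (hne p hp) (hne p' hp') e.2, hu _ _ (hne p hp) (hne p' hp') e.2]
    exact add_left_inj _
  have a3 := ch_symm μ3 (fun p => p.2) (fun p => Xu (M p.1.1) g (z p.1.1) p.1.2) (fun p => Y p.1.1)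
  have a4 := un_snd (N := Fin (2 ^ R)) μ2 n2 (fun p => Y p.1)
  have a5 := un_snd (N := Fin (2 ^ R)) μ2 n2 (fun p => (Xu (M p.1) g (z p.1) p.2, Y p.1))
  unfold NsV
  rw [← hμ2, ← hμ3] at *
  have a6 : CH μ3 (fun p => p.2) (fun p => Y p.1.1) =
      CH μ3 (fun p => p.2) (fun p => (Xu (M p.1.1) g (z p.1.1) p.1.2, Y p.1.1)) := a4.trans a5.symm
  linarith

/-- a finer condition gives a larger increment -/
theorem NsV_cond (μ : Ω → ℝ) (hμ : ∀ ω, 0 ≤ μ ω) (z : Ω → Fin r → ℝ) (Y : Ω → δ) (K : Ω → κ) (M : Ω → Mt r)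
    (g R : ℕ) (u : Ω → Fin r → ℝ)
    (hK : ∀ ω ω', μ ω ≠ 0 → μ ω' ≠ 0 → K ω = K ω' → Y ω = Y ω')
    (hM : ∀ ω ω', μ ω ≠ 0 → μ ω' ≠ 0 → Y ω = Y ω' → M ω = M ω')
    (hu : ∀ ω ω', μ ω ≠ 0 → μ ω' ≠ 0 → Y ω = Y ω' → u ω = u ω') :
    NsV μ z Y M g R u ≤ NsV μ z K M g R u := by
  have : Nonempty (Fin (2 ^ g)) := ⟨⟨0, by positivity⟩⟩
  have : Nonempty (Fin (2 ^ R)) := ⟨⟨0, by positivity⟩⟩
  rw [NsV_eq μ hμ z Y M g R u hM hu, NsV_eq μ hμ z K M g R u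
    (fun ω ω' a a' e => hM ω ω' a a' (hK ω ω' a a' e)) (fun ω ω' a a' e => hu ω ω' a a' (hK ω ω' a a' e))]
  have n2 : ∀ p, 0 ≤ un (Fin r → Fin (2 ^ g)) μ p := un_nonneg μ hμ
  have n3 : ∀ p, 0 ≤ un (Fin (2 ^ R)) (un (Fin r → Fin (2 ^ g)) μ) p := un_nonneg _ n2
  have h := ch_cond _ n3 (fun p : (Ω × (Fin r → Fin (2 ^ g))) × Fin (2 ^ R) => p.2)
    (fun p => (Xu (M p.1.1) g (z p.1.1) p.1.2 + ((p.2 : ℕ) : ℤ) • wv (M p.1.1) g R (u p.1.1), Y p.1.1))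
    (fun p => (Xu (M p.1.1) g (z p.1.1) p.1.2 + ((p.2 : ℕ) : ℤ) • wv (M p.1.1) g R (u p.1.1), K p.1.1))
    (fun p p' hp hp' e => by
      rw [Prod.mk.injEq] at e ⊢
      exact ⟨e.1, hK _ _ (un_ne μ p.1 (un_ne _ p hp)) (un_ne μ p'.1 (un_ne _ p' hp')) e.2⟩)
  have a4 := un_snd (N := Fin (2 ^ R)) _ n2 (fun p => Y p.1)
  have a5 := un_snd (N := Fin (2 ^ R)) _ n2 (fun p => K p.1)
  have a6 : CH (un (Fin (2 ^ R)) (un (Fin r → Fin (2 ^ g)) μ)) (fun p => p.2) (fun p => Y p.1.1) =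
      CH (un (Fin (2 ^ R)) (un (Fin r → Fin (2 ^ g)) μ)) (fun p => p.2) (fun p => K p.1.1) := a4.trans a5.symm
  linarith

theorem NsV_push (μ' : Ω' → ℝ) (hμ' : ∀ ω, 0 ≤ μ' ω) (π : Ω' → Ω) (z : Ω → Fin r → ℝ) (Y : Ω → δ)
    (M : Ω → Mt r) (g R : ℕ) (u : Ω → Fin r → ℝ) :
    NsV (push π μ') z Y M g R u =
      NsV μ' (fun ω => z (π ω)) (fun ω => Y (π ω)) (fun ω => M (π ω)) g R (fun ω => u (π ω)) := by
  have : Nonempty (Fin (2 ^ g)) := ⟨⟨0, by positivity⟩⟩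
  have : Nonempty (Fin (2 ^ R)) := ⟨⟨0, by positivity⟩⟩
  have h1 : un (Fin (2 ^ R)) (un (Fin r → Fin (2 ^ g)) (push π μ')) =
      push (fun p : (Ω' × (Fin r → Fin (2 ^ g))) × Fin (2 ^ R) => ((π p.1.1, p.1.2), p.2))
        (un (Fin (2 ^ R)) (un (Fin r → Fin (2 ^ g)) μ')) := by
    rw [← un_comm, ← un_comm]
  have n2 : ∀ p, 0 ≤ un (Fin r → Fin (2 ^ g)) μ' p := un_nonneg μ' hμ'
  have n3 : ∀ p, 0 ≤ un (Fin (2 ^ R)) (un (Fin r → Fin (2 ^ g)) μ') p := un_nonneg _ n2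
  unfold NsV
  rw [h1, ((Pool.Agent.Helper70.RK.st_E5.1) _ _ _ _ _ _ _ _ n3).2.2,
    ((Pool.Agent.Helper70.RK.st_E5.1) _ _ _ _ _ _ _ _ n3).2.2]

/-- trivial bound -/
theorem NsV_triv (μ : Ω → ℝ) (hμ : ∀ ω, 0 ≤ μ ω) (z : Ω → Fin r → ℝ) (Y : Ω → δ) (M : Ω → Mt r) (g R D : ℕ)
    (u : Ω → Fin r → ℝ)
    (hM : ∀ ω ω', μ ω ≠ 0 → μ ω' ≠ 0 → Y ω = Y ω' → M ω = M ω')
    (hu : ∀ ω ω', μ ω ≠ 0 → μ ω' ≠ 0 → Y ω = Y ω' → u ω = u ω')
    (h1 : ∀ ω, μ ω ≠ 0 → (M ω).det ≠ 0) (hg : R ≤ g) (hD : D ≤ R) (C : ℝ) (hC : 0 ≤ C)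
    (hub : ∀ ω, μ ω ≠ 0 → ∀ i, |((M ω)⁻¹ *ᵥ u ω) i| ≤ C * 2 ^ D) :
    NsV μ z Y M g R u ≤ (D + cT r C) * mass μ := by
  apply NsV_le μ z Y M g R u _ hM hu
  intro ω h0
  exact Ns_triv _ (e4_res_nonneg μ _ hμ) z Y (M ω) (h1 ω h0) g R D hg hD C hC (u ω) (hub ω h0)

end Pool.Agent.Helper15.VW
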