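import Pool.Agent.Helper15.VW.Nse
import Pool.Agent.Helper78.FW.Path

/-!
# The functional of the path (theorem FW, ns_notes_78d): concrete instance of `PF`
-/

set_option autoImplicit false

namespace Pool.Agent.Helper15.VW

open Finset Matrix Pool.Agent.Helper69.RK Pool.Agent.Helper61.GL Pool.Agent.Helper26.VW Pool.Agent.Helper78.FW

variable {N : ℕ} {Ω δ : Type} [Fintype Ω]

open Classical in
/-- a maximal determinant subfamily -/
noncomputable def fw (Z : Multiset (Fin N → ℝ)) : Fin N → Fin N → ℝ :=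
  if h : ∃ w : Fin N → Fin N → ℝ, IsFr w {v | v ∈ Z} then h.choose else fun _ => 0

/-- the frame of a family of vectors (columns) -/
noncomputable def frm (Z : Multiset (Fin N → ℝ)) : Mt N := (Matrix.of (fw Z))ᵀ

/-- the functional of the path -/
noncomputable def SZ (μ : Ω → ℝ) (z : Ω → Fin N → ℝ) (Y : Ω → δ) (Z : Multiset (Fin N → ℝ)) : ℝ :=
  SF μ z Y (frm Z)

/-- the increment of the path -/
noncomputable def IZ (μ : Ω → ℝ) (z : Ω → Fin N → ℝ) (Y : Ω → δ) (g R : ℕ) (Z : Multiset (Fin N → ℝ))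
    (v : Fin N → ℝ) : ℝ := Ns μ z Y (frm Z) g R v

theorem fw_isFr {φ : ℝ} {Z : Multiset (Fin N → ℝ)} (hZ : fam (flr (N := N) φ) ≤ Z) :
    IsFr (fw Z) {v | v ∈ Z} := by
  classical
  have h : ∃ w : Fin N → Fin N → ℝ, IsFr w {v | v ∈ Z} := by
    apply exists_isFr _ _ (flr φ) (fun i => Multiset.mem_of_le hZ (mem_fam _ i))
    have : {v | v ∈ Z} = (Z.toFinset : Set (Fin N → ℝ)) := by
      ext v
      simp
    rw [this]
    exact Finset.finite_toSet _
  unfold fw
  rw [dif_pos h]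
  exact h.choose_spec

theorem fw_mem {φ : ℝ} {Z : Multiset (Fin N → ℝ)} (hZ : fam (flr (N := N) φ) ≤ Z) (k : Fin N) : fw Z k ∈ Z :=
  (fw_isFr hZ).1 k

theorem fw_det {φ : ℝ} (hφ : 0 < φ) {Z : Multiset (Fin N → ℝ)} (hZ : fam (flr (N := N) φ) ≤ Z) :
    (Matrix.of (fw Z)).det ≠ 0 := by
  have h1 := (fw_isFr hZ).2 (flr φ) (fun i => Multiset.mem_of_le hZ (mem_fam _ i))
  rw [det_flr, abs_of_pos (by positivity)] at h1
  have h2 : 0 < φ ^ N := by positivity
  exact abs_pos.mp (h2.trans_le h1)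

theorem frm_det {φ : ℝ} (hφ : 0 < φ) {Z : Multiset (Fin N → ℝ)} (hZ : fam (flr (N := N) φ) ≤ Z) :
    (frm Z).det ≠ 0 := by
  unfold frm
  rw [Matrix.det_transpose]
  exact fw_det hφ hZ

theorem frm_mulVec (Z : Multiset (Fin N → ℝ)) (x : Fin N → ℝ) : frm Z *ᵥ x = ∑ k, x k • fw Z k := by
  funext i
  rw [Finset.sum_apply]
  simp only [Matrix.mulVec, dotProduct, frm, Matrix.transpose_apply, Matrix.of_apply, Pi.smul_apply, smul_eq_mul]
  exact Finset.sum_congr rfl fun k _ => mul_comm _ _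

/-- coordinates in the frame -/
theorem frm_coord {φ : ℝ} (hφ : 0 < φ) {Z : Multiset (Fin N → ℝ)} (hZ : fam (flr (N := N) φ) ≤ Z)
    (x : Fin N → ℝ) {v : Fin N → ℝ} (hv : v = ∑ k, x k • fw Z k) : (frm Z)⁻¹ *ᵥ v = x := by
  rw [hv, ← frm_mulVec, Matrix.mulVec_mulVec, Matrix.nonsing_inv_mul _ (isUnit_iff_ne_zero.2 (frm_det hφ hZ)),
    Matrix.one_mulVec]

/-- members of the family have coordinates at most one -/
theorem frm_mem {φ : ℝ} (hφ : 0 < φ) {Z : Multiset (Fin N → ℝ)} (hZ : fam (flr (N := N) φ) ≤ Z)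
    {v : Fin N → ℝ} (hv : v ∈ Z) (i : Fin N) : |((frm Z)⁻¹ *ᵥ v) i| ≤ 1 := by
  obtain ⟨x, hx, hx1⟩ := (fw_isFr hZ).coord (fw_mem hZ) (fw_det hφ hZ) hv
  rw [div_self (abs_ne_zero.mpr (fw_det hφ hZ))] at hx1
  rw [frm_coord hφ hZ x hx]
  exact hx1 i

theorem frm_inB {φ : ℝ} (hφ : 0 < φ) {Z : Multiset (Fin N → ℝ)} (hZ : fam (flr (N := N) φ) ≤ Z)
    {v : Fin N → ℝ} (hv : InB Z v) (i : Fin N) : |((frm Z)⁻¹ *ᵥ v) i| ≤ N := by
  obtain ⟨u, hu, x, hx, rfl⟩ := hv
  have h1 : ((frm Z)⁻¹ *ᵥ ∑ k, x k • u k) i = ∑ k, x k * ((frm Z)⁻¹ *ᵥ u k) i := by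
    rw [Matrix.mulVec_sum, Finset.sum_apply]
    apply Finset.sum_congr rfl
    intro k _
    rw [Matrix.mulVec_smul, Pi.smul_apply, smul_eq_mul]
  rw [h1]
  calc |∑ k, x k * ((frm Z)⁻¹ *ᵥ u k) i| ≤ ∑ k, |x k * ((frm Z)⁻¹ *ᵥ u k) i| := abs_sum_le_sum_abs _ _
    _ ≤ ∑ _k : Fin N, (1 : ℝ) := by
        apply sum_le_sum
        intro k _
        rw [abs_mul]
        exact mul_le_one₀ (hx k) (abs_nonneg _) (frm_mem hφ hZ (hu k) i)
    _ = N := by simp

theorem frm_smul_inB {φ : ℝ} (hφ : 0 < φ) {Z : Multiset (Fin N → ℝ)} (hZ : fam (flr (N := N) φ) ≤ Z)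
    {v : Fin N → ℝ} {R : ℕ} (hv : InB Z (((1 : ℝ) / 2) ^ R • v)) (i : Fin N) :
    |((frm Z)⁻¹ *ᵥ v) i| ≤ N * 2 ^ R := by
  have h1 := frm_inB hφ hZ hv i
  rw [Matrix.mulVec_smul, Pi.smul_apply, smul_eq_mul, abs_mul, abs_of_pos (by positivity)] at h1
  have h2 : ((1 : ℝ) / 2) ^ R * 2 ^ R = 1 := by rw [← mul_pow]; norm_num
  have h3 : (0 : ℝ) < 2 ^ R := by positivity
  calc |((frm Z)⁻¹ *ᵥ v) i| = ((1 / 2) ^ R * |((frm Z)⁻¹ *ᵥ v) i|) * 2 ^ R := by
        rw [mul_right_comm, h2, one_mul]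
    _ ≤ N * 2 ^ R := mul_le_mul_of_nonneg_right h1 h3.le

theorem frm_col (Z Z' : Multiset (Fin N → ℝ)) (i k : Fin N) :
    ((frm Z)⁻¹ * frm Z') i k = ((frm Z)⁻¹ *ᵥ fw Z' k) i := by
  simp only [Matrix.mul_apply, Matrix.mulVec, dotProduct, frm, Matrix.transpose_apply, Matrix.of_apply]

theorem frm_colv (Z : Multiset (Fin N → ℝ)) (k : Fin N) : (fun i => frm Z i k) = fw Z k := by
  funext i
  simp [frm]

/-- the constant of the functional -/
noncomputable def cP (N : ℕ) : ℝ :=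
  N * Real.logb 2 (2 * (1 + 2 * (N * 1))) + N * Real.logb 2 (2 * (1 + 2 * (N * (N + 1)))) + cF N (N + 1)

theorem cF_nonneg (r : ℕ) {C : ℝ} (hC : 0 ≤ C) : 0 ≤ cF r C := by
  unfold cF
  have h1 : 0 ≤ Real.logb 2 (2 * (1 + r + 2 * (r * C))) := by
    apply Real.logb_nonneg (by norm_num)
    have h2 : (0 : ℝ) ≤ r := Nat.cast_nonneg r
    have h3 : (0 : ℝ) ≤ r * C := by positivity
    linarith
  have h2 : 0 ≤ Real.logb 2 (2 * (1 + r * C + r * (r * C)) + 2) := by
    apply Real.logb_nonneg (by norm_num)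
    have h3 : (0 : ℝ) ≤ r * C := by positivity
    have h4 : (0 : ℝ) ≤ r * (r * C) := by positivity
    linarith
  positivity

/-- **THE FUNCTIONAL OF THE PATH** -/
theorem pf_inst (μ : Ω → ℝ) (hμ : ∀ ω, 0 ≤ μ ω) (hm : mass μ = 1) (z : Ω → Fin N → ℝ) (Y : Ω → δ)
    (φ B : ℝ) (hφ : 0 < φ) (g R0 R : ℕ) (hg : R0 ≤ g) (hR : R ≤ R0) (hB : B ≤ φ * 2 ^ R0) :
    PF (fam (flr (N := N) φ)) B (SZ μ z Y) (IZ μ z Y g R0) R (cP N) (R + cT N N) := by
  classical
  have hN : (0 : ℝ) ≤ N := Nat.cast_nonneg N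
  have c1 : 0 ≤ N * Real.logb 2 (2 * (1 + 2 * ((N : ℝ) * 1))) := by
    apply mul_nonneg hN
    apply Real.logb_nonneg (by norm_num)
    linarith
  have c2 : 0 ≤ N * Real.logb 2 (2 * (1 + 2 * ((N : ℝ) * (N + 1)))) := by
    apply mul_nonneg hN
    apply Real.logb_nonneg (by norm_num)
    have : (0 : ℝ) ≤ (N : ℝ) * (N + 1) := by positivity
    linarith
  have c3 : 0 ≤ cF N (N + 1) := cF_nonneg N (by positivity)
  refine ⟨?_, ?_, ?_, ?_, ?_, ?_⟩
  · -- monotone
    intro Z v _ hZ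
    have hZ' : fam (flr (N := N) φ) ≤ Z + {v} := hZ.trans (Multiset.le_add_right _ _)
    have h1 := SF_mono μ hμ hm z Y (frm Z) (frm (Z + {v})) (frm_det hφ hZ) (frm_det hφ hZ') 1 zero_le_one (by
      intro i k
      rw [frm_col]
      exact frm_mem hφ hZ' (Multiset.mem_add.mpr (Or.inl (fw_mem hZ k))) i)
    unfold SZ cP
    linarith
  · -- absorption
    intro Z v _ hZ hv
    have hZ' : fam (flr (N := N) φ) ≤ Z + {v} := hZ.trans (Multiset.le_add_right _ _)
    have h1 := SF_mono μ hμ hm z Y (frm (Z + {v})) (frm Z) (frm_det hφ hZ') (frm_det hφ hZ) (N + 1)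
      (by positivity) (by
      intro i k
      rw [frm_col]
      have h2 := fw_mem hZ' k
      rcases Multiset.mem_add.mp h2 with h3 | h3
      · exact (frm_mem hφ hZ h3 i).trans (by linarith)
      · rw [Multiset.mem_singleton] at h3
        rw [h3]
        exact (frm_inB hφ hZ hv i).trans (by linarith))
    unfold SZ cP
    linarith
  · -- Kaimanovich-Vershik
    intro Z w hA hZ
    have hZ' : fam (flr (N := N) φ) ≤ Z + fam w := hZ.trans (Multiset.le_add_right _ _)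
    set q : Finset (Fin N) := univ.filter (fun k => fw (Z + fam w) k ∉ Z) with hq
    have hw : ∀ k ∈ q, ∃ i, w i = fw (Z + fam w) k := by
      intro k hk
      rw [hq, mem_filter] at hk
      rcases Multiset.mem_add.mp (fw_mem hZ' k) with h3 | h3
      · exact absurd h3 hk.2
      · exact (mem_fam_iff _ _).mp h3
    have h1 := fill μ hμ hm z Y (frm Z) (frm (Z + fam w)) (frm_det hφ hZ) (frm_det hφ hZ') (N + 1)
      (by positivity) (by
        intro i k
        rw [frm_col]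
        exact (frm_mem hφ hZ' (Multiset.mem_add.mpr (Or.inl (fw_mem hZ k))) i).trans (by linarith))
      g R0 hg q (by
        intro k hk i
        rw [frm_col]
        have hb := hA.2.2 _ (fw_mem hZ' k)
        have h2 : InB Z (((1 : ℝ) / 2) ^ R0 • fw (Z + fam w) k) := by
          apply InB.flr hφ hZ
          intro j
          rw [Pi.smul_apply, smul_eq_mul, abs_mul, abs_of_pos (by positivity)]
          have h3 := (hb j).trans hB
          have h4 : ((1 : ℝ) / 2) ^ R0 * 2 ^ R0 = 1 := by rw [← mul_pow]; norm_num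
          calc ((1 : ℝ) / 2) ^ R0 * |fw (Z + fam w) k j| ≤ (1 / 2) ^ R0 * (φ * 2 ^ R0) :=
                mul_le_mul_of_nonneg_left h3 (by positivity)
            _ = φ := by rw [mul_left_comm, h4, mul_one]
        exact (frm_smul_inB hφ hZ h2 i).trans (mul_le_mul_of_nonneg_right (by linarith) (by positivity)))
      (by
        intro k hk i
        rw [frm_col]
        rw [hq, mem_filter, not_and, not_not] at hk
        exact (frm_mem hφ hZ (hk (mem_univ k)) i).trans (by linarith))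
    -- the sum over the columns
    have h2 : ∑ k ∈ q, Ns μ z Y (frm Z) g R0 (fun i => frm (Z + fam w) i k) ≤ ∑ i, IZ μ z Y g R0 Z (w i) := by
      choose! ι hι using hw
      have hinj : Set.InjOn ι q := by
        intro k hk k' hk' e
        by_contra hne
        have e1 : fw (Z + fam w) k = fw (Z + fam w) k' := by
          rw [← hι k hk, ← hι k' hk', e]
        apply fw_det hφ hZ'
        exact Matrix.det_zero_of_row_eq hne e1
      calc ∑ k ∈ q, Ns μ z Y (frm Z) g R0 (fun i => frm (Z + fam w) i k)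
          = ∑ k ∈ q, IZ μ z Y g R0 Z (w (ι k)) := by
            apply Finset.sum_congr rfl
            intro k hk
            rw [frm_colv, hι k hk]
            rfl
        _ = ∑ i ∈ q.image ι, IZ μ z Y g R0 Z (w i) :=
            (Finset.sum_image (f := fun i => IZ μ z Y g R0 Z (w i)) hinj).symm
        _ ≤ ∑ i, IZ μ z Y g R0 Z (w i) :=
            Finset.sum_le_sum_of_subset_of_nonneg (Finset.subset_univ _)
              (fun i _ _ => Ns_nonneg μ hμ z Y _ g R0 _)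
    unfold SZ cP
    linarith
  · -- trivial bound
    intro Z v _ hZ hv
    have h1 := Ns_triv μ hμ z Y (frm Z) (frm_det hφ hZ) g R0 R hg hR N hN v (frm_smul_inB hφ hZ hv)
    rw [hm, mul_one] at h1
    exact h1
  · unfold cP
    linarith
  · have h1 : 0 ≤ Real.logb 2 ((N : ℝ) + 4) := Real.logb_nonneg (by norm_num) (by linarith)
    have h2 : 0 ≤ cF N 1 := cF_nonneg N zero_le_one
    unfold cT
    positivity

end Pool.Agent.Helper15.VW
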