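import Pool.Agent.Helper15.VW.Fib
import Pool.Agent.Helper15.VW.Pf
import Pool.Agent.Helper46.WF.Ent

/-!
# The functionals of the path as averages over the fibres of the base
-/

set_option autoImplicit false

namespace Pool.Agent.Helper15.VW

open Finset Matrix Pool.Agent.Helper69.RK Pool.Agent.Helper61.GL Pool.Agent.Helper26.VW Pool.Agent.Helper78.FW

variable {r : ℕ} {Ω Ω' α δ κ : Type} [Fintype Ω] [Fintype Ω']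

open Classical in
theorem sum_fib (μ : Ω → ℝ) (Y : Ω → δ) (k : Ω → ℝ) (h : δ → ℝ)
    (hk : ∀ ω ω', Y ω = Y ω' → k ω = k ω') (hh : ∀ ω, h (Y ω) = pr μ Y ω * k ω) :
    ∑ y ∈ univ.image Y, h y = ∑ ω, μ ω * k ω := by
  rw [← Finset.sum_fiberwise_of_maps_to (s := univ) (t := univ.image Y) (g := Y)
    (fun ω _ => Finset.mem_image_of_mem Y (mem_univ ω))]
  apply Finset.sum_congr rfl
  intro y hy
  obtain ⟨ω, _, rfl⟩ := Finset.mem_image.mp hy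
  rw [hh ω]
  unfold pr
  rw [Finset.sum_mul, Finset.sum_filter]
  apply Finset.sum_congr rfl
  intro ω' _
  split_ifs with e
  · rw [hk ω' ω e]
  · rw [zero_mul]

/-- the weights of a fibre -/
theorem res_eq_cw (μ : Ω → ℝ) (hμ : ∀ ω, 0 ≤ μ ω) (Y : Ω → δ) (ω : Ω) :
    res μ (fun ω' => Y ω' = Y ω) = fun ω' => pr μ Y ω * cw μ Y ω ω' := by
  classical
  funext ω'
  unfold res cw
  by_cases h : Y ω' = Y ω
  · simp only [if_pos h]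
    by_cases h0 : pr μ Y ω = 0
    · have h1 : μ ω' = 0 := by
        have h2 : pr μ Y ω = ∑ ω'', if Y ω'' = Y ω then μ ω'' else 0 := rfl
        rw [h2] at h0
        have h3 := (Finset.sum_eq_zero_iff_of_nonneg (fun i _ => by
          split_ifs
          · exact hμ i
          · exact le_rfl)).mp h0 ω' (mem_univ _)
        rwa [if_pos h] at h3
      rw [h1, zero_div, mul_zero]
    · rw [mul_div_cancel₀ _ h0]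
  · simp only [if_neg h, zero_div, mul_zero]

/-- the functional with a frame that depends on the point -/
noncomputable def SFV (μ : Ω → ℝ) (z : Ω → Fin r → ℝ) (Y : Ω → δ) (M : Ω → Mt r) : ℝ :=
  CH μ (fun ω => pf (M ω) 0 (z ω)) Y + ∑ ω, μ ω * Real.logb 2 |(M ω).det|

theorem cw_mass (μ : Ω → ℝ) (hμ : ∀ ω, 0 ≤ μ ω) (Y : Ω → δ) (ω : Ω) (h : μ ω ≠ 0) : mass (cw μ Y ω) = 1 :=
  cw_sum μ Y hμ ω h

/-- the functional is the average of the functionals of the fibres -/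
theorem SFV_avg (μ : Ω → ℝ) (hμ : ∀ ω, 0 ≤ μ ω) (z : Ω → Fin r → ℝ) (Y : Ω → δ) (M : Ω → Mt r)
    (hM : ∀ ω ω', μ ω ≠ 0 → μ ω' ≠ 0 → Y ω = Y ω' → M ω = M ω') :
    SFV μ z Y M = ∑ ω, μ ω * SF (cw μ Y ω) z Y (M ω) := by
  unfold SFV
  rw [Pool.Agent.Helper46.WF.CH_disint μ hμ, ← Finset.sum_add_distrib]
  apply Finset.sum_congr rfl
  intro ω _
  by_cases h0 : μ ω = 0
  · rw [h0, zero_mul, zero_mul, zero_mul, zero_add]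
  · rw [← mul_add]
    congr 1
    unfold SF Pool.Agent.Helper46.WF.Hh
    congr 1
    have h1 : CH (cw μ Y ω) (fun ω => pf (M ω) 0 (z ω)) (fun _ => ()) =
        CH (cw μ Y ω) (fun ω => pf (M ω) 0 (z ω)) Y := by
      apply ch_congr_right
      intro a a' ha ha'
      have e1 := (cw_ne_zero μ Y ha).1
      have e2 := (cw_ne_zero μ Y ha').1
      exact ⟨fun _ => e1.trans e2.symm, fun _ => rfl⟩
    rw [h1]
    apply ch_congr_left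
    intro a a' ha ha' _
    have e1 := cw_ne_zero μ Y ha
    have e2 := cw_ne_zero μ Y ha'
    rw [hM a ω e1.2 h0 e1.1, hM a' ω e2.2 h0 e2.1]

/-- the increment is the average of the increments of the fibres -/
theorem NsV_avg (μ : Ω → ℝ) (hμ : ∀ ω, 0 ≤ μ ω) (z : Ω → Fin r → ℝ) (Y : Ω → δ) (M : Ω → Mt r) (g R : ℕ)
    (u : Ω → Fin r → ℝ)
    (hM : ∀ ω ω', μ ω ≠ 0 → μ ω' ≠ 0 → Y ω = Y ω' → M ω = M ω')
    (hu : ∀ ω ω', μ ω ≠ 0 → μ ω' ≠ 0 → Y ω = Y ω' → u ω = u ω') :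
    NsV μ z Y M g R u = ∑ ω, μ ω * Ns (cw μ Y ω) z Y (M ω) g R (u ω) := by
  classical
  have hc : ∀ ω ω', 0 ≤ cw μ Y ω ω' := fun ω ω' => cw_nonneg μ Y hμ ω ω'
  have h1 : ∀ ω, NsV (res μ (fun ω' => Y ω' = Y ω)) z Y M g R u =
      pr μ Y ω * NsV (cw μ Y ω) z Y M g R u := by
    intro ω
    have e1 : un (Fin (2 ^ R)) (un (Fin r → Fin (2 ^ g)) (res μ (fun ω' => Y ω' = Y ω))) =
        fun p => pr μ Y ω * un (Fin (2 ^ R)) (un (Fin r → Fin (2 ^ g)) (cw μ Y ω)) p := by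
      rw [res_eq_cw μ hμ Y ω]
      funext p
      unfold un
      ring
    have n2 : ∀ p, 0 ≤ un (Fin r → Fin (2 ^ g)) (cw μ Y ω) p := un_nonneg _ (hc ω)
    have n3 : ∀ p, 0 ≤ un (Fin (2 ^ R)) (un (Fin r → Fin (2 ^ g)) (cw μ Y ω)) p := un_nonneg _ n2
    have hp : 0 ≤ pr μ Y ω := e3_pr_nonneg μ Y hμ ω
    unfold NsV
    rw [e1, (Pool.Agent.Helper70.RK.st_E5.2) _ _ _ _ _ _ _ hp n3,
      (Pool.Agent.Helper70.RK.st_E5.2) _ _ _ _ _ _ _ hp n3]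
    ring
  have h2 : ∀ ω, μ ω ≠ 0 → NsV (cw μ Y ω) z Y M g R u = Ns (cw μ Y ω) z Y (M ω) g R (u ω) := by
    intro ω h0
    rw [← NsV_const]
    apply NsV_congr
    · intro ω' h'
      have e1 := cw_ne_zero μ Y h'
      exact hM ω' ω e1.2 h0 e1.1
    · intro ω' h'
      have e1 := cw_ne_zero μ Y h'
      exact hu ω' ω e1.2 h0 e1.1
  have hcw : ∀ ω ω', Y ω = Y ω' → cw μ Y ω = cw μ Y ω' := by
    intro ω ω' e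
    funext a
    exact cw_congr μ Y e a
  rw [NsV_fib, sum_fib μ Y (fun ω => NsV (cw μ Y ω) z Y M g R u)
    (fun y => NsV (res μ (fun ω => Y ω = y)) z Y M g R u) (fun ω ω' e => by rw [hcw ω ω' e]) h1]
  apply Finset.sum_congr rfl
  intro ω _
  by_cases h0 : μ ω = 0
  · rw [h0, zero_mul, zero_mul]
  · rw [h2 ω h0]

/-! ### families of vectors which depend on the base -/

/-- the functional of a family -/
noncomputable def SV (μ : Ω → ℝ) (z : Ω → Fin r → ℝ) (Y : Ω → δ) (Z : Ω → Multiset (Fin r → ℝ)) : ℝ :=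
  SFV μ z Y (fun ω => frm (Z ω))

/-- the increment of a vector over a family -/
noncomputable def IV (μ : Ω → ℝ) (z : Ω → Fin r → ℝ) (Y : Ω → δ) (g R : ℕ) (Z : Ω → Multiset (Fin r → ℝ))
    (v : Ω → Fin r → ℝ) : ℝ := NsV μ z Y (fun ω => frm (Z ω)) g R v

theorem SV_avg (μ : Ω → ℝ) (hμ : ∀ ω, 0 ≤ μ ω) (z : Ω → Fin r → ℝ) (Y : Ω → δ)
    (Z : Ω → Multiset (Fin r → ℝ))
    (hZ : ∀ ω ω', μ ω ≠ 0 → μ ω' ≠ 0 → Y ω = Y ω' → Z ω = Z ω') :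
    SV μ z Y Z = ∑ ω, μ ω * SZ (cw μ Y ω) z Y (Z ω) :=
  SFV_avg μ hμ z Y (fun ω => frm (Z ω)) (fun ω ω' a a' e => by rw [hZ ω ω' a a' e])

theorem IV_avg (μ : Ω → ℝ) (hμ : ∀ ω, 0 ≤ μ ω) (z : Ω → Fin r → ℝ) (Y : Ω → δ) (g R : ℕ)
    (Z : Ω → Multiset (Fin r → ℝ)) (v : Ω → Fin r → ℝ)
    (hZ : ∀ ω ω', μ ω ≠ 0 → μ ω' ≠ 0 → Y ω = Y ω' → Z ω = Z ω')
    (hv : ∀ ω ω', μ ω ≠ 0 → μ ω' ≠ 0 → Y ω = Y ω' → v ω = v ω') :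
    IV μ z Y g R Z v = ∑ ω, μ ω * IZ (cw μ Y ω) z Y g R (Z ω) (v ω) :=
  NsV_avg μ hμ z Y (fun ω => frm (Z ω)) g R v (fun ω ω' a a' e => by rw [hZ ω ω' a a' e]) hv

/-- the axioms of the path hold in every fibre -/
theorem pf_cw (μ : Ω → ℝ) (hμ : ∀ ω, 0 ≤ μ ω) (z : Ω → Fin r → ℝ) (Y : Ω → δ) (ω : Ω) (h0 : μ ω ≠ 0)
    (φ B : ℝ) (hφ : 0 < φ) (g R0 R : ℕ) (hg : R0 ≤ g) (hR : R ≤ R0) (hB : B ≤ φ * 2 ^ R0) :
    PF (fam (flr (N := r) φ)) B (SZ (cw μ Y ω) z Y) (IZ (cw μ Y ω) z Y g R0) R (cP r) (R + cT r r) :=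
  pf_inst (cw μ Y ω) (cw_nonneg μ Y hμ ω) (cw_mass μ hμ Y ω h0) z Y φ B hφ g R0 R hg hR hB

/-- averages of inequalities which hold in every fibre -/
theorem avg_le (μ : Ω → ℝ) (hμ : ∀ ω, 0 ≤ μ ω) (f f' : Ω → ℝ) (c : ℝ)
    (h : ∀ ω, μ ω ≠ 0 → f ω ≤ f' ω + c) :
    ∑ ω, μ ω * f ω ≤ ∑ ω, μ ω * f' ω + c * mass μ := by
  unfold mass
  rw [Finset.mul_sum, ← Finset.sum_add_distrib]
  apply Finset.sum_le_sum
  intro ω _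
  by_cases h0 : μ ω = 0
  · rw [h0]
    simp
  · have := mul_le_mul_of_nonneg_left (h ω h0) (hμ ω)
    linarith

/-- monotone -/
theorem SV_mono (μ : Ω → ℝ) (hμ : ∀ ω, 0 ≤ μ ω) (z : Ω → Fin r → ℝ) (Y : Ω → δ)
    (Z : Ω → Multiset (Fin r → ℝ)) (w : Ω → Fin r → Fin r → ℝ) (φ : Ω → ℝ) (B : ℝ) (R0 : ℕ)
    (hZ : ∀ ω ω', μ ω ≠ 0 → μ ω' ≠ 0 → Y ω = Y ω' → Z ω = Z ω')
    (hw : ∀ ω ω', μ ω ≠ 0 → μ ω' ≠ 0 → Y ω = Y ω' → w ω = w ω')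
    (hφ : ∀ ω, μ ω ≠ 0 → 0 < φ ω) (hB : ∀ ω, μ ω ≠ 0 → B ≤ φ ω * 2 ^ R0)
    (hA : ∀ ω, μ ω ≠ 0 → Adm (fam (flr (φ ω))) B (Z ω + fam (w ω)))
    (hF : ∀ ω, μ ω ≠ 0 → fam (flr (φ ω)) ≤ Z ω) :
    SV μ z Y Z ≤ SV μ z Y (fun ω => Z ω + fam (w ω)) + r * cP r * mass μ := by
  rw [SV_avg μ hμ z Y Z hZ, SV_avg μ hμ z Y (fun ω => Z ω + fam (w ω))
    (fun ω ω' a a' e => by rw [hZ ω ω' a a' e, hw ω ω' a a' e])]
  apply avg_le μ hμ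
  intro ω h0
  exact (pf_cw μ hμ z Y ω h0 (φ ω) B (hφ ω h0) R0 R0 R0 le_rfl le_rfl (hB ω h0)).mono_fam (Z ω) (w ω)
    (hA ω h0) (hF ω h0)

/-- absorption -/
theorem SV_abs (μ : Ω → ℝ) (hμ : ∀ ω, 0 ≤ μ ω) (z : Ω → Fin r → ℝ) (Y : Ω → δ)
    (Z : Ω → Multiset (Fin r → ℝ)) (w : Ω → Fin r → Fin r → ℝ) (φ : Ω → ℝ) (B : ℝ) (R0 : ℕ)
    (hZ : ∀ ω ω', μ ω ≠ 0 → μ ω' ≠ 0 → Y ω = Y ω' → Z ω = Z ω')
    (hw : ∀ ω ω', μ ω ≠ 0 → μ ω' ≠ 0 → Y ω = Y ω' → w ω = w ω')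
    (hφ : ∀ ω, μ ω ≠ 0 → 0 < φ ω) (hB : ∀ ω, μ ω ≠ 0 → B ≤ φ ω * 2 ^ R0)
    (hA : ∀ ω, μ ω ≠ 0 → Adm (fam (flr (φ ω))) B (Z ω + fam (w ω)))
    (hF : ∀ ω, μ ω ≠ 0 → fam (flr (φ ω)) ≤ Z ω) (hI : ∀ ω, μ ω ≠ 0 → ∀ i, InB (Z ω) (w ω i)) :
    SV μ z Y (fun ω => Z ω + fam (w ω)) ≤ SV μ z Y Z + r * cP r * mass μ := by
  rw [SV_avg μ hμ z Y Z hZ, SV_avg μ hμ z Y (fun ω => Z ω + fam (w ω))
    (fun ω ω' a a' e => by rw [hZ ω ω' a a' e, hw ω ω' a a' e])]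
  apply avg_le μ hμ
  intro ω h0
  exact (pf_cw μ hμ z Y ω h0 (φ ω) B (hφ ω h0) R0 R0 R0 le_rfl le_rfl (hB ω h0)).abs_fam (Z ω) (w ω)
    (hA ω h0) (hF ω h0) (hI ω h0)

/-- Kaimanovich - Vershik -/
theorem SV_kv (μ : Ω → ℝ) (hμ : ∀ ω, 0 ≤ μ ω) (z : Ω → Fin r → ℝ) (Y : Ω → δ)
    (Z : Ω → Multiset (Fin r → ℝ)) (w : Ω → Fin r → Fin r → ℝ) (φ : Ω → ℝ) (B : ℝ) (g R0 : ℕ)
    (hg : R0 ≤ g)
    (hZ : ∀ ω ω', μ ω ≠ 0 → μ ω' ≠ 0 → Y ω = Y ω' → Z ω = Z ω')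
    (hw : ∀ ω ω', μ ω ≠ 0 → μ ω' ≠ 0 → Y ω = Y ω' → w ω = w ω')
    (hφ : ∀ ω, μ ω ≠ 0 → 0 < φ ω) (hB : ∀ ω, μ ω ≠ 0 → B ≤ φ ω * 2 ^ R0)
    (hA : ∀ ω, μ ω ≠ 0 → Adm (fam (flr (φ ω))) B (Z ω + fam (w ω)))
    (hF : ∀ ω, μ ω ≠ 0 → fam (flr (φ ω)) ≤ Z ω) :
    SV μ z Y (fun ω => Z ω + fam (w ω)) ≤
      SV μ z Y Z + ∑ i, IV μ z Y g R0 Z (fun ω => w ω i) + cP r * mass μ := by
  rw [SV_avg μ hμ z Y Z hZ, SV_avg μ hμ z Y (fun ω => Z ω + fam (w ω))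
    (fun ω ω' a a' e => by rw [hZ ω ω' a a' e, hw ω ω' a a' e])]
  have h1 : ∀ i, IV μ z Y g R0 Z (fun ω => w ω i) =
      ∑ ω, μ ω * IZ (cw μ Y ω) z Y g R0 (Z ω) (w ω i) := fun i =>
    IV_avg μ hμ z Y g R0 Z (fun ω => w ω i) hZ (fun ω ω' a a' e => by rw [hw ω ω' a a' e])
  rw [Finset.sum_congr rfl fun i _ => h1 i, Finset.sum_comm, ← Finset.sum_add_distrib]
  have h2 := avg_le μ hμ (fun ω => SZ (cw μ Y ω) z Y (Z ω + fam (w ω)))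
    (fun ω => SZ (cw μ Y ω) z Y (Z ω) + ∑ i, IZ (cw μ Y ω) z Y g R0 (Z ω) (w ω i)) (cP r) (by
      intro ω h0
      exact (pf_cw μ hμ z Y ω h0 (φ ω) B (hφ ω h0) g R0 R0 hg le_rfl (hB ω h0)).kv (Z ω) (w ω)
        (hA ω h0) (hF ω h0))
  refine h2.trans (le_of_eq ?_)
  congr 1
  apply Finset.sum_congr rfl
  intro ω _
  rw [mul_add, Finset.mul_sum]

end Pool.Agent.Helper15.VW
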