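import Pool.Agent.Helper15.VG.Kap
import Pool.Agent.Helper15.VW.Avg

/-!
# The functional of a chart: digits of the coordinates
-/

set_option autoImplicit false

namespace Pool.Agent.Helper15.VW

open Finset Matrix Pool.Agent.Helper69.RK Pool.Agent.Helper26.VW Pool.Agent.Helper78.FW
open Pool.Agent.Helper61.GL hiding fl
open Pool.Agent.Helper92.W (fl)

variable {r : ℕ} {Ω Ω' α δ κ : Type} [Fintype Ω] [Fintype Ω']

/-- the frame with the directions of `P` and the scales `2 ^ (-l k)` -/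
noncomputable def dfr (P : Mt r) (l : Fin r → ℕ) : Mt r := P * Matrix.diagonal fun k => ((1 : ℝ) / 2) ^ l k

theorem dfr_det (P : Mt r) (l : Fin r → ℕ) : (dfr P l).det = P.det * (1 / 2) ^ (∑ k, l k) := by
  unfold dfr
  rw [Matrix.det_mul, Matrix.det_diagonal, Finset.prod_pow_eq_pow_sum]

theorem dfr_ne (P : Mt r) (hP : P.det ≠ 0) (l : Fin r → ℕ) : (dfr P l).det ≠ 0 := by
  rw [dfr_det]
  exact mul_ne_zero hP (by positivity)

theorem dfr_inv (P : Mt r) (hP : P.det ≠ 0) (l : Fin r → ℕ) :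
    (dfr P l)⁻¹ = (Matrix.diagonal fun k => (2 : ℝ) ^ l k) * P⁻¹ := by
  apply Matrix.inv_eq_left_inv
  unfold dfr
  rw [Matrix.mul_assoc, ← Matrix.mul_assoc P⁻¹, Matrix.nonsing_inv_mul _ (isUnit_iff_ne_zero.2 hP),
    Matrix.one_mul, Matrix.diagonal_mul_diagonal]
  have : (fun i => (2 : ℝ) ^ l i * (1 / 2) ^ l i) = fun _ => 1 := by
    funext i
    rw [← mul_pow]
    norm_num
  rw [this, Matrix.diagonal_one]

/-- the cells of the chart are the digits of the coordinates -/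
theorem pf_dfr (P : Mt r) (hP : P.det ≠ 0) (l : Fin r → ℕ) (z : Fin r → ℝ) :
    pf (dfr P l) 0 z = fun k => fl (l k) ((P⁻¹ *ᵥ z) k) := by
  funext k
  unfold pf fl
  rw [dfr_inv P hP, pow_zero, one_mul, ← Matrix.mulVec_mulVec, Matrix.mulVec_diagonal]

/-- the functional of a chart -/
theorem SFV_dfr (μ : Ω → ℝ) (z : Ω → Fin r → ℝ) (Y : Ω → δ) (P : Ω → Mt r)
    (hP : ∀ ω, μ ω ≠ 0 → (P ω).det ≠ 0) (l : Fin r → ℕ) :
    SFV μ z Y (fun ω => dfr (P ω) l) = CH μ (fun ω => fun k => fl (l k) (((P ω)⁻¹ *ᵥ z ω) k)) Y +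
      ∑ ω, μ ω * Real.logb 2 |(P ω).det| - (∑ k, (l k : ℝ)) * mass μ := by
  unfold SFV
  have h1 : CH μ (fun ω => pf (dfr (P ω) l) 0 (z ω)) Y =
      CH μ (fun ω => fun k => fl (l k) (((P ω)⁻¹ *ᵥ z ω) k)) Y := by
    apply ch_congr_left
    intro ω ω' a a' _
    rw [pf_dfr (P ω) (hP ω a), pf_dfr (P ω') (hP ω' a')]
  have h2 : ∑ ω, μ ω * Real.logb 2 |(dfr (P ω) l).det| =
      ∑ ω, μ ω * Real.logb 2 |(P ω).det| - (∑ k, (l k : ℝ)) * mass μ := by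
    unfold mass
    rw [Finset.mul_sum, ← Finset.sum_sub_distrib]
    apply Finset.sum_congr rfl
    intro ω _
    by_cases h0 : μ ω = 0
    · rw [h0]
      simp
    · rw [dfr_det, abs_mul, Real.logb_mul (abs_ne_zero.mpr (hP ω h0)) (by positivity),
        abs_of_pos (by positivity : (0 : ℝ) < (1 / 2) ^ (∑ k, l k)), Real.logb_pow]
      have : Real.logb 2 (1 / 2) = -1 := by
        rw [one_div, Real.logb_inv, Real.logb_self_eq_one (by norm_num)]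
      rw [this]
      push_cast
      ring
  rw [h1, h2]
  ring

/-- monotone in the frame, frames depending on the base -/
theorem SFV_mono (μ : Ω → ℝ) (hμ : ∀ ω, 0 ≤ μ ω) (z : Ω → Fin r → ℝ) (Y : Ω → δ) (M M' : Ω → Mt r)
    (hY : ∀ ω ω', μ ω ≠ 0 → μ ω' ≠ 0 → Y ω = Y ω' → M ω = M ω' ∧ M' ω = M' ω')
    (hM : ∀ ω, μ ω ≠ 0 → (M ω).det ≠ 0) (hM' : ∀ ω, μ ω ≠ 0 → (M' ω).det ≠ 0) (C : ℝ) (hC : 0 ≤ C)
    (h : ∀ ω, μ ω ≠ 0 → Bdd C ((M' ω)⁻¹ * M ω)) :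
    SFV μ z Y M ≤ SFV μ z Y M' + r * Real.logb 2 (2 * (1 + 2 * (r * C))) * mass μ := by
  have h1 := Pool.Agent.Helper15.VG.fr_cells μ hμ z Y M M' hY hM hM' C hC h
  have h2 := ch_tri μ hμ (fun ω => pf (M ω) 0 (z ω)) (fun ω => pf (M' ω) 0 (z ω)) Y
  have h3 : ∑ ω, μ ω * (r * Real.logb 2 (2 * (1 + 2 * (r * C))) +
        (Real.logb 2 |(M' ω).det| - Real.logb 2 |(M ω).det|)) =
      r * Real.logb 2 (2 * (1 + 2 * (r * C))) * mass μ + ∑ ω, μ ω * Real.logb 2 |(M' ω).det| -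
        ∑ ω, μ ω * Real.logb 2 |(M ω).det| := by
    unfold mass
    rw [Finset.mul_sum, ← Finset.sum_add_distrib, ← Finset.sum_sub_distrib]
    apply Finset.sum_congr rfl
    intro ω _
    ring
  rw [h3] at h1
  unfold SFV
  linarith

/-- refining the frame: the number of new cells -/
theorem SFV_ref (μ : Ω → ℝ) (hμ : ∀ ω, 0 ≤ μ ω) (z : Ω → Fin r → ℝ) (Y : Ω → δ) (P : Ω → Mt r)
    (hP : ∀ ω, μ ω ≠ 0 → (P ω).det ≠ 0)
    (hY : ∀ ω ω', μ ω ≠ 0 → μ ω' ≠ 0 → Y ω = Y ω' → P ω = P ω') (l l' : Fin r → ℕ) (hl : ∀ k, l k ≤ l' k) :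
    SFV μ z Y (fun ω => dfr (P ω) l') ≤ SFV μ z Y (fun ω => dfr (P ω) l) +
      r * Real.logb 2 (2 * (1 + 2 * (r * 1))) * mass μ := by
  apply SFV_mono μ hμ z Y _ _ (fun ω ω' a a' e => by rw [hY ω ω' a a' e]; exact ⟨rfl, rfl⟩)
    (fun ω a => dfr_ne _ (hP ω a) l') (fun ω a => dfr_ne _ (hP ω a) l) 1 zero_le_one
  intro ω a i k
  rw [dfr_inv _ (hP ω a)]
  unfold dfr
  rw [Matrix.mul_assoc, ← Matrix.mul_assoc (P ω)⁻¹, Matrix.nonsing_inv_mul _ (isUnit_iff_ne_zero.2 (hP ω a)),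
    Matrix.one_mul, Matrix.diagonal_mul_diagonal, Matrix.diagonal_apply]
  split_ifs with e
  · have h1 : (2 : ℝ) ^ l i * (1 / 2) ^ l' i ≤ (2 : ℝ) ^ l' i * (1 / 2) ^ l' i := by
      apply mul_le_mul_of_nonneg_right _ (by positivity)
      exact pow_le_pow_right₀ (by norm_num) (hl i)
    have h2 : (2 : ℝ) ^ l' i * (1 / 2) ^ l' i = 1 := by rw [← mul_pow]; norm_num
    rw [abs_of_nonneg (by positivity)]
    linarith
  · rw [abs_zero]
    exact zero_le_one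

end Pool.Agent.Helper15.VW
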