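import Mathlib

/-!
# Number of integer vectors whose image lies in a box (theorem FW)
-/

set_option autoImplicit false

namespace Pool.Agent.Helper15.VW

open Finset Matrix MeasureTheory

/-- the unit cell of an integer vector -/
def cube {r : ℕ} (k : Fin r → ℤ) : Set (Fin r → ℝ) := Set.pi Set.univ fun i => Set.Ico (k i : ℝ) (k i + 1)

theorem cube_disj {r : ℕ} {k k' : Fin r → ℤ} (h : k ≠ k') : Disjoint (cube k) (cube k') := by
  rw [Set.disjoint_left]
  intro x hx hx'
  apply h
  funext i
  have h1 : x i ∈ Set.Ico (k i : ℝ) (k i + 1) := hx i (Set.mem_univ i)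
  have h2 : x i ∈ Set.Ico (k' i : ℝ) (k' i + 1) := hx' i (Set.mem_univ i)
  have h3 : ⌊x i⌋ = k i := Int.floor_eq_iff.mpr h1
  have h4 : ⌊x i⌋ = k' i := Int.floor_eq_iff.mpr h2
  rw [← h3, h4]

theorem cube_meas {r : ℕ} (k : Fin r → ℤ) : MeasurableSet (cube k) :=
  MeasurableSet.univ_pi fun _ => measurableSet_Ico

theorem cube_vol {r : ℕ} (k : Fin r → ℤ) : volume (cube k) = 1 := by
  unfold cube
  rw [volume_pi_pi]
  simp

/-- integer vectors whose image under `W` lies in a box of side `2 s` -/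
theorem cnt {r : ℕ} (W : Matrix (Fin r) (Fin r) ℝ) (B s : ℝ) (hB : 0 ≤ B) (hs : 0 ≤ s)
    (hW : ∀ i j, |W i j| ≤ B) (T : Finset (Fin r → ℤ)) (y : Fin r → ℝ)
    (hT : ∀ k ∈ T, ∀ i, |(W *ᵥ (fun j => (k j : ℝ))) i - y i| ≤ s) :
    (T.card : ℝ) * |W.det| ≤ (2 * (s + r * B)) ^ r := by
  set A : Set (Fin r → ℝ) := ⋃ k ∈ T, cube k with hA
  have hvA : volume A = T.card := by
    rw [hA, measure_biUnion_finset (fun k _ k' _ h => cube_disj h) (fun k _ => cube_meas k)]
    simp [cube_vol]
  have h1 : volume ((Matrix.toLin' W) '' A) = ENNReal.ofReal |W.det| * T.card := by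
    rw [Measure.addHaar_image_linearMap, LinearMap.det_toLin', hvA]
  have h2 : (Matrix.toLin' W) '' A ⊆ Set.pi Set.univ fun i => Set.Icc (y i - (s + r * B)) (y i + (s + r * B)) := by
    rintro _ ⟨x, hx, rfl⟩
    rw [hA, Set.mem_iUnion₂] at hx
    obtain ⟨k, hk, hxk⟩ := hx
    intro i _
    rw [Matrix.toLin'_apply]
    have h3 : |(W *ᵥ x) i - (W *ᵥ (fun j => (k j : ℝ))) i| ≤ r * B := by
      simp only [Matrix.mulVec, dotProduct]
      rw [← Finset.sum_sub_distrib]
      calc |∑ j, (W i j * x j - W i j * k j)| ≤ ∑ j, |W i j * x j - W i j * k j| := abs_sum_le_sum_abs _ _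
        _ ≤ ∑ _j : Fin r, B := by
            apply sum_le_sum
            intro j _
            rw [← mul_sub, abs_mul]
            have h4 : x j ∈ Set.Ico (k j : ℝ) (k j + 1) := hxk j (Set.mem_univ j)
            have h5 : |x j - k j| ≤ 1 := by
              rw [abs_le]
              constructor <;> linarith [h4.1, h4.2]
            calc |W i j| * |x j - k j| ≤ B * 1 := mul_le_mul (hW i j) h5 (abs_nonneg _) hB
              _ = B := mul_one B
        _ = r * B := by simp
    have h4 := hT k hk i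
    rw [abs_le] at h3 h4
    exact ⟨by linarith, by linarith⟩
  have h3 := measure_mono (μ := volume) h2
  rw [h1, volume_pi_pi] at h3
  have h4 : ∀ i : Fin r, volume (Set.Icc (y i - (s + r * B)) (y i + (s + r * B))) =
      ENNReal.ofReal (2 * (s + r * B)) := by
    intro i
    rw [Real.volume_Icc]
    congr 1
    ring
  rw [Finset.prod_congr rfl fun i _ => h4 i, Finset.prod_const, Finset.card_univ, Fintype.card_fin,
    ← ENNReal.ofReal_pow (by positivity), ← ENNReal.ofReal_natCast, ← ENNReal.ofReal_mul (abs_nonneg _),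
    ENNReal.ofReal_le_ofReal_iff (by positivity)] at h3
  rw [mul_comm]
  exact h3

end Pool.Agent.Helper15.VW
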