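import Pool.Agent.Helper15.VW.Fill

/-!
# Filling a frame by noises (theorem FW)
-/

set_option autoImplicit false

namespace Pool.Agent.Helper15.VW

open Finset Matrix Pool.Agent.Helper69.RK Pool.Agent.Helper61.GL Pool.Agent.Helper26.VW

variable {r : ℕ} {Ω δ : Type} [Fintype Ω]

/-- the number of noise indices compatible with the sum and the point -/
theorem Sm_count (M1 M2 : Mt r) (h1 : M1.det ≠ 0) (h2 : M2.det ≠ 0) (C : ℝ) (hC : 0 ≤ C)
    (g R : ℕ) (hg : R ≤ g) (q : Finset (Fin r))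
    (hq : ∀ k ∈ q, ∀ i, |(M1⁻¹ * M2) i k| ≤ C * 2 ^ R) (hq' : ∀ k, k ∉ q → ∀ i, |(M1⁻¹ * M2) i k| ≤ C)
    (z : Fin r → ℝ) (S0 : Fin r → ℤ) (T : Finset (Fin r → Fin (2 ^ R)))
    (hT : ∀ κ ∈ T, ∃ u : Fin r → Fin (2 ^ g), Sm M1 M2 g R q z u κ = S0) :
    (T.card : ℝ) ≤ (2 * (1 + r + 2 * (r * C))) ^ r * (2 ^ R) ^ r * |M1.det| / |M2.det| := by
  classical
  have hg0 : (0 : ℝ) < 2 ^ g := by positivity
  have hR0 : (0 : ℝ) < 2 ^ R := by positivity
  have hR1 : (1 : ℝ) ≤ 2 ^ R := one_le_pow₀ (by norm_num)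
  have hgR : (2 : ℝ) ^ R ≤ 2 ^ g := pow_le_pow_right₀ (by norm_num) hg
  set W : Matrix (Fin r) (Fin r) ℝ := (2 ^ R : ℝ)⁻¹ • (M1⁻¹ * M2) with hW
  have hWe : ∀ i k, |W i k| ≤ C := by
    intro i k
    rw [hW, Matrix.smul_apply, smul_eq_mul, abs_mul, abs_of_pos (inv_pos.mpr hR0), inv_mul_le_iff₀ hR0]
    by_cases hk : k ∈ q
    · rw [mul_comm]; exact hq k hk i
    · have := hq' k hk i
      nlinarith
  have hdet : |W.det| = |M2.det| / |M1.det| / (2 ^ R) ^ r := by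
    rw [hW, Matrix.det_smul, Fintype.card_fin, abs_mul, abs_of_pos (by positivity), det_mul, abs_mul,
      det_nonsing_inv, Ring.inverse_eq_inv', abs_inv, inv_pow]
    field_simp
  have hd2 : 0 < |M2.det| := abs_pos.mpr h2
  have hd1 : 0 < |M1.det| := abs_pos.mpr h1
  -- the finset of integer vectors
  set ι : (Fin r → Fin (2 ^ R)) → (Fin r → ℤ) := fun κ i => ((κ i : ℕ) : ℤ) with hι
  have hinj : Function.Injective ι := by
    intro κ κ' e
    funext i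
    have h3 := congrFun e i
    simp only [hι] at h3
    exact Fin.ext (by exact_mod_cast h3)
  have hcard : ((T.image ι).card : ℝ) = T.card := by
    rw [card_image_of_injective _ hinj]
  have h3 := cnt W C (1 + r + r * C) hC (by positivity) hWe (T.image ι)
    (fun i => ((S0 i : ℝ) - pf M1 g z i) / 2 ^ g) (by
      intro k hk i
      rw [mem_image] at hk
      obtain ⟨κ, hκ, rfl⟩ := hk
      obtain ⟨u, hu⟩ := hT κ hκ
      have e1 := congrFun hu i
      rw [Sm_apply] at e1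
      have e2 : (S0 i : ℝ) = pf M1 g z i + ((u i : ℕ) : ℝ) +
          ∑ k ∈ q, ((κ k : ℕ) : ℝ) * (wv M1 g R (fun i => M2 i k) i : ℝ) := by
        rw [← e1]
        push_cast
        rfl
      have e3 : (W *ᵥ (fun j => (ι κ j : ℝ))) i = ∑ k, (M1⁻¹ * M2) i k * ((κ k : ℕ) : ℝ) / 2 ^ R := by
        simp only [Matrix.mulVec, dotProduct, hW, hι, Matrix.smul_apply, smul_eq_mul]
        apply Finset.sum_congr rfl
        intro k _
        push_cast
        field_simp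
      have e4 : ∑ k, (M1⁻¹ * M2) i k * ((κ k : ℕ) : ℝ) / 2 ^ R =
          ∑ k ∈ q, (M1⁻¹ * M2) i k * ((κ k : ℕ) : ℝ) / 2 ^ R +
            ∑ k ∈ qᶜ, (M1⁻¹ * M2) i k * ((κ k : ℕ) : ℝ) / 2 ^ R := (Finset.sum_add_sum_compl q _).symm
      have hκ1 : ∀ k, ((κ k : ℕ) : ℝ) / 2 ^ R ≤ 1 := by
        intro k
        rw [div_le_one hR0]
        exact_mod_cast (κ k).2.le
      have hκ0 : ∀ k, (0 : ℝ) ≤ ((κ k : ℕ) : ℝ) := fun k => Nat.cast_nonneg _
      have e5 : |∑ k ∈ qᶜ, (M1⁻¹ * M2) i k * ((κ k : ℕ) : ℝ) / 2 ^ R| ≤ r * C := by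
        refine (abs_sum_le_sum_abs _ _).trans ?_
        calc ∑ k ∈ qᶜ, |(M1⁻¹ * M2) i k * ((κ k : ℕ) : ℝ) / 2 ^ R| ≤ ∑ k ∈ qᶜ, C := by
              apply sum_le_sum
              intro k hk
              rw [mem_compl] at hk
              rw [mul_div_assoc, abs_mul, abs_of_nonneg (div_nonneg (hκ0 k) hR0.le)]
              calc |(M1⁻¹ * M2) i k| * (((κ k : ℕ) : ℝ) / 2 ^ R) ≤ C * 1 :=
                    mul_le_mul (hq' k hk i) (hκ1 k) (div_nonneg (hκ0 k) hR0.le) hC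
                _ = C := mul_one C
          _ = (qᶜ.card : ℝ) * C := by rw [sum_const, nsmul_eq_mul]
          _ ≤ r * C := by
              apply mul_le_mul_of_nonneg_right _ hC
              have := card_le_univ qᶜ
              rw [Fintype.card_fin] at this
              exact_mod_cast this
      have e6 : |∑ k ∈ q, (M1⁻¹ * M2) i k * ((κ k : ℕ) : ℝ) / 2 ^ R -
          (∑ k ∈ q, ((κ k : ℕ) : ℝ) * (wv M1 g R (fun i => M2 i k) i : ℝ)) / 2 ^ g| ≤ r := by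
        rw [Finset.sum_div, ← Finset.sum_sub_distrib]
        refine (abs_sum_le_sum_abs _ _).trans ?_
        calc ∑ k ∈ q, |(M1⁻¹ * M2) i k * ((κ k : ℕ) : ℝ) / 2 ^ R -
              ((κ k : ℕ) : ℝ) * (wv M1 g R (fun i => M2 i k) i : ℝ) / 2 ^ g| ≤ ∑ k ∈ q, (1 : ℝ) := by
              apply sum_le_sum
              intro k _
              have f1 : (M1⁻¹ * M2) i k * ((κ k : ℕ) : ℝ) / 2 ^ R -
                  ((κ k : ℕ) : ℝ) * (wv M1 g R (fun i => M2 i k) i : ℝ) / 2 ^ g =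
                  ((κ k : ℕ) : ℝ) / 2 ^ g * ((2 : ℝ) ^ g * (M1⁻¹ * M2) i k / 2 ^ R -
                    wv M1 g R (fun i => M2 i k) i) := by
                field_simp
              rw [f1, abs_mul, abs_of_nonneg (div_nonneg (hκ0 k) hg0.le)]
              have f2 : ((κ k : ℕ) : ℝ) / 2 ^ g ≤ 1 := by
                rw [div_le_one hg0]
                have : ((κ k : ℕ) : ℝ) ≤ 2 ^ R := by exact_mod_cast (κ k).2.le
                linarith
              calc ((κ k : ℕ) : ℝ) / 2 ^ g * |(2 : ℝ) ^ g * (M1⁻¹ * M2) i k / 2 ^ R -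
                    wv M1 g R (fun i => M2 i k) i| ≤ 1 * 1 :=
                    mul_le_mul f2 (wv_near M1 M2 g R k i) (abs_nonneg _) (by norm_num)
                _ = 1 := one_mul 1
          _ = (q.card : ℝ) := by rw [sum_const, nsmul_eq_mul, mul_one]
          _ ≤ r := by
              have := card_le_univ q
              rw [Fintype.card_fin] at this
              exact_mod_cast this
      have e7 : |(((u i : ℕ) : ℝ)) / 2 ^ g| ≤ 1 := by
        rw [abs_of_nonneg (by positivity), div_le_one hg0]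
        exact_mod_cast (u i).2.le
      rw [e3, e4, e2]
      have e8 : ((pf M1 g z i : ℝ) + ((u i : ℕ) : ℝ) +
          ∑ k ∈ q, ((κ k : ℕ) : ℝ) * (wv M1 g R (fun i => M2 i k) i : ℝ) - pf M1 g z i) / 2 ^ g =
          ((u i : ℕ) : ℝ) / 2 ^ g +
          (∑ k ∈ q, ((κ k : ℕ) : ℝ) * (wv M1 g R (fun i => M2 i k) i : ℝ)) / 2 ^ g := by
        rw [← add_div]
        congr 1
        ring
      rw [e8]
      rw [abs_le] at e5 e6 e7 ⊢
      constructor <;> linarith)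
  rw [hcard, hdet] at h3
  have e9 : 2 * (1 + (r : ℝ) + r * C + r * C) = 2 * (1 + r + 2 * (r * C)) := by ring
  rw [e9] at h3
  rw [le_div_iff₀ hd2]
  have h4 : (T.card : ℝ) * |M2.det| = (T.card : ℝ) * (|M2.det| / |M1.det| / (2 ^ R) ^ r) *
      ((2 ^ R) ^ r * |M1.det|) := by
    field_simp
  rw [h4]
  calc _ ≤ (2 * (1 + r + 2 * (r * C))) ^ r * ((2 ^ R) ^ r * |M1.det|) :=
        mul_le_mul_of_nonneg_right h3 (by positivity)
    _ = _ := by ring

/-- lower bound for the entropy of the sum -/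
theorem low_S (μ : Ω → ℝ) (hμ : ∀ ω, 0 ≤ μ ω) (hm : mass μ = 1) (z : Ω → Fin r → ℝ) (Y : Ω → δ)
    (M1 M2 : Mt r) (h1 : M1.det ≠ 0) (h2 : M2.det ≠ 0) (C : ℝ) (hC : 0 ≤ C) (h21 : Bdd C (M2⁻¹ * M1))
    (g R : ℕ) (hg : R ≤ g) (q : Finset (Fin r))
    (hq : ∀ k ∈ q, ∀ i, |(M1⁻¹ * M2) i k| ≤ C * 2 ^ R) (hq' : ∀ k, k ∉ q → ∀ i, |(M1⁻¹ * M2) i k| ≤ C) :
    CH μ (fun ω => pf M2 0 (z ω)) Y + (r * g + Real.logb 2 |M2.det| - Real.logb 2 |M1.det|) ≤
      CH (un (Fin r → Fin (2 ^ R)) (un (Fin r → Fin (2 ^ g)) μ))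
        (fun p => Sm M1 M2 g R q (z p.1.1) p.1.2 p.2) (fun p => Y p.1.1) +
      (r * Real.logb 2 (2 * (1 + r + 2 * (r * C))) +
        r * Real.logb 2 (2 * (1 + r * C + r * (r * C)) + 2)) := by
  classical
  have : Nonempty (Fin (2 ^ g)) := ⟨⟨0, by positivity⟩⟩
  have : Nonempty (Fin (2 ^ R)) := ⟨⟨0, by positivity⟩⟩
  set μ2 := un (Fin r → Fin (2 ^ g)) μ with hμ2
  set μ3 := un (Fin r → Fin (2 ^ R)) μ2 with hμ3
  have n2 : ∀ p, 0 ≤ μ2 p := un_nonneg μ hμ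
  have n3 : ∀ p, 0 ≤ μ3 p := un_nonneg μ2 n2
  have m2 : mass μ2 = 1 := by rw [hμ2, un_mass, hm]
  have m3 : mass μ3 = 1 := by rw [hμ3, un_mass, m2]
  have hd2 : 0 < |M2.det| := abs_pos.mpr h2
  have hd1 : 0 < |M1.det| := abs_pos.mpr h1
  have hg0 : (0 : ℝ) < 2 ^ g := by positivity
  set S : (Ω × (Fin r → Fin (2 ^ g))) × (Fin r → Fin (2 ^ R)) → (Fin r → ℤ) :=
    fun p => Sm M1 M2 g R q (z p.1.1) p.1.2 p.2 with hS
  have a1 := ch_symm μ3 S (fun p => pf M2 0 (z p.1.1)) (fun p => Y p.1.1)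
  -- the coarse position is nearly known
  have a2 := st_E3.2 _ _ r μ3 (fun p => pf M2 0 (z p.1.1)) (fun p => (S p, Y p.1.1))
    (2 * (1 + r * C + r * (r * C)) + 1) n3 (by positivity) (by
      intro p p' _ _ e k
      have e1 : S p = S p' := (Prod.mk.inj e).1
      have b1 := Sm_coarse M1 M2 h1 h2 C hC h21 g R hg q (z p.1.1) p.1.2 p.2 k
      have b2 := Sm_coarse M1 M2 h1 h2 C hC h21 g R hg q (z p'.1.1) p'.1.2 p'.2 k
      have e2 : Sm M1 M2 g R q (z p.1.1) p.1.2 p.2 = Sm M1 M2 g R q (z p'.1.1) p'.1.2 p'.2 := e1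
      rw [e2] at b1
      have b3 := pf_zero M2 (z p.1.1) k
      have b4 := pf_zero M2 (z p'.1.1) k
      have b5 : |(M2⁻¹ *ᵥ z p.1.1) k - (M2⁻¹ *ᵥ z p'.1.1) k| ≤ 2 * (1 + r * C + r * (r * C)) := by
        have b6 : |(2 : ℝ) ^ g * ((M2⁻¹ *ᵥ z p.1.1) k - (M2⁻¹ *ᵥ z p'.1.1) k)| ≤
            2 ^ g * (2 * (1 + r * C + r * (r * C))) := by
          rw [abs_le] at b1 b2 ⊢
          constructor <;> linarith
        rw [abs_mul, abs_of_pos hg0] at b6
        exact le_of_mul_le_mul_left b6 hg0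
      rw [abs_le] at b5 ⊢
      constructor <;> linarith)
  rw [m3, mul_one] at a2
  -- entropy of the sum given the point
  have a3 := ch_cond μ3 n3 S (fun p => (pf M2 0 (z p.1.1), Y p.1.1)) (fun p => p.1.1)
    (fun p p' _ _ e => by rw [Prod.mk.injEq]; exact ⟨by rw [e], by rw [e]⟩)
  have a4 := ch_chain μ3 S (fun p => p.2) (fun p => p.1.1)
  have a5 : CH μ3 (fun p => (S p, p.2)) (fun p => p.1.1) = CH μ3 (fun p => (p.1.2, p.2)) (fun p => p.1.1) := by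
    apply ch_congr_left
    intro p p' _ _ e
    rw [Prod.mk.injEq, Prod.mk.injEq]
    constructor
    · rintro ⟨e1, e2⟩
      refine ⟨?_, e2⟩
      funext i
      have e3 := congrFun e1 i
      simp only [hS] at e3
      rw [Sm_apply, Sm_apply, e, e2] at e3
      have e4 : ((p.1.2 i : ℕ) : ℤ) = ((p'.1.2 i : ℕ) : ℤ) := by linarith
      exact Fin.ext (by exact_mod_cast e4)
    · rintro ⟨e1, e2⟩
      refine ⟨?_, e2⟩
      simp only [hS]
      rw [e, e1, e2]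
  have a6 := ch_chain μ3 (fun p => p.1.2) (fun p => p.2) (fun p => p.1.1)
  have a7 : CH μ3 (fun p => p.1.2) (fun p => p.1.1) = r * g := by
    have b1 := un_fst (N := Fin r → Fin (2 ^ R)) μ2 n2 (fun p => p.2) (fun p => p.1)
    have b2 := un_snd (N := Fin r → Fin (2 ^ g)) μ hμ (fun ω => ω)
    rw [hμ3, b1, hμ2, b2, hm, mul_one, Fintype.card_fun, Fintype.card_fin, Fintype.card_fin]
    push_cast
    rw [Real.logb_pow, Real.logb_pow, Real.logb_self_eq_one (by norm_num)]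
    ring
  have a8 : CH μ3 (fun p => p.2) (fun p => (p.1.2, p.1.1)) = r * R := by
    have b2 := un_snd (N := Fin r → Fin (2 ^ R)) μ2 n2 (fun p => (p.2, p.1))
    rw [hμ3, b2, m2, mul_one, Fintype.card_fun, Fintype.card_fin, Fintype.card_fin]
    push_cast
    rw [Real.logb_pow, Real.logb_pow, Real.logb_self_eq_one (by norm_num)]
    ring
  -- the noise indices given the sum
  have a9 : CH μ3 (fun p => p.2) (fun p => (S p, p.1.1)) ≤
      ∑ p, μ3 p * Real.logb 2 ((2 * (1 + r + 2 * (r * C))) ^ r * (2 ^ R) ^ r * |M1.det| / |M2.det|) := by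
    apply e3_card μ3 _ _ (fun _ => (2 * (1 + r + 2 * (r * C))) ^ r * (2 ^ R) ^ r * |M1.det| / |M2.det|) n3
    intro p _
    refine Sm_count M1 M2 h1 h2 C hC g R hg q hq hq' (z p.1.1) (S p) _ ?_
    intro κ hκ
    obtain ⟨p', hp', rfl⟩ := e3_mem_image hκ
    have hp2 := (@Finset.mem_filter _ _ (_) _ _).mp hp'
    have e := Prod.mk.inj hp2.2.2
    refine ⟨p'.1.2, ?_⟩
    rw [← e.1, ← e.2]
  rw [← Finset.sum_mul] at a9
  have a10 : ∑ p, μ3 p = 1 := m3
  have a11 : Real.logb 2 ((2 * (1 + (r : ℝ) + 2 * (r * C))) ^ r * (2 ^ R) ^ r * |M1.det| / |M2.det|) =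
      r * Real.logb 2 (2 * (1 + r + 2 * (r * C))) + r * R + Real.logb 2 |M1.det| - Real.logb 2 |M2.det| := by
    rw [Real.logb_div (by positivity) hd2.ne', Real.logb_mul (by positivity) hd1.ne',
      Real.logb_mul (by positivity) (by positivity), Real.logb_pow, Real.logb_pow, Real.logb_pow,
      Real.logb_self_eq_one (by norm_num)]
    ring
  rw [a10, one_mul, a11] at a9
  -- marginal
  have a12 : CH μ3 (fun p => pf M2 0 (z p.1.1)) (fun p => Y p.1.1) = CH μ (fun ω => pf M2 0 (z ω)) Y := by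
    rw [hμ3, un_fst μ2 n2 (fun p => pf M2 0 (z p.1)) (fun p => Y p.1)]
    exact un_fst μ hμ (fun ω => pf M2 0 (z ω)) Y
  have a13 : (2 : ℝ) * (1 + r * C + r * (r * C)) + 1 + 1 = 2 * (1 + r * C + r * (r * C)) + 2 := by ring
  rw [a13] at a2
  linarith

/-- the constant of the filling -/
noncomputable def cF (r : ℕ) (C : ℝ) : ℝ :=
  r * 2 + (r * Real.logb 2 (2 * (1 + r + 2 * (r * C))) + r * Real.logb 2 (2 * (1 + r * C + r * (r * C)) + 2))

/-- **FILLING**: `M2` is obtained from `M1` by noises in the directions of its columns `k ∈ q` -/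
theorem fill (μ : Ω → ℝ) (hμ : ∀ ω, 0 ≤ μ ω) (hm : mass μ = 1) (z : Ω → Fin r → ℝ) (Y : Ω → δ)
    (M1 M2 : Mt r) (h1 : M1.det ≠ 0) (h2 : M2.det ≠ 0) (C : ℝ) (hC : 0 ≤ C) (h21 : Bdd C (M2⁻¹ * M1))
    (g R : ℕ) (hg : R ≤ g) (q : Finset (Fin r))
    (hq : ∀ k ∈ q, ∀ i, |(M1⁻¹ * M2) i k| ≤ C * 2 ^ R) (hq' : ∀ k, k ∉ q → ∀ i, |(M1⁻¹ * M2) i k| ≤ C) :
    SF μ z Y M2 ≤ SF μ z Y M1 + ∑ k ∈ q, Ns μ z Y M1 g R (fun i => M2 i k) + cF r C := by
  classical
  have : Nonempty (Fin (2 ^ g)) := ⟨⟨0, by positivity⟩⟩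
  have : Nonempty (Fin (2 ^ R)) := ⟨⟨0, by positivity⟩⟩
  set μ2 := un (Fin r → Fin (2 ^ g)) μ with hμ2
  set μ3 := un (Fin r → Fin (2 ^ R)) μ2 with hμ3
  have n2 : ∀ p, 0 ≤ μ2 p := un_nonneg μ hμ
  have n3 : ∀ p, 0 ≤ μ3 p := un_nonneg μ2 n2
  have m2 : mass μ2 = 1 := by rw [hμ2, un_mass, hm]
  have bal := fun k : Fin r => bal_coord (m := 2 ^ R) k
  -- independence
  have hI : ∑ k, CH μ3 (fun p => p.2 k) (fun p => Y p.1.1) ≤
      CH μ3 (fun p => fun k => p.2 k) (fun p => (Xu M1 g (z p.1.1) p.1.2, Y p.1.1)) := by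
    have b1 : ∀ k, CH μ3 (fun p => p.2 k) (fun p => Y p.1.1) = R := by
      intro k
      have b2 := un_map μ2 n2 (fun n : Fin r → Fin (2 ^ R) => n k) _ (bal k).1 (bal k).2
        (fun p => p.2) (fun p => Y p.1.1)
      have b3 := un_snd (N := Fin (2 ^ R)) μ2 n2 (fun p => Y p.1)
      rw [b3, m2, mul_one, Fintype.card_fin] at b2
      push_cast at b2
      rw [Real.logb_pow, Real.logb_self_eq_one (by norm_num), mul_one] at b2
      exact b2
    have b4 := un_snd (N := Fin r → Fin (2 ^ R)) μ2 n2 (fun p => (Xu M1 g (z p.1) p.2, Y p.1))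
    rw [m2, mul_one, Fintype.card_fun, Fintype.card_fin, Fintype.card_fin] at b4
    push_cast at b4
    rw [Real.logb_pow, Real.logb_pow, Real.logb_self_eq_one (by norm_num), mul_one] at b4
    rw [sum_congr rfl fun k _ => b1 k, sum_const, card_univ, Fintype.card_fin, nsmul_eq_mul]
    exact b4.ge
  have h3 := kv_fam μ3 n3 (fun p => Xu M1 g (z p.1.1) p.1.2) (fun k p => p.2 k)
    (fun k i => ((i : ℕ) : ℤ) • wv M1 g R (fun i => M2 i k)) (fun p => Y p.1.1) hI q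
  have h4 : ∀ k, CH μ3 (fun p => Xu M1 g (z p.1.1) p.1.2 + (((p.2 k : Fin (2 ^ R)) : ℕ) : ℤ) •
      wv M1 g R (fun i => M2 i k)) (fun p => Y p.1.1) - CH μ3 (fun p => Xu M1 g (z p.1.1) p.1.2)
      (fun p => Y p.1.1) = Ns μ z Y M1 g R (fun i => M2 i k) := by
    intro k
    have b2 := un_map μ2 n2 (fun n : Fin r → Fin (2 ^ R) => n k) _ (bal k).1 (bal k).2
      (fun p => Xu M1 g (z p.1.1) p.1.2 + ((p.2 : ℕ) : ℤ) • wv M1 g R (fun i => M2 i k)) (fun p => Y p.1.1)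
    have b3 := un_map μ2 n2 (fun n : Fin r → Fin (2 ^ R) => n k) _ (bal k).1 (bal k).2
      (fun p => Xu M1 g (z p.1.1) p.1.2) (fun p => Y p.1.1)
    unfold Ns
    rw [← b2, ← b3]
  rw [sum_congr rfl fun k _ => h4 k] at h3
  have h5 := up_X μ hμ hm z Y M1 g R
  have h6 := low_S μ hμ hm z Y M1 M2 h1 h2 C hC h21 g R hg q hq hq'
  have h7 : CH μ3 (fun p => Sm M1 M2 g R q (z p.1.1) p.1.2 p.2) (fun p => Y p.1.1) =
      CH μ3 (fun p => Xu M1 g (z p.1.1) p.1.2 + ∑ k ∈ q, (((p.2 k : Fin (2 ^ R)) : ℕ) : ℤ) •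
        wv M1 g R (fun i => M2 i k)) (fun p => Y p.1.1) := rfl
  rw [← hμ2, ← hμ3] at h5 h6
  unfold SF cF
  linarith

end Pool.Agent.Helper15.VW
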