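import Pool.Agent.Helper61.GL.Cal
import Pool.Agent.Helper70.RK.E5

/-!
# Adding an independent uniform variable to a finite law (theorem FW)
-/

set_option autoImplicit false

namespace Pool.Agent.Helper15.VW

open Finset Pool.Agent.Helper69.RK Pool.Agent.Helper61.GL

variable {Ω N N' α β γ : Type} [Fintype Ω] [Fintype N] [Fintype N']

/-- the product of `μ` and the uniform law on `N` -/
noncomputable def un (N : Type) [Fintype N] (μ : Ω → ℝ) : Ω × N → ℝ := fun p => μ p.1 / Fintype.card N

omit [Fintype Ω] in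
theorem un_nonneg (μ : Ω → ℝ) (hμ : ∀ ω, 0 ≤ μ ω) (p : Ω × N) : 0 ≤ un N μ p :=
  div_nonneg (hμ _) (Nat.cast_nonneg _)

omit [Fintype Ω] in
theorem un_ne (μ : Ω → ℝ) (p : Ω × N) (h : un N μ p ≠ 0) : μ p.1 ≠ 0 := by
  intro h0
  apply h
  unfold un
  rw [h0, zero_div]

theorem un_mass [Nonempty N] (μ : Ω → ℝ) : mass (un N μ) = mass μ := by
  have h : (Fintype.card N : ℝ) ≠ 0 := Nat.cast_ne_zero.mpr Fintype.card_ne_zero
  unfold mass un
  rw [Fintype.sum_prod_type]
  apply sum_congr rfl
  intro ω _
  simp only [sum_const, card_univ, nsmul_eq_mul]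
  field_simp

theorem un_push_fst [Nonempty N] (μ : Ω → ℝ) : push (fun p : Ω × N => p.1) (un N μ) = μ := by
  classical
  have h : (Fintype.card N : ℝ) ≠ 0 := Nat.cast_ne_zero.mpr Fintype.card_ne_zero
  funext ω
  unfold push un
  rw [Fintype.sum_prod_type]
  rw [Finset.sum_eq_single ω]
  · simp only [if_true, sum_const, card_univ, nsmul_eq_mul]
    field_simp
  · intro b _ hb
    simp only [hb, if_false, sum_const_zero]
  · intro h
    exact absurd (mem_univ _) h

theorem un_fst [Nonempty N] (μ : Ω → ℝ) (hμ : ∀ ω, 0 ≤ μ ω) (f : Ω → α) (g : Ω → γ) :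
    CH (un N μ) (fun p => f p.1) (fun p => g p.1) = CH μ f g := by
  have h := ((Pool.Agent.Helper70.RK.st_E5.1) Ω (Ω × N) α γ (un N μ) (fun p => p.1) f g (un_nonneg μ hμ)).2.2
  rw [un_push_fst] at h
  exact h.symm

/-- functions all of whose fibres have the same size -/
theorem un_push [Nonempty N] [Nonempty N'] (μ : Ω → ℝ) (h : N → N') (c : ℕ)
    (hc : Fintype.card N = c * Fintype.card N')
    (hf : ∀ n' (T : Finset N), (∀ n, n ∈ T ↔ h n = n') → T.card = c) :
    push (fun p : Ω × N => (p.1, h p.2)) (un N μ) = un N' μ := by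
  classical
  have h0 : (Fintype.card N' : ℝ) ≠ 0 := Nat.cast_ne_zero.mpr Fintype.card_ne_zero
  have h1 : (Fintype.card N : ℝ) ≠ 0 := Nat.cast_ne_zero.mpr Fintype.card_ne_zero
  have h2 : (Fintype.card N : ℝ) = c * Fintype.card N' := by exact_mod_cast hc
  funext p'
  obtain ⟨ω, n'⟩ := p'
  unfold push un
  rw [Fintype.sum_prod_type, Finset.sum_eq_single ω]
  · have h3 : ∀ n : N, (if (ω, h n) = (ω, n') then μ ω / (Fintype.card N : ℝ) else 0) =
        if h n = n' then μ ω / (Fintype.card N : ℝ) else 0 := by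
      intro n
      by_cases e : h n = n'
      · rw [if_pos (by rw [e]), if_pos e]
      · rw [if_neg (fun e' => e (Prod.mk.inj e').2), if_neg e]
    simp only [h3]
    rw [← Finset.sum_filter, sum_const, nsmul_eq_mul,
      hf n' (univ.filter (fun n => h n = n')) (fun n => by simp), h2]
    have h4 : (c : ℝ) ≠ 0 := by
      intro h5
      rw [h5, zero_mul] at h2
      exact h1 h2
    field_simp
  · intro b _ hb
    apply Finset.sum_eq_zero
    intro n _
    rw [if_neg (fun e => hb (Prod.mk.inj e).1)]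
  · intro h
    exact absurd (mem_univ _) h

theorem un_map [Nonempty N] [Nonempty N'] (μ : Ω → ℝ) (hμ : ∀ ω, 0 ≤ μ ω) (h : N → N') (c : ℕ)
    (hc : Fintype.card N = c * Fintype.card N')
    (hf : ∀ n' (T : Finset N), (∀ n, n ∈ T ↔ h n = n') → T.card = c) (f : Ω × N' → α) (g : Ω × N' → γ) :
    CH (un N μ) (fun p => f (p.1, h p.2)) (fun p => g (p.1, h p.2)) = CH (un N' μ) f g := by
  have h1 := ((Pool.Agent.Helper70.RK.st_E5.1) (Ω × N') (Ω × N) α γ (un N μ) (fun p => (p.1, h p.2)) f g
    (un_nonneg μ hμ)).2.2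
  rw [un_push μ h c hc hf] at h1
  exact h1.symm

/-- the uniform variable is independent of the first component -/
theorem un_snd [Nonempty N] (μ : Ω → ℝ) (hμ : ∀ ω, 0 ≤ μ ω) (g : Ω → γ) :
    CH (un N μ) (fun p => p.2) (fun p => g p.1) = Real.logb 2 (Fintype.card N) * mass μ := by
  classical
  have h0 : (Fintype.card N : ℝ) ≠ 0 := Nat.cast_ne_zero.mpr Fintype.card_ne_zero
  have h1 : ∀ p : Ω × N, pr (un N μ) (fun p => g p.1) p = pr μ g p.1 := by
    intro p
    rw [e1_pr_eq, e1_pr_eq, Fintype.sum_prod_type]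
    apply sum_congr rfl
    intro ω _
    by_cases e : g ω = g p.1
    · simp only [e, if_true, un, sum_const, card_univ, nsmul_eq_mul]
      field_simp
    · simp [e]
  have h2 : ∀ p : Ω × N, pr (un N μ) (fun p => (p.2, g p.1)) p = pr μ g p.1 / Fintype.card N := by
    intro p
    rw [e1_pr_eq, e1_pr_eq, Fintype.sum_prod_type, Finset.sum_div]
    apply sum_congr rfl
    intro ω _
    rw [Finset.sum_eq_single p.2]
    · by_cases e : g ω = g p.1
      · simp [e, un]
      · simp [e]
    · intro b _ hb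
      rw [if_neg]
      intro e
      exact hb (Prod.mk.inj e).1
    · intro h
      exact absurd (mem_univ _) h
  unfold CH
  have h3 : ∀ p : Ω × N, un N μ p * (Real.logb 2 (pr (un N μ) (fun p => g p.1) p) -
      Real.logb 2 (pr (un N μ) (fun p => (p.2, g p.1)) p)) = un N μ p * Real.logb 2 (Fintype.card N) := by
    intro p
    by_cases hp : un N μ p = 0
    · rw [hp, zero_mul, zero_mul]
    · have hp' := un_ne μ p hp
      have hpos : 0 < pr μ g p.1 := e1_pr_pos μ g hμ p.1 hp'
      rw [h1, h2, Real.logb_div hpos.ne' h0]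
      ring
  rw [sum_congr rfl fun p _ => h3 p, ← Finset.sum_mul]
  have h4 : ∑ p, un N μ p = mass μ := un_mass μ
  rw [h4, mul_comm]

/-- coordinates of functions are balanced -/
theorem bal_coord {r m : ℕ} (k : Fin r) :
    Fintype.card (Fin r → Fin m) = m ^ (r - 1) * Fintype.card (Fin m) ∧
    ∀ (n' : Fin m) (T : Finset (Fin r → Fin m)), (∀ n, n ∈ T ↔ n k = n') → T.card = m ^ (r - 1) := by
  classical
  have hr : 0 < r := lt_of_le_of_lt (Nat.zero_le _) k.2
  refine ⟨?_, ?_⟩
  · rw [Fintype.card_fun, Fintype.card_fin, Fintype.card_fin, ← pow_succ]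
    congr 1
    omega
  · intro n' T hT
    have h1 : T = Fintype.piFinset (fun i => if i = k then {n'} else (univ : Finset (Fin m))) := by
      ext n
      rw [hT, Fintype.mem_piFinset]
      constructor
      · intro h i
        by_cases hi : i = k
        · subst hi
          simp [h]
        · simp [hi]
      · intro h
        have := h k
        simpa using this
    rw [h1, Fintype.card_piFinset]
    have h2 : ∀ i : Fin r, (if i = k then ({n'} : Finset (Fin m)) else univ).card = if i = k then 1 else m := by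
      intro i
      split_ifs <;> simp
    rw [prod_congr rfl fun i _ => h2 i, ← Finset.mul_prod_erase univ _ (mem_univ k)]
    rw [if_pos rfl, one_mul]
    have h3 : ∏ i ∈ univ.erase k, (if i = k then 1 else m) = ∏ i ∈ univ.erase k, m :=
      prod_congr rfl fun i hi => if_neg (ne_of_mem_erase hi)
    rw [h3, prod_const, card_erase_of_mem (mem_univ k), card_univ, Fintype.card_fin]

end Pool.Agent.Helper15.VW
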