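import Pool.Agent.Helper15.VW.Kv
import Pool.Agent.Helper15.VW.Cnt
import Pool.Agent.Helper15.VW.Un
import Pool.Agent.Helper26.VW.Tel

/-!
# The functional `S` on frames: monotonicity, filling by noises (theorem FW)
-/

set_option autoImplicit false

namespace Pool.Agent.Helper15.VW

open Finset Matrix Pool.Agent.Helper69.RK Pool.Agent.Helper61.GL Pool.Agent.Helper26.VW

variable {r : ℕ} {Ω δ : Type} [Fintype Ω]

/-- minus the deficit of `z` at the resolution of the frame `M` -/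
noncomputable def SF (μ : Ω → ℝ) (z : Ω → Fin r → ℝ) (Y : Ω → δ) (M : Mt r) : ℝ :=
  CH μ (fun ω => pf M 0 (z ω)) Y + Real.logb 2 |M.det|

/-- the entries of `M' M⁻¹` are at most `C`: the box of `M` lies in `C'` times the box of `M'` -/
theorem pf_zero (M : Mt r) (z : Fin r → ℝ) (k : Fin r) : (pf M 0 z k : ℝ) ≤ (M⁻¹ *ᵥ z) k ∧
    (M⁻¹ *ᵥ z) k < pf M 0 z k + 1 := by
  unfold pf
  rw [pow_zero, one_mul]
  exact ⟨Int.floor_le _, Int.lt_floor_add_one _⟩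

theorem mulVec_abs {B : ℝ} {W : Mt r} (hB : 0 ≤ B) (hW : Bdd B W) {v : Fin r → ℝ} {t : ℝ}
    (hv : ∀ k, |v k| ≤ t) (i : Fin r) : |(W *ᵥ v) i| ≤ r * (B * t) := mulVec_le hB hW hv i

/-- the number of cells of a fine frame in a cell of a coarse one -/
theorem SF_mono (μ : Ω → ℝ) (hμ : ∀ ω, 0 ≤ μ ω) (hm : mass μ = 1) (z : Ω → Fin r → ℝ) (Y : Ω → δ)
    (M M' : Mt r) (hM : M.det ≠ 0) (hM' : M'.det ≠ 0) (C : ℝ) (hC : 0 ≤ C) (h : Bdd C (M'⁻¹ * M)) :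
    SF μ z Y M ≤ SF μ z Y M' + r * Real.logb 2 (2 * (1 + 2 * (r * C))) := by
  classical
  have hX : (M'⁻¹ * M).det ≠ 0 := by
    rw [det_mul, det_nonsing_inv, Ring.inverse_eq_inv']
    exact mul_ne_zero (inv_ne_zero hM') hM
  have h1 := ch_tri μ hμ (fun ω => pf M 0 (z ω)) (fun ω => pf M' 0 (z ω)) Y
  have h2 : CH μ (fun ω => pf M 0 (z ω)) (fun ω => (pf M' 0 (z ω), Y ω)) ≤
      ∑ ω, μ ω * Real.logb 2 ((2 * (1 + 2 * (r * C))) ^ r / |(M'⁻¹ * M).det|) := by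
    apply e3_card μ _ _ (fun _ => (2 * (1 + 2 * (r * C))) ^ r / |(M'⁻¹ * M).det|) hμ
    intro ω _
    rw [le_div_iff₀ (abs_pos.mpr hX)]
    have h4 : 2 * (1 + 2 * (r * C)) = 2 * (1 + r * C + r * C) := by ring
    rw [h4]
    refine cnt (M'⁻¹ * M) C (1 + r * C) hC (by positivity) h _ (fun i => pf M' 0 (z ω) i) ?_
    intro k hk i
    obtain ⟨ω', hω', rfl⟩ := e3_mem_image hk
    have hω2 := (@Finset.mem_filter _ _ (_) _ _).mp hω'
    have e := (Prod.mk.inj hω2.2.2).1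
    have e1 : (M'⁻¹ *ᵥ z ω') = (M'⁻¹ * M) *ᵥ (M⁻¹ *ᵥ z ω') := by
      rw [Matrix.mulVec_mulVec, Matrix.mul_assoc, Matrix.mul_nonsing_inv _ (isUnit_iff_ne_zero.2 hM),
        Matrix.mul_one]
    have e2 : |((M'⁻¹ * M) *ᵥ (fun j => (M⁻¹ *ᵥ z ω') j - (pf M 0 (z ω') j : ℝ))) i| ≤ r * (C * 1) := by
      apply mulVec_abs hC h
      intro j
      have := pf_zero M (z ω') j
      rw [abs_le]
      constructor <;> linarith
    have e3 : ((M'⁻¹ * M) *ᵥ (fun j => (M⁻¹ *ᵥ z ω') j - (pf M 0 (z ω') j : ℝ))) i =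
        (M'⁻¹ *ᵥ z ω') i - ((M'⁻¹ * M) *ᵥ (fun j => (pf M 0 (z ω') j : ℝ))) i := by
      rw [e1]
      simp only [Matrix.mulVec, dotProduct, mul_sub, Finset.sum_sub_distrib]
    have e4 := pf_zero M' (z ω') i
    rw [e3, abs_le] at e2
    rw [← e, abs_le]
    constructor <;> linarith
  rw [← Finset.sum_mul] at h2
  have h3 : ∑ ω, μ ω = 1 := hm
  have h5 : Real.logb 2 |(M'⁻¹ * M).det| = Real.logb 2 |M.det| - Real.logb 2 |M'.det| := by
    rw [det_mul, abs_mul, det_nonsing_inv, Ring.inverse_eq_inv', abs_inv,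
      Real.logb_mul (inv_ne_zero (abs_ne_zero.mpr hM')) (abs_ne_zero.mpr hM), Real.logb_inv]
    ring
  rw [h3, one_mul, Real.logb_div (by positivity) (abs_ne_zero.mpr hX), Real.logb_pow, h5] at h2
  unfold SF
  linarith

/-- the opposite comparison with the ratio of the volumes -/
theorem SF_big (μ : Ω → ℝ) (hμ : ∀ ω, 0 ≤ μ ω) (hm : mass μ = 1) (z : Ω → Fin r → ℝ) (Y : Ω → δ)
    (M M' : Mt r) (hM : M.det ≠ 0) (C : ℝ) (hC : 0 ≤ C) (h : Bdd C (M'⁻¹ * M)) :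
    SF μ z Y M' ≤ SF μ z Y M + (Real.logb 2 |M'.det| - Real.logb 2 |M.det|) + r * Real.logb 2 (r * C + 2) := by
  have h1 := pf_compare μ hμ z Y M' M hM C hC h 0
  rw [hm, mul_one] at h1
  unfold SF
  linarith

/-- the integer noise vector: `2 ^ g M⁻¹ (2 ^ (-R) u)` rounded -/
noncomputable def wv (M : Mt r) (g R : ℕ) (u : Fin r → ℝ) : Fin r → ℤ :=
  fun i => ⌊(2 : ℝ) ^ g * (M⁻¹ *ᵥ u) i / 2 ^ R⌋

/-- the position of `z` in the fine lattice of the frame, plus a uniform vector of the cell -/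
noncomputable def Xu (M : Mt r) (g : ℕ) (z : Fin r → ℝ) (u : Fin r → Fin (2 ^ g)) : Fin r → ℤ :=
  fun i => pf M g z i + (u i : ℕ)

/-- entropy increment of one noise -/
noncomputable def Ns (μ : Ω → ℝ) (z : Ω → Fin r → ℝ) (Y : Ω → δ) (M : Mt r) (g R : ℕ) (u : Fin r → ℝ) : ℝ :=
  CH (un (Fin (2 ^ R)) (un (Fin r → Fin (2 ^ g)) μ))
    (fun p => Xu M g (z p.1.1) p.1.2 + ((p.2 : ℕ) : ℤ) • wv M g R u) (fun p => Y p.1.1) -
  CH (un (Fin (2 ^ R)) (un (Fin r → Fin (2 ^ g)) μ))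
    (fun p => Xu M g (z p.1.1) p.1.2) (fun p => Y p.1.1)

theorem pf_lattice (M : Mt r) (g : ℕ) (z : Fin r → ℝ) (k : Fin r) :
    (2 : ℝ) ^ g * pf M 0 z k ≤ pf M g z k ∧ (pf M g z k : ℝ) < 2 ^ g * pf M 0 z k + 2 ^ g := by
  have h0 : (0 : ℝ) < 2 ^ g := by positivity
  have h1 := pf_zero M z k
  unfold pf at *
  constructor
  · have h2 : (2 : ℤ) ^ g * ⌊(2 : ℝ) ^ 0 * (M⁻¹ *ᵥ z) k⌋ ≤ ⌊(2 : ℝ) ^ g * (M⁻¹ *ᵥ z) k⌋ := by
      rw [Int.le_floor]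
      push_cast
      exact mul_le_mul_of_nonneg_left h1.1 h0.le
    exact_mod_cast h2
  · refine lt_of_le_of_lt (Int.floor_le _) ?_
    nlinarith [h1.2]

/-- upper bound for the entropy of the smoothed position -/
theorem up_X (μ : Ω → ℝ) (hμ : ∀ ω, 0 ≤ μ ω) (hm : mass μ = 1) (z : Ω → Fin r → ℝ) (Y : Ω → δ) (M : Mt r)
    (g R : ℕ) :
    CH (un (Fin r → Fin (2 ^ R)) (un (Fin r → Fin (2 ^ g)) μ)) (fun p => Xu M g (z p.1.1) p.1.2)
      (fun p => Y p.1.1) ≤ CH μ (fun ω => pf M 0 (z ω)) Y + r * (g + 2) := by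
  have : Nonempty (Fin (2 ^ g)) := ⟨⟨0, by positivity⟩⟩
  have : Nonempty (Fin (2 ^ R)) := ⟨⟨0, by positivity⟩⟩
  set μ2 := un (Fin r → Fin (2 ^ g)) μ with hμ2
  set μ3 := un (Fin r → Fin (2 ^ R)) μ2 with hμ3
  have n2 : ∀ p, 0 ≤ μ2 p := un_nonneg μ hμ
  have n3 : ∀ p, 0 ≤ μ3 p := un_nonneg μ2 n2
  have m3 : mass μ3 = 1 := by rw [hμ3, un_mass, hμ2, un_mass, hm]
  have h1 := ch_tri μ3 n3 (fun p => Xu M g (z p.1.1) p.1.2) (fun p => pf M 0 (z p.1.1)) (fun p => Y p.1.1)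
  have h2 : CH μ3 (fun p => pf M 0 (z p.1.1)) (fun p => Y p.1.1) = CH μ (fun ω => pf M 0 (z ω)) Y := by
    rw [hμ3, un_fst μ2 n2 (fun p => pf M 0 (z p.1)) (fun p => Y p.1)]
    exact un_fst μ hμ (fun ω => pf M 0 (z ω)) Y
  have h0 : (1 : ℝ) ≤ 2 ^ g := one_le_pow₀ (by norm_num)
  have h3 := st_E3.2 _ _ r μ3 (fun p => Xu M g (z p.1.1) p.1.2)
    (fun p => (pf M 0 (z p.1.1), Y p.1.1)) (2 * 2 ^ g) n3 (by positivity) (by
      intro p p' _ _ e k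
      have e1 := congrFun (Prod.mk.inj e).1 k
      have a1 := pf_lattice M g (z p.1.1) k
      have a2 := pf_lattice M g (z p'.1.1) k
      have b1 : (((p.1.2 k : ℕ) : ℤ) : ℝ) ≤ 2 ^ g := by
        have := (p.1.2 k).2.le
        exact_mod_cast this
      have b2 : (((p'.1.2 k : ℕ) : ℤ) : ℝ) ≤ 2 ^ g := by
        have := (p'.1.2 k).2.le
        exact_mod_cast this
      have c1 : (0 : ℝ) ≤ (((p.1.2 k : ℕ) : ℤ) : ℝ) := by positivity
      have c2 : (0 : ℝ) ≤ (((p'.1.2 k : ℕ) : ℤ) : ℝ) := by positivity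
      unfold Xu
      push_cast at *
      rw [e1] at a1
      rw [abs_le]
      constructor <;> linarith)
  rw [m3, mul_one] at h3
  have h4 : Real.logb 2 (2 * 2 ^ g + 1) ≤ g + 2 := by
    rw [Real.logb_le_iff_le_rpow (by norm_num) (by positivity)]
    have : (2 : ℝ) ^ ((g : ℝ) + 2) = 4 * 2 ^ g := by
      rw [Real.rpow_add (by norm_num), Real.rpow_natCast]
      norm_num
      ring
    rw [this]
    linarith
  have h5 : (r : ℝ) * Real.logb 2 (2 * 2 ^ g + 1) ≤ r * (g + 2) := mul_le_mul_of_nonneg_left h4 (Nat.cast_nonneg r)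
  linarith

/-! ### the sum of all noises -/

/-- position plus noises in the directions of the columns `k ∈ q` of `M2` -/
noncomputable def Sm (M1 M2 : Mt r) (g R : ℕ) (q : Finset (Fin r)) (z : Fin r → ℝ) (u : Fin r → Fin (2 ^ g))
    (κ : Fin r → Fin (2 ^ R)) : Fin r → ℤ :=
  Xu M1 g z u + ∑ k ∈ q, ((κ k : ℕ) : ℤ) • wv M1 g R (fun i => M2 i k)

theorem Sm_apply (M1 M2 : Mt r) (g R : ℕ) (q : Finset (Fin r)) (z : Fin r → ℝ) (u : Fin r → Fin (2 ^ g))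
    (κ : Fin r → Fin (2 ^ R)) (i : Fin r) : Sm M1 M2 g R q z u κ i =
      pf M1 g z i + (u i : ℕ) + ∑ k ∈ q, ((κ k : ℕ) : ℤ) * wv M1 g R (fun i => M2 i k) i := by
  unfold Sm Xu
  rw [Pi.add_apply, Finset.sum_apply]
  rfl

theorem col_mul (M1 M2 : Mt r) (k i : Fin r) : (M1⁻¹ *ᵥ (fun i => M2 i k)) i = (M1⁻¹ * M2) i k := by
  simp only [Matrix.mulVec, dotProduct, Matrix.mul_apply]

theorem wv_near (M1 M2 : Mt r) (g R : ℕ) (k i : Fin r) :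
    |(2 : ℝ) ^ g * (M1⁻¹ * M2) i k / 2 ^ R - wv M1 g R (fun i => M2 i k) i| ≤ 1 := by
  unfold wv
  rw [col_mul]
  have h1 := Int.floor_le ((2 : ℝ) ^ g * (M1⁻¹ * M2) i k / 2 ^ R)
  have h2 := Int.lt_floor_add_one ((2 : ℝ) ^ g * (M1⁻¹ * M2) i k / 2 ^ R)
  rw [abs_le]
  constructor <;> linarith

/-- the sum determines the coarse position -/
theorem Sm_coarse (M1 M2 : Mt r) (h1 : M1.det ≠ 0) (h2 : M2.det ≠ 0) (C : ℝ) (hC : 0 ≤ C)
    (h21 : Bdd C (M2⁻¹ * M1)) (g R : ℕ) (hg : R ≤ g) (q : Finset (Fin r)) (z : Fin r → ℝ)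
    (u : Fin r → Fin (2 ^ g)) (κ : Fin r → Fin (2 ^ R)) (i : Fin r) :
    |(2 : ℝ) ^ g * (M2⁻¹ *ᵥ z) i - ((M2⁻¹ * M1) *ᵥ (fun j => (Sm M1 M2 g R q z u κ j : ℝ))) i| ≤
      2 ^ g * (1 + r * C + r * (r * C)) := by
  have hg0 : (0 : ℝ) < 2 ^ g := by positivity
  have hR0 : (0 : ℝ) < 2 ^ R := by positivity
  have hgR : (2 : ℝ) ^ R ≤ 2 ^ g := pow_le_pow_right₀ (by norm_num) hg
  set v := M1⁻¹ *ᵥ z with hv
  -- the vector S = 2 ^ g v - e - Sum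
  set e : Fin r → ℝ := fun j => 2 ^ g * v j - pf M1 g z j - ((u j : ℕ) : ℝ) with he
  have he1 : ∀ j, |e j| ≤ 2 ^ g := by
    intro j
    have a1 : (pf M1 g z j : ℝ) ≤ 2 ^ g * v j := Int.floor_le _
    have a2 : (2 : ℝ) ^ g * v j < pf M1 g z j + 1 := Int.lt_floor_add_one _
    have a3 : ((u j : ℕ) : ℝ) + 1 ≤ 2 ^ g := by exact_mod_cast (u j).2
    have a4 : (0 : ℝ) ≤ ((u j : ℕ) : ℝ) := Nat.cast_nonneg _
    show |2 ^ g * v j - pf M1 g z j - ((u j : ℕ) : ℝ)| ≤ 2 ^ g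
    rw [abs_le]
    constructor <;> linarith
  set f : Fin r → Fin r → ℝ := fun k j => (2 : ℝ) ^ g * (M1⁻¹ * M2) j k / 2 ^ R - wv M1 g R (fun i => M2 i k) j with hf
  have hf1 : ∀ k j, |f k j| ≤ 1 := fun k j => wv_near M1 M2 g R k j
  have hS : ∀ j, (Sm M1 M2 g R q z u κ j : ℝ) = 2 ^ g * v j - e j +
      ∑ k ∈ q, ((κ k : ℕ) : ℝ) * ((2 : ℝ) ^ g * (M1⁻¹ * M2) j k / 2 ^ R - f k j) := by
    intro j
    rw [Sm_apply]
    push_cast
    simp only [he, hf]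
    have : ∀ k ∈ q, ((κ k : ℕ) : ℝ) * (wv M1 g R (fun i => M2 i k) j : ℝ) =
        ((κ k : ℕ) : ℝ) * ((2 : ℝ) ^ g * (M1⁻¹ * M2) j k / 2 ^ R -
          ((2 : ℝ) ^ g * (M1⁻¹ * M2) j k / 2 ^ R - wv M1 g R (fun i => M2 i k) j)) := by
      intro k _
      ring
    rw [Finset.sum_congr rfl this]
    ring
  have hid : (M2⁻¹ * M1) * (M1⁻¹ * M2) = 1 := by
    rw [Matrix.mul_assoc, ← Matrix.mul_assoc M1, Matrix.mul_nonsing_inv _ (isUnit_iff_ne_zero.2 h1),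
      Matrix.one_mul, Matrix.nonsing_inv_mul _ (isUnit_iff_ne_zero.2 h2)]
  have hid2 : (M2⁻¹ * M1) *ᵥ v = M2⁻¹ *ᵥ z := by
    rw [hv, Matrix.mulVec_mulVec, Matrix.mul_assoc, Matrix.mul_nonsing_inv _ (isUnit_iff_ne_zero.2 h1),
      Matrix.mul_one]
  have hmain : ((M2⁻¹ * M1) *ᵥ (fun j => (Sm M1 M2 g R q z u κ j : ℝ))) i =
      2 ^ g * (M2⁻¹ *ᵥ z) i - ((M2⁻¹ * M1) *ᵥ e) i +
      ∑ k ∈ q, ((κ k : ℕ) : ℝ) * ((2 : ℝ) ^ g / 2 ^ R * (if i = k then 1 else 0) - ((M2⁻¹ * M1) *ᵥ (f k)) i) := by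
    have b1 : ∀ k, (if i = k then (1 : ℝ) else 0) = ∑ j, (M2⁻¹ * M1) i j * (M1⁻¹ * M2) j k := by
      intro k
      have := congrFun (congrFun hid i) k
      rw [Matrix.mul_apply, Matrix.one_apply] at this
      exact this.symm
    simp only [Matrix.mulVec, dotProduct]
    have b2 : (M2⁻¹ *ᵥ z) i = ∑ j, (M2⁻¹ * M1) i j * v j := by
      rw [← hid2]
      rfl
    have b3 : ∑ j, M2⁻¹ i j * z j = ∑ j, (M2⁻¹ * M1) i j * v j := b2
    rw [b3]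
    have b4 : ∀ k ∈ q, ((κ k : ℕ) : ℝ) * ((2 : ℝ) ^ g / 2 ^ R * (if i = k then 1 else 0) -
        ∑ j, (M2⁻¹ * M1) i j * f k j) =
        ∑ j, (M2⁻¹ * M1) i j * (((κ k : ℕ) : ℝ) * ((2 : ℝ) ^ g * (M1⁻¹ * M2) j k / 2 ^ R - f k j)) := by
      intro k _
      rw [b1 k, Finset.mul_sum, ← Finset.sum_sub_distrib, Finset.mul_sum]
      apply Finset.sum_congr rfl
      intro j _
      ring
    rw [Finset.sum_congr rfl b4, Finset.sum_comm, Finset.mul_sum, ← Finset.sum_sub_distrib,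
      ← Finset.sum_add_distrib]
    apply Finset.sum_congr rfl
    intro j _
    rw [hS j, ← Finset.mul_sum]
    ring
  have c1 : |((M2⁻¹ * M1) *ᵥ e) i| ≤ r * (C * 2 ^ g) := mulVec_abs hC h21 he1 i
  have c2 : |∑ k ∈ q, ((κ k : ℕ) : ℝ) * ((2 : ℝ) ^ g / 2 ^ R * (if i = k then 1 else 0) -
      ((M2⁻¹ * M1) *ᵥ (f k)) i)| ≤ 2 ^ g + r * (2 ^ g * (r * C)) := by
    have d1 : ∀ k ∈ q, |((κ k : ℕ) : ℝ) * ((2 : ℝ) ^ g / 2 ^ R * (if i = k then 1 else 0) -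
        ((M2⁻¹ * M1) *ᵥ (f k)) i)| ≤ 2 ^ g * (if i = k then 1 else 0) + 2 ^ g * (r * C) := by
      intro k _
      have d2 : ((κ k : ℕ) : ℝ) ≤ 2 ^ R := by exact_mod_cast (κ k).2.le
      have d3 : (0 : ℝ) ≤ ((κ k : ℕ) : ℝ) := Nat.cast_nonneg _
      have d4 : |((M2⁻¹ * M1) *ᵥ (f k)) i| ≤ r * (C * 1) := mulVec_abs hC h21 (hf1 k) i
      rw [abs_mul, abs_of_nonneg d3]
      have d5 : (0 : ℝ) ≤ (if i = k then 1 else 0) := by split_ifs <;> norm_num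
      calc ((κ k : ℕ) : ℝ) * |(2 : ℝ) ^ g / 2 ^ R * (if i = k then 1 else 0) - ((M2⁻¹ * M1) *ᵥ (f k)) i|
          ≤ ((κ k : ℕ) : ℝ) * ((2 : ℝ) ^ g / 2 ^ R * (if i = k then 1 else 0) + r * C) := by
            apply mul_le_mul_of_nonneg_left _ d3
            refine (abs_sub _ _).trans ?_
            rw [abs_of_nonneg (mul_nonneg (by positivity) d5)]
            linarith
        _ = ((κ k : ℕ) : ℝ) / 2 ^ R * (2 ^ g * (if i = k then 1 else 0)) + ((κ k : ℕ) : ℝ) * (r * C) := by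
            field_simp
        _ ≤ 1 * (2 ^ g * (if i = k then 1 else 0)) + 2 ^ g * (r * C) := by
            apply add_le_add
            · apply mul_le_mul_of_nonneg_right _ (by positivity)
              rw [div_le_one hR0]
              exact d2
            · exact mul_le_mul_of_nonneg_right (d2.trans hgR) (by positivity)
        _ = 2 ^ g * (if i = k then 1 else 0) + 2 ^ g * (r * C) := by rw [one_mul]
    refine (abs_sum_le_sum_abs _ _).trans ((sum_le_sum d1).trans ?_)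
    rw [Finset.sum_add_distrib, ← Finset.mul_sum, sum_const, nsmul_eq_mul]
    have d6 : ∑ k ∈ q, (if i = k then (1 : ℝ) else 0) ≤ 1 := by
      rw [Finset.sum_ite_eq]
      split_ifs <;> norm_num
    have d7 : (q.card : ℝ) ≤ r := by
      have := card_le_univ q
      rw [Fintype.card_fin] at this
      exact_mod_cast this
    apply add_le_add
    · nlinarith
    · exact mul_le_mul_of_nonneg_right d7 (by positivity)
  rw [hmain]
  rw [abs_le] at c1 c2 ⊢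
  constructor <;> nlinarith

end Pool.Agent.Helper15.VW
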