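import Pool.Agent.Helper61.GL.Cal

/-!
# Kaimanovich - Vershik inequality for sums of independent variables (theorem FW)
-/

set_option autoImplicit false

namespace Pool.Agent.Helper15.VW

open Finset Pool.Agent.Helper69.RK Pool.Agent.Helper61.GL

variable {Ω α β γ δ K G : Type} [Fintype Ω]

/-- mutual information decreases under functions -/
theorem mi_mono (μ : Ω → ℝ) (hμ : ∀ ω, 0 ≤ μ ω) (U : Ω → α) (U' : Ω → β) (V : Ω → γ) (Y : Ω → δ)
    (hU : ∀ ω ω', μ ω ≠ 0 → μ ω' ≠ 0 → U' ω = U' ω' → U ω = U ω') :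
    CH μ U Y - CH μ U (fun ω => (V ω, Y ω)) ≤ CH μ U' Y - CH μ U' (fun ω => (V ω, Y ω)) := by
  have h1 := ch_symm μ U V Y
  have h2 := ch_symm μ U' V Y
  have h3 := ch_cond μ hμ V (fun ω => (U ω, Y ω)) (fun ω => (U' ω, Y ω)) (by
    intro ω ω' m m' e
    rw [Prod.mk.injEq] at e ⊢
    exact ⟨hU ω ω' m m' e.1, e.2⟩)
  linarith

/-- **Kaimanovich - Vershik**: `X`, `W`, `U` independent given `Y` -/
theorem kv [AddCommGroup G] (μ : Ω → ℝ) (hμ : ∀ ω, 0 ≤ μ ω) (X W U : Ω → G) (Y : Ω → δ)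
    (h1 : CH μ U Y ≤ CH μ U (fun ω => ((X ω, W ω), Y ω)))
    (h2 : CH μ W Y ≤ CH μ W (fun ω => ((X ω, U ω), Y ω))) :
    CH μ (fun ω => X ω + W ω + U ω) Y - CH μ (fun ω => X ω + W ω) Y ≤
      CH μ (fun ω => X ω + U ω) Y - CH μ X Y := by
  -- the left side
  have a1 := ch_symm μ (fun ω => X ω + W ω + U ω) U Y
  have a2 : CH μ (fun ω => X ω + W ω + U ω) (fun ω => (U ω, Y ω)) =
      CH μ (fun ω => X ω + W ω) (fun ω => (U ω, Y ω)) := by
    apply ch_congr_left
    intro ω ω' _ _ e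
    rw [Prod.mk.injEq] at e
    rw [e.1]
    exact add_left_inj _
  have a3 := ch_cond μ hμ (fun ω => X ω + W ω) Y (fun ω => (U ω, Y ω)) (fun ω ω' _ _ e =>
    (Prod.mk.inj e).2)
  -- the right side
  have b1 := ch_symm μ (fun ω => X ω + U ω) U Y
  have b2 : CH μ (fun ω => X ω + U ω) (fun ω => (U ω, Y ω)) = CH μ X (fun ω => (U ω, Y ω)) := by
    apply ch_congr_left
    intro ω ω' _ _ e
    rw [Prod.mk.injEq] at e
    rw [e.1]
    exact add_left_inj _
  have b3 := ch_symm μ X U Y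
  have b4 := ch_cond μ hμ U (fun ω => (X ω, Y ω)) (fun ω => ((X ω, W ω), Y ω)) (fun ω ω' _ _ e => by
    rw [Prod.mk.injEq, Prod.mk.injEq] at e
    rw [Prod.mk.injEq]
    exact ⟨e.1.1, e.2⟩)
  -- comparison
  have c1 := ch_cond μ hμ U (fun ω => (X ω + W ω + U ω, Y ω)) (fun ω => (W ω, (X ω + U ω, Y ω)))
    (fun ω ω' _ _ e => by
      rw [Prod.mk.injEq, Prod.mk.injEq] at e
      obtain ⟨e1, e2, e3⟩ := e
      rw [Prod.mk.injEq]
      refine ⟨?_, e3⟩
      rw [add_right_comm, add_right_comm (X ω'), e1, e2])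
  have c2 := ch_symm μ U W (fun ω => (X ω + U ω, Y ω))
  have c3 := ch_cond μ hμ W Y (fun ω => (X ω + U ω, Y ω)) (fun ω ω' _ _ e => (Prod.mk.inj e).2)
  have c4 := ch_cond μ hμ W (fun ω => (U ω, (X ω + U ω, Y ω))) (fun ω => ((X ω, U ω), Y ω))
    (fun ω ω' _ _ e => by
      rw [Prod.mk.injEq, Prod.mk.injEq] at e
      obtain ⟨⟨e1, e2⟩, e3⟩ := e
      rw [Prod.mk.injEq, Prod.mk.injEq]
      exact ⟨e2, by rw [e1, e2], e3⟩)
  linarith

/-- joint independence of a finite family (also from `X`) gives independence of disjoint parts -/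
theorem indep_parts {ι : Type} [Fintype ι] [DecidableEq ι] (μ : Ω → ℝ) (hμ : ∀ ω, 0 ≤ μ ω) (X : Ω → α)
    (κ : ι → Ω → K) (Y : Ω → δ)
    (hI : ∑ i, CH μ (κ i) Y ≤ CH μ (fun ω => fun i => κ i ω) (fun ω => (X ω, Y ω)))
    (s t : Finset ι) (hst : Disjoint s t) :
    CH μ (fun ω => fun i : {i // i ∈ s} => κ i ω) Y ≤
      CH μ (fun ω => fun i : {i // i ∈ s} => κ i ω) (fun ω => ((X ω, fun i : {i // i ∈ t} => κ i ω), Y ω)) := by
  -- subadditivity over a finset
  have sub : ∀ (u : Finset ι) {ε : Type} (Z : Ω → ε),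
      CH μ (fun ω => fun i : {i // i ∈ u} => κ i ω) Z ≤ ∑ i ∈ u, CH μ (κ i) Z := by
    intro u ε Z
    induction u using Finset.induction_on with
    | empty =>
      rw [Finset.sum_empty]
      refine le_of_eq (ch_zero μ _ _ ?_)
      intro ω ω' _ _ _
      funext i
      exact absurd i.2 (Finset.notMem_empty _)
    | insert a u ha ih =>
      rw [Finset.sum_insert ha]
      have g1 : CH μ (fun ω => fun i : {i // i ∈ insert a u} => κ i ω) Z ≤
          CH μ (fun ω => (κ a ω, fun i : {i // i ∈ u} => κ i ω)) Z := by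
        apply ch_mono μ hμ
        intro ω ω' _ _ e _
        rw [Prod.mk.injEq] at e
        funext i
        obtain ⟨i, hi⟩ := i
        rcases Finset.mem_insert.mp hi with h | h
        · subst h
          exact e.1
        · exact congrFun e.2 ⟨i, h⟩
      have g2 := ch_chain μ (κ a) (fun ω => fun i : {i // i ∈ u} => κ i ω) Z
      have g3 := ch_cond μ hμ (fun ω => fun i : {i // i ∈ u} => κ i ω) Z (fun ω => (κ a ω, Z ω))
        (fun ω ω' _ _ e => (Prod.mk.inj e).2)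
      linarith
  set r : Finset ι := (s ∪ t)ᶜ with hr
  -- the whole family in three parts
  have e1 : CH μ (fun ω => fun i => κ i ω) (fun ω => (X ω, Y ω)) ≤
      CH μ (fun ω => ((fun i : {i // i ∈ t} => κ i ω), (fun i : {i // i ∈ s} => κ i ω),
        fun i : {i // i ∈ r} => κ i ω)) (fun ω => (X ω, Y ω)) := by
    apply ch_mono μ hμ
    intro ω ω' _ _ e _
    rw [Prod.mk.injEq, Prod.mk.injEq] at e
    obtain ⟨e1, e2, e3⟩ := e
    funext i
    by_cases h1 : i ∈ t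
    · exact congrFun e1 ⟨i, h1⟩
    by_cases h2 : i ∈ s
    · exact congrFun e2 ⟨i, h2⟩
    · have : i ∈ r := by rw [hr, mem_compl, mem_union]; tauto
      exact congrFun e3 ⟨i, this⟩
  have e2 := ch_chain μ (fun ω => fun i : {i // i ∈ t} => κ i ω)
    (fun ω => ((fun i : {i // i ∈ s} => κ i ω), fun i : {i // i ∈ r} => κ i ω)) (fun ω => (X ω, Y ω))
  have e3 := ch_chain μ (fun ω => fun i : {i // i ∈ s} => κ i ω) (fun ω => fun i : {i // i ∈ r} => κ i ω)
    (fun ω => ((fun i : {i // i ∈ t} => κ i ω), (X ω, Y ω)))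
  have e4 := ch_cond μ hμ (fun ω => fun i : {i // i ∈ t} => κ i ω) Y (fun ω => (X ω, Y ω))
    (fun ω ω' _ _ e => (Prod.mk.inj e).2)
  have e5 := ch_cond μ hμ (fun ω => fun i : {i // i ∈ r} => κ i ω) Y
    (fun ω => ((fun i : {i // i ∈ s} => κ i ω), (fun i : {i // i ∈ t} => κ i ω), (X ω, Y ω)))
    (fun ω ω' _ _ e => by
      rw [Prod.mk.injEq, Prod.mk.injEq, Prod.mk.injEq] at e
      exact e.2.2.2)
  have e6 := sub t Y
  have e7 := sub r Y
  have e8 := sub s Y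
  have e9 : CH μ (fun ω => fun i : {i // i ∈ s} => κ i ω)
      (fun ω => ((fun i : {i // i ∈ t} => κ i ω), (X ω, Y ω))) =
      CH μ (fun ω => fun i : {i // i ∈ s} => κ i ω)
      (fun ω => ((X ω, fun i : {i // i ∈ t} => κ i ω), Y ω)) := by
    apply ch_congr_right
    intro ω ω' _ _
    simp only [Prod.mk.injEq]
    tauto
  have e10 : ∑ i, CH μ (κ i) Y = ∑ i ∈ s, CH μ (κ i) Y + ∑ i ∈ t, CH μ (κ i) Y + ∑ i ∈ r, CH μ (κ i) Y := by
    rw [← Finset.sum_union hst, hr, Finset.sum_add_sum_compl]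
  linarith

/-- **KV for families**: `X`, `κ_i` independent given `Y` -/
theorem kv_fam [AddCommGroup G] {ι : Type} [Fintype ι] [DecidableEq ι] (μ : Ω → ℝ) (hμ : ∀ ω, 0 ≤ μ ω)
    (X : Ω → G) (κ : ι → Ω → K) (φ : ι → K → G) (Y : Ω → δ)
    (hI : ∑ i, CH μ (κ i) Y ≤ CH μ (fun ω => fun i => κ i ω) (fun ω => (X ω, Y ω))) (s : Finset ι) :
    CH μ (fun ω => X ω + ∑ i ∈ s, φ i (κ i ω)) Y ≤
      CH μ X Y + ∑ i ∈ s, (CH μ (fun ω => X ω + φ i (κ i ω)) Y - CH μ X Y) := by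
  induction s using Finset.induction_on with
  | empty => simp
  | insert a s ha ih =>
    rw [Finset.sum_insert ha]
    have h1 : CH μ (fun ω => φ a (κ a ω)) Y ≤
        CH μ (fun ω => φ a (κ a ω)) (fun ω => ((X ω, ∑ i ∈ s, φ i (κ i ω)), Y ω)) := by
      have g1 := indep_parts μ hμ X κ Y hI {a} s (Finset.disjoint_singleton_left.mpr ha)
      have g2 := mi_mono μ hμ (fun ω => φ a (κ a ω)) (fun ω => fun i : {i // i ∈ ({a} : Finset ι)} => κ i ω)
        (fun ω => (X ω, fun i : {i // i ∈ s} => κ i ω)) Y (fun ω ω' _ _ e => by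
          have := congrFun e ⟨a, mem_singleton_self a⟩
          show φ a (κ a ω) = φ a (κ a ω')
          have h : κ a ω = κ a ω' := this
          rw [h])
      have g3 := ch_cond μ hμ (fun ω => φ a (κ a ω)) (fun ω => ((X ω, ∑ i ∈ s, φ i (κ i ω)), Y ω))
        (fun ω => ((X ω, fun i : {i // i ∈ s} => κ i ω), Y ω)) (fun ω ω' _ _ e => by
          rw [Prod.mk.injEq, Prod.mk.injEq] at e
          obtain ⟨⟨e1, e2⟩, e3⟩ := e
          rw [Prod.mk.injEq, Prod.mk.injEq]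
          refine ⟨⟨e1, Finset.sum_congr rfl fun i hi => ?_⟩, e3⟩
          have h : κ i ω = κ i ω' := congrFun e2 ⟨i, hi⟩
          rw [h])
      linarith
    have h2 : CH μ (fun ω => ∑ i ∈ s, φ i (κ i ω)) Y ≤
        CH μ (fun ω => ∑ i ∈ s, φ i (κ i ω)) (fun ω => ((X ω, φ a (κ a ω)), Y ω)) := by
      have g1 := indep_parts μ hμ X κ Y hI s {a} (Finset.disjoint_singleton_right.mpr ha)
      have g2 := mi_mono μ hμ (fun ω => ∑ i ∈ s, φ i (κ i ω)) (fun ω => fun i : {i // i ∈ s} => κ i ω)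
        (fun ω => (X ω, fun i : {i // i ∈ ({a} : Finset ι)} => κ i ω)) Y (fun ω ω' _ _ e => by
          show ∑ i ∈ s, φ i (κ i ω) = ∑ i ∈ s, φ i (κ i ω')
          refine Finset.sum_congr rfl fun i hi => ?_
          have h : κ i ω = κ i ω' := congrFun e ⟨i, hi⟩
          rw [h])
      have g3 := ch_cond μ hμ (fun ω => ∑ i ∈ s, φ i (κ i ω)) (fun ω => ((X ω, φ a (κ a ω)), Y ω))
        (fun ω => ((X ω, fun i : {i // i ∈ ({a} : Finset ι)} => κ i ω), Y ω)) (fun ω ω' _ _ e => by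
          rw [Prod.mk.injEq, Prod.mk.injEq] at e
          obtain ⟨⟨e1, e2⟩, e3⟩ := e
          rw [Prod.mk.injEq, Prod.mk.injEq]
          refine ⟨⟨e1, ?_⟩, e3⟩
          have h : κ a ω = κ a ω' := congrFun e2 ⟨a, mem_singleton_self a⟩
          rw [h])
      linarith
    have h3 := kv μ hμ X (fun ω => ∑ i ∈ s, φ i (κ i ω)) (fun ω => φ a (κ a ω)) Y h1 h2
    have h4 : CH μ (fun ω => X ω + ∑ i ∈ insert a s, φ i (κ i ω)) Y =
        CH μ (fun ω => X ω + ∑ i ∈ s, φ i (κ i ω) + φ a (κ a ω)) Y := by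
      congr 1
      funext ω
      rw [Finset.sum_insert ha, add_assoc, add_comm (φ a (κ a ω))]
    rw [h4]
    linarith

end Pool.Agent.Helper15.VW
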