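import Pool.Agent.Helper15.VW.Fil2

/-!
# The noise increment: nonnegative, monotone in the condition, invariant under projections, trivial bound
-/

set_option autoImplicit false

namespace Pool.Agent.Helper15.VW

open Finset Matrix Pool.Agent.Helper69.RK Pool.Agent.Helper61.GL Pool.Agent.Helper26.VW

variable {r : ℕ} {Ω Ω' δ κ : Type} [Fintype Ω] [Fintype Ω']

/-- the increment is a mutual information -/
theorem Ns_eq (μ : Ω → ℝ) (hμ : ∀ ω, 0 ≤ μ ω) (z : Ω → Fin r → ℝ) (Y : Ω → δ) (M : Mt r) (g R : ℕ)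
    (u : Fin r → ℝ) :
    Ns μ z Y M g R u =
      CH (un (Fin (2 ^ R)) (un (Fin r → Fin (2 ^ g)) μ)) (fun p => p.2) (fun p => Y p.1.1) -
      CH (un (Fin (2 ^ R)) (un (Fin r → Fin (2 ^ g)) μ)) (fun p => p.2)
        (fun p => (Xu M g (z p.1.1) p.1.2 + ((p.2 : ℕ) : ℤ) • wv M g R u, Y p.1.1)) := by
  have : Nonempty (Fin (2 ^ g)) := ⟨⟨0, by positivity⟩⟩
  have : Nonempty (Fin (2 ^ R)) := ⟨⟨0, by positivity⟩⟩
  set μ2 := un (Fin r → Fin (2 ^ g)) μ with hμ2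
  set μ3 := un (Fin (2 ^ R)) μ2 with hμ3
  have n2 : ∀ p, 0 ≤ μ2 p := un_nonneg μ hμ
  have n3 : ∀ p, 0 ≤ μ3 p := un_nonneg μ2 n2
  have a1 := ch_symm μ3 (fun p => p.2) (fun p => Xu M g (z p.1.1) p.1.2 + ((p.2 : ℕ) : ℤ) • wv M g R u)
    (fun p => Y p.1.1)
  have a2 : CH μ3 (fun p => Xu M g (z p.1.1) p.1.2 + ((p.2 : ℕ) : ℤ) • wv M g R u) (fun p => (p.2, Y p.1.1)) =
      CH μ3 (fun p => Xu M g (z p.1.1) p.1.2) (fun p => (p.2, Y p.1.1)) := by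
    apply ch_congr_left
    intro p p' _ _ e
    rw [Prod.mk.injEq] at e
    rw [e.1]
    exact add_left_inj _
  have a3 := ch_symm μ3 (fun p => p.2) (fun p => Xu M g (z p.1.1) p.1.2) (fun p => Y p.1.1)
  have a4 := un_snd (N := Fin (2 ^ R)) μ2 n2 (fun p => Y p.1)
  have a5 := un_snd (N := Fin (2 ^ R)) μ2 n2 (fun p => (Xu M g (z p.1) p.2, Y p.1))
  unfold Ns
  rw [← hμ2, ← hμ3] at *
  have a6 : CH μ3 (fun p => p.2) (fun p => Y p.1.1) =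
      CH μ3 (fun p => p.2) (fun p => (Xu M g (z p.1.1) p.1.2, Y p.1.1)) := a4.trans a5.symm
  linarith

theorem Ns_nonneg (μ : Ω → ℝ) (hμ : ∀ ω, 0 ≤ μ ω) (z : Ω → Fin r → ℝ) (Y : Ω → δ) (M : Mt r) (g R : ℕ)
    (u : Fin r → ℝ) : 0 ≤ Ns μ z Y M g R u := by
  rw [Ns_eq μ hμ]
  have n2 : ∀ p, 0 ≤ un (Fin r → Fin (2 ^ g)) μ p := un_nonneg μ hμ
  have n3 : ∀ p, 0 ≤ un (Fin (2 ^ R)) (un (Fin r → Fin (2 ^ g)) μ) p := un_nonneg _ n2
  have h := ch_cond _ n3 (fun p : (Ω × (Fin r → Fin (2 ^ g))) × Fin (2 ^ R) => p.2) (fun p => Y p.1.1)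
    (fun p => (Xu M g (z p.1.1) p.1.2 + ((p.2 : ℕ) : ℤ) • wv M g R u, Y p.1.1))
    (fun p p' _ _ e => (Prod.mk.inj e).2)
  linarith

/-- a finer condition gives a larger increment -/
theorem Ns_cond (μ : Ω → ℝ) (hμ : ∀ ω, 0 ≤ μ ω) (z : Ω → Fin r → ℝ) (Y : Ω → δ) (K : Ω → κ)
    (hK : ∀ ω ω', μ ω ≠ 0 → μ ω' ≠ 0 → K ω = K ω' → Y ω = Y ω') (M : Mt r) (g R : ℕ)
    (u : Fin r → ℝ) : Ns μ z Y M g R u ≤ Ns μ z K M g R u := by
  have : Nonempty (Fin (2 ^ g)) := ⟨⟨0, by positivity⟩⟩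
  have : Nonempty (Fin (2 ^ R)) := ⟨⟨0, by positivity⟩⟩
  rw [Ns_eq μ hμ, Ns_eq μ hμ]
  have n2 : ∀ p, 0 ≤ un (Fin r → Fin (2 ^ g)) μ p := un_nonneg μ hμ
  have n3 : ∀ p, 0 ≤ un (Fin (2 ^ R)) (un (Fin r → Fin (2 ^ g)) μ) p := un_nonneg _ n2
  have h := ch_cond _ n3 (fun p : (Ω × (Fin r → Fin (2 ^ g))) × Fin (2 ^ R) => p.2)
    (fun p => (Xu M g (z p.1.1) p.1.2 + ((p.2 : ℕ) : ℤ) • wv M g R u, Y p.1.1))
    (fun p => (Xu M g (z p.1.1) p.1.2 + ((p.2 : ℕ) : ℤ) • wv M g R u, K p.1.1))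
    (fun p p' hp hp' e => by
      rw [Prod.mk.injEq] at e ⊢
      exact ⟨e.1, hK _ _ (un_ne μ p.1 (un_ne _ p hp)) (un_ne μ p'.1 (un_ne _ p' hp')) e.2⟩)
  have a4 := un_snd (N := Fin (2 ^ R)) _ n2 (fun p => Y p.1)
  have a5 := un_snd (N := Fin (2 ^ R)) _ n2 (fun p => K p.1)
  have a6 : CH (un (Fin (2 ^ R)) (un (Fin r → Fin (2 ^ g)) μ)) (fun p => p.2) (fun p => Y p.1.1) =
      CH (un (Fin (2 ^ R)) (un (Fin r → Fin (2 ^ g)) μ)) (fun p => p.2) (fun p => K p.1.1) := a4.trans a5.symm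
  linarith

omit [Fintype Ω] in
/-- pushing forward commutes with adding a uniform variable -/
theorem un_comm {N : Type} [Fintype N] [Nonempty N] (μ' : Ω' → ℝ) (π : Ω' → Ω) :
    push (fun p : Ω' × N => (π p.1, p.2)) (un N μ') = un N (push π μ') := by
  classical
  funext p
  obtain ⟨ω, n⟩ := p
  unfold push un
  rw [Fintype.sum_prod_type, Finset.sum_div]
  apply Finset.sum_congr rfl
  intro ω' _
  rw [Finset.sum_eq_single n]
  · by_cases h : π ω' = ω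
    · simp [h]
    · simp [h]
  · intro b _ hb
    rw [if_neg]
    intro e
    exact hb (Prod.mk.inj e).2
  · intro h
    exact absurd (mem_univ _) h

theorem Ns_push (μ' : Ω' → ℝ) (hμ' : ∀ ω, 0 ≤ μ' ω) (π : Ω' → Ω) (z : Ω → Fin r → ℝ) (Y : Ω → δ) (M : Mt r)
    (g R : ℕ) (u : Fin r → ℝ) :
    Ns (push π μ') z Y M g R u = Ns μ' (fun ω => z (π ω)) (fun ω => Y (π ω)) M g R u := by
  have : Nonempty (Fin (2 ^ g)) := ⟨⟨0, by positivity⟩⟩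
  have : Nonempty (Fin (2 ^ R)) := ⟨⟨0, by positivity⟩⟩
  have h1 : un (Fin (2 ^ R)) (un (Fin r → Fin (2 ^ g)) (push π μ')) =
      push (fun p : (Ω' × (Fin r → Fin (2 ^ g))) × Fin (2 ^ R) => ((π p.1.1, p.1.2), p.2))
        (un (Fin (2 ^ R)) (un (Fin r → Fin (2 ^ g)) μ')) := by
    rw [← un_comm, ← un_comm]
  have n2 : ∀ p, 0 ≤ un (Fin r → Fin (2 ^ g)) μ' p := un_nonneg μ' hμ'
  have n3 : ∀ p, 0 ≤ un (Fin (2 ^ R)) (un (Fin r → Fin (2 ^ g)) μ') p := un_nonneg _ n2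
  unfold Ns
  rw [h1, ((Pool.Agent.Helper70.RK.st_E5.1) _ _ _ _ _ _ _ _ n3).2.2,
    ((Pool.Agent.Helper70.RK.st_E5.1) _ _ _ _ _ _ _ _ n3).2.2]

/-- scaling of the weights -/
theorem Ns_smul (μ : Ω → ℝ) (hμ : ∀ ω, 0 ≤ μ ω) (c : ℝ) (hc : 0 ≤ c) (z : Ω → Fin r → ℝ) (Y : Ω → δ)
    (M : Mt r) (g R : ℕ) (u : Fin r → ℝ) :
    Ns (fun ω => c * μ ω) z Y M g R u = c * Ns μ z Y M g R u := by
  have h1 : un (Fin (2 ^ R)) (un (Fin r → Fin (2 ^ g)) (fun ω => c * μ ω)) =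
      fun p => c * un (Fin (2 ^ R)) (un (Fin r → Fin (2 ^ g)) μ) p := by
    funext p
    unfold un
    ring
  have n2 : ∀ p, 0 ≤ un (Fin r → Fin (2 ^ g)) μ p := un_nonneg μ hμ
  have n3 : ∀ p, 0 ≤ un (Fin (2 ^ R)) (un (Fin r → Fin (2 ^ g)) μ) p := un_nonneg _ n2
  unfold Ns
  rw [h1, (Pool.Agent.Helper70.RK.st_E5.2) _ _ _ _ _ _ c hc n3, (Pool.Agent.Helper70.RK.st_E5.2) _ _ _ _ _ _ c hc n3]
  ring

/-- lower bound of the entropy of the smoothed position -/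
theorem low_X (μ : Ω → ℝ) (hμ : ∀ ω, 0 ≤ μ ω) (hm : mass μ = 1) (z : Ω → Fin r → ℝ) (Y : Ω → δ)
    (M : Mt r) (h1 : M.det ≠ 0) (g R : ℕ) :
    CH μ (fun ω => pf M 0 (z ω)) Y + r * g ≤
      CH (un (Fin (2 ^ R)) (un (Fin r → Fin (2 ^ g)) μ))
        (fun p => Xu M g (z p.1.1) p.1.2) (fun p => Y p.1.1) + cF r 1 := by
  have : Nonempty (Fin (2 ^ g)) := ⟨⟨0, by positivity⟩⟩
  have : Nonempty (Fin (2 ^ R)) := ⟨⟨0, by positivity⟩⟩
  have n2 : ∀ p, 0 ≤ un (Fin r → Fin (2 ^ g)) μ p := un_nonneg μ hμ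
  have hid : M⁻¹ * M = 1 := Matrix.nonsing_inv_mul _ (isUnit_iff_ne_zero.2 h1)
  have hone : ∀ i k, |(1 : Mt r) i k| ≤ 1 := by
    intro i k
    rw [Matrix.one_apply]
    split_ifs <;> norm_num
  have a1 := low_S μ hμ hm z Y M M h1 h1 1 zero_le_one (by rw [hid]; exact hone) g 0 (Nat.zero_le g) ∅
    (fun k hk => absurd hk (Finset.notMem_empty k)) (fun k _ i => by rw [hid]; exact hone i k)
  have a2 : (fun p : (Ω × (Fin r → Fin (2 ^ g))) × (Fin r → Fin (2 ^ 0)) =>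
      Sm M M g 0 ∅ (z p.1.1) p.1.2 p.2) = fun p => Xu M g (z p.1.1) p.1.2 := by
    funext p
    unfold Sm
    rw [Finset.sum_empty, add_zero]
  have : Nonempty (Fin (2 ^ 0)) := ⟨⟨0, by norm_num⟩⟩
  have a3 := un_fst (N := Fin r → Fin (2 ^ 0)) _ n2 (fun p => Xu M g (z p.1) p.2) (fun p => Y p.1)
  have a4 := un_fst (N := Fin (2 ^ R)) _ n2 (fun p => Xu M g (z p.1) p.2) (fun p => Y p.1)
  rw [a2, a3] at a1
  rw [a4]
  unfold cF
  have hr0 : (0 : ℝ) ≤ r := Nat.cast_nonneg r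
  linarith

/-- trivial bound, normalised weights -/
theorem Ns_triv1 (μ : Ω → ℝ) (hμ : ∀ ω, 0 ≤ μ ω) (hm : mass μ = 1) (z : Ω → Fin r → ℝ) (Y : Ω → δ)
    (M : Mt r) (h1 : M.det ≠ 0) (g R D : ℕ) (hg : R ≤ g) (hD : D ≤ R) (C : ℝ) (hC : 0 ≤ C)
    (u : Fin r → ℝ) (hu : ∀ i, |(M⁻¹ *ᵥ u) i| ≤ C * 2 ^ D) :
    Ns μ z Y M g R u ≤ D + (r * Real.logb 2 (C + 4) + cF r 1) := by
  have : Nonempty (Fin (2 ^ g)) := ⟨⟨0, by positivity⟩⟩
  have : Nonempty (Fin (2 ^ R)) := ⟨⟨0, by positivity⟩⟩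
  have hg0 : (0 : ℝ) < 2 ^ g := by positivity
  have hR0 : (0 : ℝ) < 2 ^ R := by positivity
  have hgR : (2 : ℝ) ^ R ≤ 2 ^ g := pow_le_pow_right₀ (by norm_num) hg
  have low := low_X μ hμ hm z Y M h1 g R
  unfold Ns
  set μ2 := un (Fin r → Fin (2 ^ g)) μ with hμ2
  set μ3 := un (Fin (2 ^ R)) μ2 with hμ3
  have n2 : ∀ p, 0 ≤ μ2 p := un_nonneg μ hμ
  have n3 : ∀ p, 0 ≤ μ3 p := un_nonneg μ2 n2
  have m2 : mass μ2 = 1 := by rw [hμ2, un_mass, hm]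
  have m3 : mass μ3 = 1 := by rw [hμ3, un_mass, m2]
  set X : (Ω × (Fin r → Fin (2 ^ g))) × Fin (2 ^ R) → (Fin r → ℤ) :=
    fun p => Xu M g (z p.1.1) p.1.2 + ((p.2 : ℕ) : ℤ) • wv M g R u with hX
  -- the leading digits of the noise index
  set a : (Ω × (Fin r → Fin (2 ^ g))) × Fin (2 ^ R) → ℤ := fun p => (((p.2 : ℕ) / 2 ^ (R - D) : ℕ) : ℤ) with ha
  have hRD : (2 : ℕ) ^ R = 2 ^ D * 2 ^ (R - D) := by rw [← pow_add]; congr 1; omega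
  have b1 := ch_tri μ3 n3 X (fun p => pf M 0 (z p.1.1)) (fun p => Y p.1.1)
  have b2 := ch_tri μ3 n3 X a (fun p => (pf M 0 (z p.1.1), Y p.1.1))
  have b3 := ch_int μ3 n3 a (fun p => (pf M 0 (z p.1.1), Y p.1.1)) (2 ^ D - 1)
    (by linarith [one_le_pow₀ (M₀ := ℝ) (n := D) (show (1 : ℝ) ≤ 2 by norm_num)]) (by
      intro p p' _ _ _
      have c1 : ∀ p : (Ω × (Fin r → Fin (2 ^ g))) × Fin (2 ^ R), (0 : ℝ) ≤ a p ∧ (a p : ℝ) ≤ 2 ^ D - 1 := by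
        intro p
        have c2 : (p.2 : ℕ) / 2 ^ (R - D) < 2 ^ D := by
          rw [Nat.div_lt_iff_lt_mul (by positivity), ← hRD]
          exact p.2.2
        have c3 : (p.2 : ℕ) / 2 ^ (R - D) + 1 ≤ 2 ^ D := c2
        have c4 : (((p.2 : ℕ) / 2 ^ (R - D) : ℕ) : ℝ) + 1 ≤ 2 ^ D := by exact_mod_cast c3
        simp only [ha]
        constructor
        · exact_mod_cast Nat.zero_le _
        · have : ((((p.2 : ℕ) / 2 ^ (R - D) : ℕ) : ℤ) : ℝ) = (((p.2 : ℕ) / 2 ^ (R - D) : ℕ) : ℝ) := by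
            norm_cast
          rw [this]
          linarith
      have d1 := c1 p
      have d2 := c1 p'
      rw [abs_le]
      constructor <;> linarith)
  rw [m3, mul_one, sub_add_cancel, Real.logb_pow, Real.logb_self_eq_one (by norm_num), mul_one] at b3
  have b4 := st_E3.2 _ _ r μ3 X (fun p => (a p, (pf M 0 (z p.1.1), Y p.1.1))) ((C + 3) * 2 ^ g) n3
    (by positivity) (by
      intro p p' _ _ e k
      rw [Prod.mk.injEq, Prod.mk.injEq] at e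
      obtain ⟨e1, e2, _⟩ := e
      have l1 := pf_lattice M g (z p.1.1) k
      have l2 := pf_lattice M g (z p'.1.1) k
      rw [congrFun e2 k] at l1
      have u1 : (((p.1.2 k : ℕ) : ℤ) : ℝ) ≤ 2 ^ g := by
        have := (p.1.2 k).2.le
        exact_mod_cast this
      have u2 : (((p'.1.2 k : ℕ) : ℤ) : ℝ) ≤ 2 ^ g := by
        have := (p'.1.2 k).2.le
        exact_mod_cast this
      have u3 : (0 : ℝ) ≤ (((p.1.2 k : ℕ) : ℤ) : ℝ) := by positivity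
      have u4 : (0 : ℝ) ≤ (((p'.1.2 k : ℕ) : ℤ) : ℝ) := by positivity
      -- the noise indices are close
      have i1 : |((p.2 : ℕ) : ℝ) - ((p'.2 : ℕ) : ℝ)| ≤ 2 ^ (R - D) := by
        have e3 : (p.2 : ℕ) / 2 ^ (R - D) = (p'.2 : ℕ) / 2 ^ (R - D) := by
          simp only [ha] at e1
          exact_mod_cast e1
        have f1 := Nat.div_add_mod (p.2 : ℕ) (2 ^ (R - D))
        have f2 := Nat.div_add_mod (p'.2 : ℕ) (2 ^ (R - D))
        have f3 := Nat.mod_lt (p.2 : ℕ) (show 0 < 2 ^ (R - D) by positivity)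
        have f4 := Nat.mod_lt (p'.2 : ℕ) (show 0 < 2 ^ (R - D) by positivity)
        rw [e3] at f1
        have g1 : ((p.2 : ℕ) : ℤ) - ((p'.2 : ℕ) : ℤ) ≤ 2 ^ (R - D) := by
          have : ((2 ^ (R - D) : ℕ) : ℤ) = 2 ^ (R - D) := by push_cast; rfl
          omega
        have g2 : ((p'.2 : ℕ) : ℤ) - ((p.2 : ℕ) : ℤ) ≤ 2 ^ (R - D) := by
          have : ((2 ^ (R - D) : ℕ) : ℤ) = 2 ^ (R - D) := by push_cast; rfl
          omega
        have g3 : ((p.2 : ℕ) : ℝ) - ((p'.2 : ℕ) : ℝ) ≤ 2 ^ (R - D) := by exact_mod_cast g1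
        have g4 : ((p'.2 : ℕ) : ℝ) - ((p.2 : ℕ) : ℝ) ≤ 2 ^ (R - D) := by exact_mod_cast g2
        rw [abs_le]
        constructor <;> linarith
      have w1 : |(wv M g R u k : ℝ)| ≤ C * 2 ^ g * 2 ^ D / 2 ^ R + 1 := by
        have h3 : |(2 : ℝ) ^ g * (M⁻¹ *ᵥ u) k / 2 ^ R| ≤ C * 2 ^ g * 2 ^ D / 2 ^ R := by
          rw [abs_div, abs_of_pos hR0, abs_mul, abs_of_pos hg0]
          apply div_le_div_of_nonneg_right _ hR0.le
          calc (2 : ℝ) ^ g * |(M⁻¹ *ᵥ u) k| ≤ 2 ^ g * (C * 2 ^ D) := mul_le_mul_of_nonneg_left (hu k) hg0.le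
            _ = C * 2 ^ g * 2 ^ D := by ring
        have h4 := Int.floor_le ((2 : ℝ) ^ g * (M⁻¹ *ᵥ u) k / 2 ^ R)
        have h5 := Int.lt_floor_add_one ((2 : ℝ) ^ g * (M⁻¹ *ᵥ u) k / 2 ^ R)
        unfold wv
        rw [abs_le] at h3 ⊢
        constructor <;> linarith
      have w2 : |(((p.2 : ℕ) : ℝ) - ((p'.2 : ℕ) : ℝ)) * (wv M g R u k : ℝ)| ≤ (C + 1) * 2 ^ g := by
        rw [abs_mul]
        have hp : (2 : ℝ) ^ (R - D) * 2 ^ D = 2 ^ R := by rw [← pow_add]; congr 1; omega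
        have hp2 : (2 : ℝ) ^ (R - D) ≤ 2 ^ g := by
          refine le_trans ?_ hgR
          exact pow_le_pow_right₀ (by norm_num) (by omega)
        calc |((p.2 : ℕ) : ℝ) - ((p'.2 : ℕ) : ℝ)| * |(wv M g R u k : ℝ)|
            ≤ 2 ^ (R - D) * (C * 2 ^ g * 2 ^ D / 2 ^ R + 1) := mul_le_mul i1 w1 (abs_nonneg _) (by positivity)
          _ = C * 2 ^ g * (2 ^ (R - D) * 2 ^ D) / 2 ^ R + 2 ^ (R - D) := by ring
          _ = C * 2 ^ g + 2 ^ (R - D) := by rw [hp]; field_simp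
          _ ≤ (C + 1) * 2 ^ g := by linarith
      have x1 : (X p k : ℝ) - X p' k = (pf M g (z p.1.1) k : ℝ) + (((p.1.2 k : ℕ) : ℤ) : ℝ) -
          (pf M g (z p'.1.1) k : ℝ) - (((p'.1.2 k : ℕ) : ℤ) : ℝ) +
          (((p.2 : ℕ) : ℝ) - ((p'.2 : ℕ) : ℝ)) * (wv M g R u k : ℝ) := by
        simp only [hX]
        unfold Xu
        simp only [Pi.add_apply, Pi.smul_apply, smul_eq_mul]
        push_cast
        ring
      rw [x1]
      rw [abs_le] at w2 ⊢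
      constructor <;> linarith)
  rw [m3, mul_one] at b4
  have b5 : CH μ3 (fun p => pf M 0 (z p.1.1)) (fun p => Y p.1.1) = CH μ (fun ω => pf M 0 (z ω)) Y := by
    rw [hμ3, un_fst μ2 n2 (fun p => pf M 0 (z p.1)) (fun p => Y p.1)]
    exact un_fst μ hμ (fun ω => pf M 0 (z ω)) Y
  have b6 : Real.logb 2 ((C + 3) * 2 ^ g + 1) ≤ Real.logb 2 (C + 4) + g := by
    have c1 : (C + 3) * 2 ^ g + 1 ≤ (C + 4) * 2 ^ g := by
      have : (1 : ℝ) ≤ 2 ^ g := one_le_pow₀ (by norm_num)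
      linarith
    have c2 := Real.logb_le_logb_of_le (b := 2) (by norm_num) (by positivity) c1
    rw [Real.logb_mul (by positivity) (by positivity), Real.logb_pow, Real.logb_self_eq_one (by norm_num),
      mul_one] at c2
    exact c2
  have b7 : (r : ℝ) * Real.logb 2 ((C + 3) * 2 ^ g + 1) ≤ r * (Real.logb 2 (C + 4) + g) :=
    mul_le_mul_of_nonneg_left b6 (Nat.cast_nonneg r)
  linarith

/-- the trivial constant -/
noncomputable def cT (r : ℕ) (C : ℝ) : ℝ := r * Real.logb 2 (C + 4) + cF r 1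

/-- trivial bound -/
theorem Ns_triv (μ : Ω → ℝ) (hμ : ∀ ω, 0 ≤ μ ω) (z : Ω → Fin r → ℝ) (Y : Ω → δ)
    (M : Mt r) (h1 : M.det ≠ 0) (g R D : ℕ) (hg : R ≤ g) (hD : D ≤ R) (C : ℝ) (hC : 0 ≤ C)
    (u : Fin r → ℝ) (hu : ∀ i, |(M⁻¹ *ᵥ u) i| ≤ C * 2 ^ D) :
    Ns μ z Y M g R u ≤ (D + cT r C) * mass μ := by
  have h0 : 0 ≤ mass μ := Finset.sum_nonneg fun ω _ => hμ ω
  rcases h0.eq_or_lt with h | h
  · have h2 : μ = fun ω => (0 : ℝ) * μ ω := by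
      funext ω
      rw [zero_mul]
      have := (Finset.sum_eq_zero_iff_of_nonneg (fun ω _ => hμ ω)).mp h.symm
      exact this ω (mem_univ ω)
    have h3 := Ns_smul μ hμ 0 le_rfl z Y M g R u
    rw [← h2, zero_mul] at h3
    rw [h3, ← h, mul_zero]
  · set ν : Ω → ℝ := fun ω => (mass μ)⁻¹ * μ ω with hν
    have n1 : ∀ ω, 0 ≤ ν ω := fun ω => mul_nonneg (inv_nonneg.mpr h.le) (hμ ω)
    have n2 : mass ν = 1 := by
      unfold mass
      rw [hν, ← Finset.mul_sum]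
      exact inv_mul_cancel₀ h.ne'
    have n3 : μ = fun ω => mass μ * ν ω := by
      funext ω
      simp only [hν]
      field_simp
    have h3 := Ns_smul ν n1 (mass μ) h.le z Y M g R u
    rw [← n3] at h3
    rw [h3, mul_comm]
    exact mul_le_mul_of_nonneg_right (Ns_triv1 ν n1 n2 z Y M h1 g R D hg hD C hC u hu) h.le

end Pool.Agent.Helper15.VW
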