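import Pool.Agent.Helper15.VW.Cht

/-!
# Telescoping of the functional along families of vectors (ns_notes_6d, (5.3), (5.4))
-/

set_option autoImplicit false

namespace Pool.Agent.Helper15.VW

open Finset Matrix Pool.Agent.Helper69.RK Pool.Agent.Helper26.VW Pool.Agent.Helper78.FW
open Pool.Agent.Helper61.GL hiding fl
open Pool.Agent.Helper92.W (fl)

variable {r : ℕ} {Ω α δ κ : Type} [Fintype Ω]

/-- family of the values of a function -/
def fm {ι : Type} [Fintype ι] (w : ι → Fin r → ℝ) : Multiset (Fin r → ℝ) := univ.val.map w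

theorem mem_fm {ι : Type} [Fintype ι] (w : ι → Fin r → ℝ) (v : Fin r → ℝ) : v ∈ fm w ↔ ∃ i, w i = v := by
  unfold fm
  simp

/-- change of the family: all members are in `C` times the box of the other family -/
theorem SZ_le (μ : Ω → ℝ) (hμ : ∀ ω, 0 ≤ μ ω) (hm : mass μ = 1) (z : Ω → Fin r → ℝ) (Y : Ω → δ)
    {φ φ' : ℝ} (hφ : 0 < φ) (hφ' : 0 < φ') (Z Z' : Multiset (Fin r → ℝ)) (hZ : fam (flr (N := r) φ) ≤ Z)
    (hZ' : fam (flr (N := r) φ') ≤ Z') (C : ℝ) (hC : 0 ≤ C)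
    (h : ∀ v ∈ Z, ∀ i, |((frm Z')⁻¹ *ᵥ v) i| ≤ C) :
    SZ μ z Y Z ≤ SZ μ z Y Z' + r * Real.logb 2 (2 * (1 + 2 * (r * C))) :=
  SF_mono μ hμ hm z Y (frm Z) (frm Z') (frm_det hφ hZ) (frm_det hφ' hZ') C hC (by
    intro i k
    rw [frm_col]
    exact h _ (fw_mem hZ k) i)

/-- Kaimanovich - Vershik for an arbitrary finite family -/
theorem SZ_kv {ι : Type} [Fintype ι] (μ : Ω → ℝ) (hμ : ∀ ω, 0 ≤ μ ω) (hm : mass μ = 1)
    (z : Ω → Fin r → ℝ) (Y : Ω → δ) {φ B : ℝ} (hφ : 0 < φ) (g R0 : ℕ) (hg : R0 ≤ g) (hB : B ≤ φ * 2 ^ R0)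
    (Z : Multiset (Fin r → ℝ)) (w : ι → Fin r → ℝ) (hZ : fam (flr (N := r) φ) ≤ Z)
    (hZB : ∀ v ∈ Z, ∀ i, |v i| ≤ B) (hwB : ∀ k i, |w k i| ≤ B) :
    SZ μ z Y (Z + fm w) ≤ SZ μ z Y Z + ∑ i, IZ μ z Y g R0 Z (w i) + cP r := by
  classical
  have hN : (0 : ℝ) ≤ r := Nat.cast_nonneg r
  have c1 : 0 ≤ r * Real.logb 2 (2 * (1 + 2 * ((r : ℝ) * 1))) := by
    apply mul_nonneg hN
    apply Real.logb_nonneg (by norm_num)
    linarith
  have c2 : 0 ≤ r * Real.logb 2 (2 * (1 + 2 * ((r : ℝ) * (r + 1)))) := by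
    apply mul_nonneg hN
    apply Real.logb_nonneg (by norm_num)
    have : (0 : ℝ) ≤ (r : ℝ) * (r + 1) := by positivity
    linarith
  have hZ' : fam (flr (N := r) φ) ≤ Z + fm w := hZ.trans (Multiset.le_add_right _ _)
  set q : Finset (Fin r) := univ.filter (fun k => fw (Z + fm w) k ∉ Z) with hq
  have hw : ∀ k ∈ q, ∃ i, w i = fw (Z + fm w) k := by
    intro k hk
    rw [hq, mem_filter] at hk
    rcases Multiset.mem_add.mp (fw_mem hZ' k) with h3 | h3
    · exact absurd h3 hk.2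
    · exact (mem_fm _ _).mp h3
  have hall : ∀ v ∈ Z + fm w, ∀ i, |v i| ≤ B := by
    intro v hv
    rcases Multiset.mem_add.mp hv with h3 | h3
    · exact hZB v h3
    · obtain ⟨k, rfl⟩ := (mem_fm _ _).mp h3
      exact hwB k
  have h1 := fill μ hμ hm z Y (frm Z) (frm (Z + fm w)) (frm_det hφ hZ) (frm_det hφ hZ') (r + 1)
    (by positivity) (by
      intro i k
      rw [frm_col]
      exact (frm_mem hφ hZ' (Multiset.mem_add.mpr (Or.inl (fw_mem hZ k))) i).trans (by linarith))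
    g R0 hg q (by
      intro k hk i
      rw [frm_col]
      have hb := hall _ (fw_mem hZ' k)
      have h2 : InB Z (((1 : ℝ) / 2) ^ R0 • fw (Z + fm w) k) := by
        apply InB.flr hφ hZ
        intro j
        rw [Pi.smul_apply, smul_eq_mul, abs_mul, abs_of_pos (by positivity)]
        have h3 := (hb j).trans hB
        have h4 : ((1 : ℝ) / 2) ^ R0 * 2 ^ R0 = 1 := by rw [← mul_pow]; norm_num
        calc ((1 : ℝ) / 2) ^ R0 * |fw (Z + fm w) k j| ≤ (1 / 2) ^ R0 * (φ * 2 ^ R0) :=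
              mul_le_mul_of_nonneg_left h3 (by positivity)
          _ = φ := by rw [mul_left_comm, h4, mul_one]
      exact (frm_smul_inB hφ hZ h2 i).trans (mul_le_mul_of_nonneg_right (by linarith) (by positivity)))
    (by
      intro k hk i
      rw [frm_col]
      rw [hq, mem_filter, not_and, not_not] at hk
      exact (frm_mem hφ hZ (hk (mem_univ k)) i).trans (by linarith))
  have h2 : ∑ k ∈ q, Ns μ z Y (frm Z) g R0 (fun i => frm (Z + fm w) i k) ≤ ∑ i, IZ μ z Y g R0 Z (w i) := by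
    rcases isEmpty_or_nonempty ι with hem | hne
    · have hq0 : q = ∅ := by
        apply Finset.eq_empty_of_forall_notMem
        intro k hk
        obtain ⟨i, _⟩ := hw k hk
        exact hem.false i
      rw [hq0, Finset.sum_empty]
      exact Finset.sum_nonneg fun i _ => Ns_nonneg μ hμ z Y _ g R0 _
    choose! ι' hι using hw
    have hinj : Set.InjOn ι' q := by
      intro k hk k' hk' e
      by_contra hne
      have e1 : fw (Z + fm w) k = fw (Z + fm w) k' := by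
        rw [← hι k hk, ← hι k' hk', e]
      apply fw_det hφ hZ'
      exact Matrix.det_zero_of_row_eq hne e1
    calc ∑ k ∈ q, Ns μ z Y (frm Z) g R0 (fun i => frm (Z + fm w) i k)
        = ∑ k ∈ q, IZ μ z Y g R0 Z (w (ι' k)) := by
          apply Finset.sum_congr rfl
          intro k hk
          rw [frm_colv, hι k hk]
          rfl
      _ = ∑ i ∈ q.image ι', IZ μ z Y g R0 Z (w i) :=
          (Finset.sum_image (f := fun i => IZ μ z Y g R0 Z (w i)) hinj).symm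
      _ ≤ ∑ i, IZ μ z Y g R0 Z (w i) :=
          Finset.sum_le_sum_of_subset_of_nonneg (Finset.subset_univ _)
            (fun i _ _ => Ns_nonneg μ hμ z Y _ g R0 _)
  unfold SZ cP
  linarith

/-- the constant of one step of the telescoping -/
noncomputable def cS (r : ℕ) (C : ℝ) : ℝ :=
  r * Real.logb 2 (2 * (1 + 2 * (r * 1))) + cP r + r * Real.logb 2 (2 * (1 + 2 * (r * C)))

/-- **TELESCOPING**: `F t ω i` are the vectors of the frames at time `t` (functions of the base `Y`), `lt` the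
levels; the family at time `t` is `floor + 2 ^ (-l t) F t`; the bodies increase up to the constant `C` -/
theorem tele {ι : Type} [Fintype ι] (μ : Ω → ℝ) (hμ : ∀ ω, 0 ≤ μ ω) (hm : mass μ = 1)
    (z : Ω → Fin r → ℝ) (Y : Ω → δ) (φ : Ω → ℝ) (F : ℕ → Ω → ι → Fin r → ℝ) (B C : ℝ) (g R0 l0 D L : ℕ)
    (hg : R0 ≤ g) (hC : 1 ≤ C)
    (hYφ : ∀ ω ω', μ ω ≠ 0 → μ ω' ≠ 0 → Y ω = Y ω' → φ ω = φ ω')
    (hYF : ∀ t ω ω', μ ω ≠ 0 → μ ω' ≠ 0 → Y ω = Y ω' → F t ω = F t ω')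
    (hφ : ∀ ω, μ ω ≠ 0 → 0 < φ ω) (hφB : ∀ ω, μ ω ≠ 0 → φ ω ≤ B)
    (hB : ∀ ω, μ ω ≠ 0 → B ≤ φ ω * 2 ^ R0) (hFB : ∀ t ω, μ ω ≠ 0 → ∀ i k, |F t ω i k| ≤ B)
    (hinc : ∀ t < L, ∀ ω, μ ω ≠ 0 → ∀ i k,
      |((frm (fam (flr (φ ω)) + fm (fun i => ((1 : ℝ) / 2) ^ (l0 + (t + 1) * D) • F (t + 1) ω i)))⁻¹ *ᵥ
        (((1 : ℝ) / 2) ^ (l0 + (t + 1) * D) • F t ω i)) k| ≤ C) :
    SV μ z Y (fun ω => fam (flr (φ ω)) + fm (fun i => ((1 : ℝ) / 2) ^ l0 • F 0 ω i)) ≤
      SV μ z Y (fun ω => fam (flr (φ ω)) + fm (fun i => ((1 : ℝ) / 2) ^ (l0 + L * D) • F L ω i)) +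
      ∑ t ∈ range L, ∑ i, IV μ z Y g R0
        (fun ω => fam (flr (φ ω)) + fm (fun i => ((1 : ℝ) / 2) ^ (l0 + (t + 1) * D) • F t ω i))
        (fun ω => ((1 : ℝ) / 2) ^ (l0 + t * D) • F t ω i) + L * cS r C := by
  classical
  set A : ℕ → ℕ → Ω → Multiset (Fin r → ℝ) :=
    fun a t ω => fam (flr (φ ω)) + fm (fun i => ((1 : ℝ) / 2) ^ (l0 + a * D) • F t ω i) with hA
  have hYA : ∀ a t ω ω', μ ω ≠ 0 → μ ω' ≠ 0 → Y ω = Y ω' → A a t ω = A a t ω' := by
    intro a t ω ω' x x' e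
    simp only [hA]
    rw [hYφ ω ω' x x' e, hYF t ω ω' x x' e]
  have hpow : ∀ l : ℕ, ((1 : ℝ) / 2) ^ l ≤ 1 := fun l => pow_le_one₀ (by norm_num) (by norm_num)
  have hfl : ∀ a t ω, fam (flr (φ ω)) ≤ A a t ω := fun a t ω => Multiset.le_add_right _ _
  have hbd : ∀ a t ω, μ ω ≠ 0 → ∀ i k, |(((1 : ℝ) / 2) ^ (l0 + a * D) • F t ω i) k| ≤ B := by
    intro a t ω x i k
    rw [Pi.smul_apply, smul_eq_mul, abs_mul, abs_of_pos (by positivity)]
    calc ((1 : ℝ) / 2) ^ (l0 + a * D) * |F t ω i k| ≤ 1 * B :=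
          mul_le_mul (hpow _) (hFB t ω x i k) (abs_nonneg _) zero_le_one
      _ = B := one_mul B
  have hAB : ∀ a t ω, μ ω ≠ 0 → ∀ v ∈ A a t ω, ∀ i, |v i| ≤ B := by
    intro a t ω x v hv i
    rcases Multiset.mem_add.mp hv with h3 | h3
    · obtain ⟨k, rfl⟩ := (mem_fam_iff _ _).mp h3
      unfold flr
      have h4 := hφ ω x
      have h5 := hφB ω x
      rw [Pi.single_apply]
      split_ifs
      · rw [abs_of_pos h4]
        exact h5
      · rw [abs_zero]
        linarith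
    · obtain ⟨k, rfl⟩ := (mem_fm _ _).mp h3
      exact hbd a t ω x k i
  -- one step
  have key : ∀ t ∈ range L, SV μ z Y (A t t) ≤ SV μ z Y (A (t + 1) (t + 1)) +
      (∑ i, IV μ z Y g R0 (A (t + 1) t) (fun ω => ((1 : ℝ) / 2) ^ (l0 + t * D) • F t ω i) + cS r C) := by
    intro t ht
    rw [Finset.mem_range] at ht
    have e1 : ∀ i, IV μ z Y g R0 (A (t + 1) t) (fun ω => ((1 : ℝ) / 2) ^ (l0 + t * D) • F t ω i) =
        ∑ ω, μ ω * IZ (cw μ Y ω) z Y g R0 (A (t + 1) t ω) (((1 : ℝ) / 2) ^ (l0 + t * D) • F t ω i) := fun i =>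
      IV_avg μ hμ z Y g R0 (A (t + 1) t) (fun ω => ((1 : ℝ) / 2) ^ (l0 + t * D) • F t ω i) (hYA (t + 1) t)
        (fun ω ω' a a' e => by rw [hYF t ω ω' a a' e])
    rw [SV_avg μ hμ z Y (A t t) (hYA t t), SV_avg μ hμ z Y (A (t + 1) (t + 1)) (hYA (t + 1) (t + 1)),
      Finset.sum_congr rfl fun i _ => e1 i, Finset.sum_comm, ← add_assoc, ← Finset.sum_add_distrib]
    have h2 := avg_le μ hμ (fun ω => SZ (cw μ Y ω) z Y (A t t ω))
      (fun ω => SZ (cw μ Y ω) z Y (A (t + 1) (t + 1) ω) +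
        ∑ i, IZ (cw μ Y ω) z Y g R0 (A (t + 1) t ω) (((1 : ℝ) / 2) ^ (l0 + t * D) • F t ω i)) (cS r C) (by
        intro ω x
        have n1 := cw_nonneg μ Y hμ ω
        have n2 := cw_mass μ hμ Y ω x
        -- add all vectors
        have s1 := SZ_le (cw μ Y ω) n1 n2 z Y (hφ ω x) (hφ ω x) (A t t ω)
          (A (t + 1) t ω + fm (fun i => ((1 : ℝ) / 2) ^ (l0 + t * D) • F t ω i)) (hfl t t ω)
          ((hfl (t + 1) t ω).trans (Multiset.le_add_right _ _)) 1 zero_le_one (by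
            intro v hv i
            apply frm_mem (hφ ω x) ((hfl (t + 1) t ω).trans (Multiset.le_add_right _ _))
            rcases Multiset.mem_add.mp hv with h3 | h3
            · exact Multiset.mem_add.mpr (Or.inl (Multiset.mem_add.mpr (Or.inl h3)))
            · exact Multiset.mem_add.mpr (Or.inr h3))
        have s2 := SZ_kv (cw μ Y ω) n1 n2 z Y (hφ ω x) g R0 hg (hB ω x) (A (t + 1) t ω)
          (fun i => ((1 : ℝ) / 2) ^ (l0 + t * D) • F t ω i) (hfl (t + 1) t ω) (hAB (t + 1) t ω x)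
          (fun k i => hbd t t ω x k i)
        have s3 := SZ_le (cw μ Y ω) n1 n2 z Y (hφ ω x) (hφ ω x) (A (t + 1) t ω) (A (t + 1) (t + 1) ω)
          (hfl (t + 1) t ω) (hfl (t + 1) (t + 1) ω) C (by linarith) (by
            intro v hv i
            rcases Multiset.mem_add.mp hv with h3 | h3
            · exact (frm_mem (hφ ω x) (hfl (t + 1) (t + 1) ω)
                (Multiset.mem_add.mpr (Or.inl h3)) i).trans hC
            · obtain ⟨k, rfl⟩ := (mem_fm _ _).mp h3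
              exact hinc t ht ω x k i)
        unfold cS
        linarith)
    rw [hm, mul_one] at h2
    refine h2.trans (le_of_eq ?_)
    congr 1
    apply Finset.sum_congr rfl
    intro ω _
    rw [mul_add, Finset.mul_sum]
  have hsum : ∀ L' ≤ L, SV μ z Y (A 0 0) ≤ SV μ z Y (A L' L') +
      ∑ t ∈ range L', (∑ i, IV μ z Y g R0 (A (t + 1) t)
        (fun ω => ((1 : ℝ) / 2) ^ (l0 + t * D) • F t ω i) + cS r C) := by
    intro L'
    induction L' with
    | zero => intro _; simp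
    | succ t ih =>
      intro h
      have h1 := ih (by omega)
      have h2 := key t (Finset.mem_range.mpr (by omega))
      rw [Finset.sum_range_succ]
      linarith
  have h1 := hsum L le_rfl
  rw [Finset.sum_add_distrib, Finset.sum_const, Finset.card_range, nsmul_eq_mul] at h1
  have h2 : SV μ z Y (A 0 0) =
      SV μ z Y (fun ω => fam (flr (φ ω)) + fm (fun i => ((1 : ℝ) / 2) ^ l0 • F 0 ω i)) := by
    congr 1
    funext ω
    simp only [hA, zero_mul, add_zero]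
  rw [h2] at h1
  linarith

end Pool.Agent.Helper15.VW
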